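import Pool.Agent.Lib.MP_7f581e_ntS.PKerE
import Pool.Agent.Lib.MP_7f581e_ntR.Main

/-!
Extensions by normal `p`-subgroups over Hilbertian fields of characteristic `p`.
-/

set_option autoImplicit false
set_option linter.unusedSectionVars false

universe u v

namespace MP7fS

open MP7fR

variable {p : ℕ} [Fact p.Prime]

theorem occurs_congr {G H : Type} [Group G] [Group H] {F : Type u} [Field F] (e : G ≃* H)
    (h : Occurs G F) : Occurs H F := by
  obtain ⟨L, _, _, h1, h2, ⟨f⟩⟩ := h
  exact ⟨L, inferInstance, inferInstance, h1, h2, ⟨f.trans e⟩⟩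

theorem exists_addEquiv (V : Type) [AddCommGroup V] [Module (ZMod p) V] [Finite V] :
    ∃ n : ℕ, Nonempty ((Fin n → ZMod p) ≃+ V) := by
  have hMf : Module.Finite (ZMod p) V := Module.Finite.of_finite
  exact ⟨_, ⟨(Module.finBasis (ZMod p) V).equivFun.symm.toAddEquiv⟩⟩

theorem exists_equiv (A : Type) [CommGroup A] [Finite A] (h : ∀ a : A, a ^ p = 1) :
    ∃ n : ℕ, Nonempty (Multiplicative (Fin n → ZMod p) ≃* A) := by
  let _ : Module (ZMod p) (Additive A) := AddCommGroup.zmodModule (n := p) (by
    intro a
    change Additive.ofMul ((Additive.toMul a) ^ p) = 0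
    rw [h]
    rfl)
  have hfinA : Finite (Additive A) := inferInstanceAs (Finite A)
  obtain ⟨n, ⟨e⟩⟩ := exists_addEquiv (p := p) (Additive A)
  exact ⟨n, ⟨AddEquiv.toMultiplicativeLeft e⟩⟩

/-- One step: elementary abelian kernel. -/
theorem occurs_of_elemAbelian {K : Type u} [Field K] [CharP K p] [Infinite K] {E : Type}
    [Group E] [Finite E] (A : Subgroup E) [hAn : A.Normal] (hcomm : ∀ a ∈ A, ∀ b ∈ A, a * b = b * a)
    (hexp : ∀ a ∈ A, a ^ p = 1) (h : Occurs (E ⧸ A) K) : Occurs E (RatFunc K) := by
  classical
  obtain ⟨M, _, _, _, _, ⟨e⟩⟩ := h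
  have : CharP M p := charP_of_injective_algebraMap (algebraMap K M).injective p
  obtain ⟨n, ⟨e0⟩⟩ : ∃ n : ℕ, Nonempty (Multiplicative (Fin n → ZMod p) ≃* A) := by
    let _ : CommGroup A := { (inferInstance : Group A) with
      mul_comm := fun a b => Subtype.ext (hcomm _ a.2 _ b.2) }
    exact exists_equiv A (fun a => Subtype.ext (hexp _ a.2))
  let th : Multiplicative (Fin n → ZMod p) →* E := A.subtype.comp e0.toMonoidHom
  have hth : ∀ w : Multiplicative (Fin n → ZMod p), th w = ((e0 w : A) : E) := fun _ => rfl
  let cj : E → ((Fin n → ZMod p) →+ (Fin n → ZMod p)) := fun x =>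
    AddMonoidHom.toMultiplicative.symm
      ((e0.symm.toMonoidHom.comp (MulAut.conjNormal (H := A) x).toMonoidHom).comp e0.toMonoidHom)
  have hcj : ∀ (x : E) (v : Fin n → ZMod p), th (Multiplicative.ofAdd (cj x v)) =
      x * th (Multiplicative.ofAdd v) * x⁻¹ := by
    intro x v
    have h1 : Multiplicative.ofAdd (cj x v) =
        e0.symm (MulAut.conjNormal (H := A) x (e0 (Multiplicative.ofAdd v))) := rfl
    rw [h1, hth, e0.apply_symm_apply, hth]
    exact MulAut.conjNormal_apply x (e0 (Multiplicative.ofAdd v))
  have hinj : Function.Injective th := fun v w h => e0.injective (Subtype.ext h)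
  have hinj' : ∀ v w : Fin n → ZMod p, th (Multiplicative.ofAdd v) = th (Multiplicative.ofAdd w) →
      v = w := fun v w h => Multiplicative.ofAdd.injective (hinj h)
  let P0 : E → Matrix (Fin n) (Fin n) (ZMod p) := fun x =>
    LinearMap.toMatrix' (AddMonoidHom.toZModLinearMap p (cj x))
  have hP0 : ∀ x w, (P0 x).mulVec w = cj x w := by
    intro x w
    rw [← Matrix.toLin'_apply, Matrix.toLin'_toMatrix']
    rfl
  have hPext : ∀ P Q : Matrix (Fin n) (Fin n) (ZMod p), (∀ w, P.mulVec w = Q.mulVec w) → P = Q := by
    intro P Q h
    apply Matrix.toLin'.injective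
    apply LinearMap.ext
    intro w
    rw [Matrix.toLin'_apply, Matrix.toLin'_apply, h]
  let X : Ext p n K M E :=
    { th := th
      th_inj := hinj
      pi := (e.symm.toMonoidHom).comp (QuotientGroup.mk' A)
      pi_surj := e.symm.surjective.comp (QuotientGroup.mk'_surjective A)
      ker := by
        intro x
        have h1 : ((e.symm.toMonoidHom).comp (QuotientGroup.mk' A)) x = 1 ↔ x ∈ A := by
          change e.symm ((x : E) : E ⧸ A) = 1 ↔ _
          rw [map_eq_one_iff _ e.symm.injective, QuotientGroup.eq_one_iff]
        rw [h1]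
        constructor
        · intro hx
          refine ⟨Multiplicative.toAdd (e0.symm ⟨x, hx⟩), ?_⟩
          rw [hth, ofAdd_toAdd, e0.apply_symm_apply]
        · rintro ⟨w, rfl⟩
          rw [hth]
          exact (e0 (Multiplicative.ofAdd w)).2
      P :=
        { toFun := P0
          map_one' := by
            apply hPext
            intro w
            rw [hP0, Matrix.one_mulVec]
            apply hinj'
            rw [hcj]
            group
          map_mul' := by
            intro x y
            apply hPext
            intro w
            rw [← Matrix.mulVec_mulVec, hP0, hP0, hP0]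
            apply hinj'
            rw [hcj, hcj, hcj]
            group }
      hP := by
        intro x w
        change x * th (Multiplicative.ofAdd w) * x⁻¹ = th (Multiplicative.ofAdd ((P0 x).mulVec w))
        rw [hP0, hcj] }
  exact X.occurs

/-- A Hilbertian field is infinite. -/
theorem infinite_of_isHilbertian {K : Type u} [Field K] (hK : IsHilbertian K) : Infinite K := by
  classical
  by_contra hfin
  rw [not_infinite_iff_finite] at hfin
  have : Fintype K := Fintype.ofFinite K
  obtain ⟨a, ha, _⟩ := hK Polynomial.X (by rw [Polynomial.map_X]; exact Polynomial.irreducible_X)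
    (by rw [Polynomial.map_X]; exact Polynomial.separable_X)
    (∏ a : K, (Polynomial.X - Polynomial.C a))
    (Finset.prod_ne_zero_iff.mpr fun a _ => Polynomial.X_sub_C_ne_zero a)
  apply ha
  rw [Polynomial.eval_prod]
  exact Finset.prod_eq_zero (Finset.mem_univ a) (by simp)

/-- **Extensions by normal `p`-subgroups.** Over a Hilbertian field of characteristic `p` the
class of groups that occur is closed under extensions by normal `p`-subgroups. -/
theorem occurs_of_isPGroup {K : Type u} [Field K] [CharP K p] (hK : IsHilbertian K) :
    ∀ (k : ℕ) {E : Type} [Group E] [Finite E] (N : Subgroup E) [N.Normal], Nat.card N ≤ k →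
      IsPGroup p N → Occurs (E ⧸ N) K → Occurs E K := by
  have hinf := infinite_of_isHilbertian hK
  intro k
  induction k with
  | zero =>
    intro E _ _ N _ h0 _ _
    exact absurd (Nat.card_pos (α := N)) (by omega)
  | succ k ih =>
    intro E _ _ N hNn hk hN hocc
    rcases subsingleton_or_nontrivial N with hsub | hnt
    · have hbot : N = ⊥ := Subgroup.eq_bot_of_subsingleton N
      subst hbot
      exact occurs_congr QuotientGroup.quotientBot hocc
    · have hZ : Nontrivial (Subgroup.center N) := hN.center_nontrivial
      -- the elements of order dividing `p` in the centre of `N`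
      let A : Subgroup E :=
        { carrier := {a | a ∈ N ∧ (∀ b ∈ N, a * b = b * a) ∧ a ^ p = 1}
          mul_mem' := by
            rintro a b ⟨ha1, ha2, ha3⟩ ⟨hb1, hb2, hb3⟩
            refine ⟨mul_mem ha1 hb1, fun c hc => ?_, ?_⟩
            · rw [mul_assoc, hb2 c hc, ← mul_assoc, ha2 c hc, mul_assoc]
            · rw [Commute.mul_pow (ha2 b hb1), ha3, hb3, one_mul]
          one_mem' := ⟨one_mem _, fun b _ => by rw [one_mul, mul_one], one_pow _⟩
          inv_mem' := by
            rintro a ⟨ha1, ha2, ha3⟩
            refine ⟨inv_mem ha1, fun c hc => ?_, by rw [inv_pow, ha3, inv_one]⟩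
            have := ha2 c hc
            exact (Commute.inv_left (show Commute a c from this)).eq }
      have hAn : A.Normal := by
        constructor
        rintro a ⟨ha1, ha2, ha3⟩ g
        refine ⟨hNn.conj_mem a ha1 g, fun b hb => ?_, ?_⟩
        · have hb' : g⁻¹ * b * g ∈ N := by
            have := hNn.conj_mem b hb g⁻¹
            rwa [inv_inv] at this
          have h1 := ha2 _ hb'
          calc g * a * g⁻¹ * b = g * (a * (g⁻¹ * b * g)) * g⁻¹ := by group
            _ = g * ((g⁻¹ * b * g) * a) * g⁻¹ := by rw [h1]
            _ = b * (g * a * g⁻¹) := by group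
        · rw [conj_pow, ha3]
          group
      have hAN : A ≤ N := fun a ha => ha.1
      have hAcomm : ∀ a ∈ A, ∀ b ∈ A, a * b = b * a := fun a ha b hb => ha.2.1 b hb.1
      have hAexp : ∀ a ∈ A, a ^ p = 1 := fun a ha => ha.2.2
      have hAne : A ≠ ⊥ := by
        have hZp : IsPGroup p (Subgroup.center N) := hN.to_subgroup _
        have hdvd : p ∣ Nat.card (Subgroup.center N) := by
          obtain ⟨m, hm⟩ := (IsPGroup.iff_card (p := p)).mp hZp
          rw [hm]
          apply dvd_pow_self
          rintro rfl
          rw [pow_zero] at hm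
          have := (Nat.card_eq_one_iff_unique.mp hm).1
          exact not_subsingleton _ this
        obtain ⟨z, hz⟩ := exists_prime_orderOf_dvd_card' p hdvd
        intro hbot
        have hzA : ((z : N) : E) ∈ A := by
          refine ⟨(z : N).2, fun b hb => ?_, ?_⟩
          · have := Subgroup.mem_center_iff.mp z.2 ⟨b, hb⟩
            exact (congrArg Subtype.val this).symm
          · have h1 : z ^ p = 1 := by
              rw [← hz]
              exact pow_orderOf_eq_one z
            have h2 := congrArg (fun t : Subgroup.center N => ((t : N) : E)) h1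
            simpa using h2
        rw [hbot, Subgroup.mem_bot] at hzA
        have hz1 : z = 1 := Subtype.ext (Subtype.ext hzA)
        rw [hz1, orderOf_one] at hz
        exact (Fact.out : p.Prime).one_lt.ne hz
      -- the quotient
      have hocc1 : Occurs (E ⧸ A) K := by
        have hnorm : (N.map (QuotientGroup.mk' A)).Normal :=
          Subgroup.Normal.map hNn _ (QuotientGroup.mk'_surjective A)
        apply ih (N.map (QuotientGroup.mk' A))
        · have h1 : Nat.card (N.map (QuotientGroup.mk' A)) < Nat.card N := by
            let f : N →* N.map (QuotientGroup.mk' A) := (QuotientGroup.mk' A).subgroupMap N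
            have hf : Function.Surjective f := (QuotientGroup.mk' A).subgroupMap_surjective N
            apply lt_of_le_of_ne (Nat.card_le_card_of_surjective f hf)
            intro heq
            have hbij : Function.Bijective f :=
              (Nat.bijective_iff_surjective_and_card f).mpr ⟨hf, heq.symm⟩
            apply hAne
            rw [Subgroup.eq_bot_iff_forall]
            intro a ha
            have h2 : f ⟨a, hAN ha⟩ = f 1 := by
              apply Subtype.ext
              change ((a : E) : E ⧸ A) = ((1 : E) : E ⧸ A)
              rw [QuotientGroup.mk_one, QuotientGroup.eq_one_iff]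
              exact ha
            exact congrArg Subtype.val (hbij.1 h2)
          omega
        · exact hN.map (QuotientGroup.mk' A)
        · exact occurs_congr (QuotientGroup.quotientQuotientEquivQuotient A N hAN).symm hocc
      exact occurs_of_isHilbertian hK (occurs_of_elemAbelian A hAcomm hAexp hocc1)

/-- The statement for a single elementary abelian kernel. -/
theorem occurs_of_pKernel (p : ℕ) [Fact p.Prime] (K : Type u) [Field K] [CharP K p] [Infinite K]
    {E : Type} [Group E] [Finite E] (A : Subgroup E) [A.Normal]
    (hcomm : ∀ a ∈ A, ∀ b ∈ A, a * b = b * a) (hp : ∀ a ∈ A, a ^ p = 1)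
    (h : MP7fR.Occurs (E ⧸ A) K) : MP7fR.Occurs E (RatFunc K) :=
  occurs_of_elemAbelian A hcomm hp h

/-- The statement for an arbitrary normal `p`-subgroup over a Hilbertian field. -/
theorem occurs_of_pKernel_hilbertian (p : ℕ) [Fact p.Prime] (K : Type u) [Field K] [CharP K p]
    (hK : IsHilbertian K) {E : Type} [Group E] [Finite E] (N : Subgroup E) [N.Normal]
    (hN : IsPGroup p N) (h : MP7fR.Occurs (E ⧸ N) K) : MP7fR.Occurs E K :=
  occurs_of_isPGroup (p := p) hK (Nat.card N) N le_rfl hN h

end MP7fS
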