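import Pool.Agent.Lib.MP_7f581e_ntR.Defs

/-!
Quotients of occurring groups occur.
-/

set_option autoImplicit false

universe u

namespace MP7fS

open MP7fR

theorem occurs_of_surjective {G H : Type} [Group G] [Group H] {F : Type u} [Field F]
    (hG : Occurs G F) (π : G →* H) (hπ : Function.Surjective π) : Occurs H F := by
  obtain ⟨L, _, _, hfd, hgal, ⟨e⟩⟩ := hG
  let φ : (L ≃ₐ[F] L) →* H := π.comp e.toMonoidHom
  have hφ : Function.Surjective φ := hπ.comp e.surjective
  have hg : IsGalois F (IntermediateField.fixedField φ.ker) :=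
    IsGalois.of_fixedField_normal_subgroup φ.ker
  refine ⟨IntermediateField.fixedField φ.ker, inferInstance, inferInstance, inferInstance, hg, ⟨?_⟩⟩
  exact (IsGalois.normalAutEquivQuotient φ.ker).symm.trans
    (QuotientGroup.quotientKerEquivOfSurjective φ hφ)

end MP7fS
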