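import Pool.Agent.Lib.MP_7f581e_ntS.PslE
import Pool.Agent.Lib.MP_7f581e_ntS.Quot
import Pool.Agent.Lib.MP_7f581e_ntL.WH8
import Pool.Agent.Lib.MP_7f581e_ntL.U12

/-!
Group extensions with kernel a power of `PSL(2,F)` over Hilbertian fields.
-/

set_option autoImplicit false
set_option linter.unusedSectionVars false

universe u

namespace MP7fS

open Matrix MP7fU

/-- The elements of the unitary group have determinant one. -/
def toSL {p k : ℕ} [Fact p.Prime] {F : Type} [Field F] [Algebra (ZMod p) F] :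
    (adjInv p k F).U →* (Fin k → SL2 F) where
  toFun g := fun i => ⟨(g.1.1 : BM k F) i, by
    have h1 : (adjInv p k F).j g.1.1 * g.1.1 = 1 := g.2
    have h2 := congrFun h1 i
    change (g.1.1 i).adjugate * (g.1.1 i) = 1 at h2
    rw [Matrix.adjugate_mul] at h2
    have h3 := congrFun (congrFun h2 0) 0
    simpa using h3⟩
  map_one' := rfl
  map_mul' g h := rfl

theorem inc_toSL {p k : ℕ} [Fact p.Prime] {F : Type} [Field F] [Algebra (ZMod p) F] (g : (adjInv p k F).U) :
    inc (toSL g) = g.1.1 := rfl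

theorem toSL_surj {p k : ℕ} [Fact p.Prime] {F : Type} [Field F] [Algebra (ZMod p) F] (x : Fin k → SL2 F) :
    ∃ g : (adjInv p k F).U, toSL g = x := by
  have h1 : inc x * inc (x⁻¹) = 1 := by
    rw [← inc_mul, mul_inv_cancel]
    rfl
  have h2 : inc (x⁻¹) * inc x = 1 := by
    rw [← inc_mul, inv_mul_cancel]
    rfl
  have h3 : (adjInv p k F).j (inc x) * inc x = 1 := by
    funext i
    change (x i).1.adjugate * (x i).1 = 1
    rw [Matrix.adjugate_mul, (x i).2, one_smul]
  exact ⟨⟨⟨inc x, inc (x⁻¹), h1, h2⟩, h3⟩, rfl⟩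

theorem occurs_of_psl_kernel {p m : ℕ} [Fact p.Prime] {F : Type} [Field F] [Finite F] [CharP F p]
    (hcard : Nat.card F = p ^ m) (hpm : p = 2 ∨ Odd m) (hF : 4 ≤ Nat.card F) {k : ℕ}
    {E : Type} [Group E] [Finite E] (N : Subgroup E) [N.Normal] (θ : N ≃* (Fin k → PSL2 F))
    {K : Type u} [Field K] [CharP K p] (hK : MP7fR.IsHilbertian K)
    (hocc : MP7fR.Occurs (E ⧸ N) K) : MP7fR.Occurs E K := by
  let _ : Algebra (ZMod p) F := ZMod.algebra F p
  obtain ⟨E0, ρ, n, h1, h2, h3, ⟨e⟩⟩ := psl_split hcard hpm hF N θ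
  have hocc0 : MP7fR.Occurs E0 K := occurs_of_surjective hocc e.symm.toMonoidHom e.symm.surjective
  obtain ⟨r, hr⟩ := lang_SL2 (p := p) k hocc0 ρ (fun g b => h1 g b)
  have hcomm : ∀ g : E0, (n.comp (toSL (p := p) (k := k) (F := F))).comp
      (uactU (adjInv p k F) ρ (fun g b => h1 g b) g).toMonoidHom =
      (MulAut.conj (E0.subtype g)).toMonoidHom.comp (n.comp toSL) := by
    intro g
    ext x
    change n (toSL (uactU (adjInv p k F) ρ _ g x)) = g * n (toSL x) * (g : E)⁻¹
    apply h2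
    rw [inc_toSL, inc_toSL]
    exact (coe_uactU (adjInv p k F) ρ (fun g b => h1 g b) g x).symm
  have hfin : Finite ((adjInv p k F).U ⋊[uactU (adjInv p k F) ρ (fun g b => h1 g b)] E0) :=
    Finite.of_equiv _ SemidirectProduct.equivProd.symm
  have hK' := MP7fL.occurs_of_mv_of_isHilbertian hK hr
  refine occurs_of_surjective hK' (SemidirectProduct.lift (n.comp toSL) E0.subtype hcomm) ?_
  intro g
  obtain ⟨x, e0, rfl⟩ := h3 g
  obtain ⟨y, rfl⟩ := toSL_surj (p := p) x
  refine ⟨⟨y, e0⟩, ?_⟩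
  rfl

end MP7fS
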