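import Pool.Agent.Lib.MP_7f581e_ntS.AutPSLC
import Pool.Agent.Lib.MP_7f581e_nt.AutPow

/-!
The automorphisms of powers of `PSL(2,F)` for a finite field `F` with more than three elements.
-/

set_option autoImplicit false
set_option linter.unusedSectionVars false

namespace MP7fS

open Matrix

variable {F : Type*} [Field F]

theorem psl2_simple (hF : 4 ≤ Nat.card F) : IsSimpleGroup (PSL2 F) :=
  Matrix.ProjectiveSpecialLinearGroup.rank_two_simple hF

theorem u_zero : u (0 : F) = 1 := by apply sl_ext <;> simp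

theorem psl2_center (hF : 4 ≤ Nat.card F) : Subgroup.center (PSL2 F) = ⊥ := by
  have := psl2_simple hF
  rcases (inferInstance : (Subgroup.center (PSL2 F)).Normal).eq_bot_or_eq_top with h | h
  · exact h
  · exfalso
    have h1 : mk (l (1 : F)) * mk (u 1) = mk (u 1) * mk (l 1) := by
      have h2 : mk (u (1 : F)) ∈ Subgroup.center (PSL2 F) := by
        rw [h]
        exact Subgroup.mem_top _
      exact (Subgroup.mem_center_iff.mp h2) _
    obtain ⟨y, hy⟩ := centralizer_u h1
    rcases mk_eq_cases hy with ⟨_, _, h10, _⟩ | ⟨_, _, h10, _⟩ <;> simp at h10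

/-- Automorphisms of powers of `PSL(2,F)`. -/
theorem aut_psl2_pow [Finite F] (hF : 4 ≤ Nat.card F) {κ : Type*} [Finite κ]
    (ψ : (κ → PSL2 F) ≃* (κ → PSL2 F)) :
    ∃ (π : Equiv.Perm κ) (g : κ → GL (Fin 2) F) (σ : κ → (F ≃+* F)),
      ∀ (x : κ → SL2 F) (j : κ), ψ (fun i => mk (x i)) (π j) = mk (cj (g j) (σ j) (x j)) := by
  classical
  have := psl2_simple hF
  obtain ⟨π, φ, hφ⟩ := Pool.Agent.Lib.MP_7f581e_nt.AutAlt.aut_pi (psl2_center hF) ψ
  choose g σ h using fun j => aut_psl2 (φ j)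
  refine ⟨π, g, σ, fun x j => ?_⟩
  rw [hφ, h]

/-- Uniqueness for a single factor. -/
theorem cj_unique {g g' : GL (Fin 2) F} {σ σ' : F ≃+* F}
    (h : ∀ A : SL2 F, mk (cj g σ A) = mk (cj g' σ' A)) :
    σ = σ' ∧ ∃ c : Fˣ, ∀ i j, g.1 i j = c * g'.1 i j := by
  -- the quotient matrix
  set m : Matrix (Fin 2) (Fin 2) F := (g'⁻¹).1 * g.1 with hm
  have hg : g.1 = g'.1 * m := by
    rw [hm, ← mul_assoc]
    have : g'.1 * (g'⁻¹).1 = 1 := g'.mul_inv
    rw [this, one_mul]
  have hdet : m.det ≠ 0 := by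
    rw [hm, Matrix.det_mul]
    have h1 : IsUnit ((g'⁻¹).1).det := (Matrix.isUnit_iff_isUnit_det _).mp (g'⁻¹).isUnit
    have h2 : IsUnit (g.1).det := (Matrix.isUnit_iff_isUnit_det _).mp g.isUnit
    exact mul_ne_zero h1.ne_zero h2.ne_zero
  -- the relation
  have hrel : ∀ A : SL2 F, (∀ i j, (m * A.1.map σ) i j = (A.1.map σ' * m) i j) ∨
      (∀ i j, (m * A.1.map σ) i j = -(A.1.map σ' * m) i j) := by
    intro A
    have h3 : (g⁻¹).1 * g.1 = 1 := g.inv_mul
    have h4 : (g'⁻¹).1 * g'.1 = 1 := g'.inv_mul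
    rcases mk_eq_iff.mp (h A) with h5 | h5
    · left
      have h6 : g.1 * (A.1.map σ) * (g⁻¹).1 = g'.1 * (A.1.map σ') * (g'⁻¹).1 := Matrix.ext h5
      have h7 : m * A.1.map σ = A.1.map σ' * m := by
        calc m * A.1.map σ = (g'⁻¹).1 * g.1 * A.1.map σ * ((g⁻¹).1 * g.1) := by rw [h3, mul_one]
          _ = (g'⁻¹).1 * (g.1 * A.1.map σ * (g⁻¹).1) * g.1 := by noncomm_ring
          _ = (g'⁻¹).1 * (g'.1 * (A.1.map σ') * (g'⁻¹).1) * g.1 := by rw [h6]
          _ = ((g'⁻¹).1 * g'.1) * A.1.map σ' * ((g'⁻¹).1 * g.1) := by noncomm_ring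
          _ = A.1.map σ' * m := by rw [h4, one_mul]
      intro i j
      rw [h7]
    · right
      have h6 : g.1 * (A.1.map σ) * (g⁻¹).1 = -(g'.1 * (A.1.map σ') * (g'⁻¹).1) := Matrix.ext h5
      have h7 : m * A.1.map σ = -(A.1.map σ' * m) := by
        calc m * A.1.map σ = (g'⁻¹).1 * g.1 * A.1.map σ * ((g⁻¹).1 * g.1) := by rw [h3, mul_one]
          _ = (g'⁻¹).1 * (g.1 * A.1.map σ * (g⁻¹).1) * g.1 := by noncomm_ring
          _ = (g'⁻¹).1 * (-(g'.1 * (A.1.map σ') * (g'⁻¹).1)) * g.1 := by rw [h6]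
          _ = -(((g'⁻¹).1 * g'.1) * A.1.map σ' * ((g'⁻¹).1 * g.1)) := by noncomm_ring
          _ = -(A.1.map σ' * m) := by rw [h4, one_mul]
      intro i j
      rw [h7, Matrix.neg_apply]
  rw [Matrix.det_fin_two] at hdet
  have hu : ∀ x : F, m 1 0 = 0 ∨ σ' x = 0 := by
    intro x
    rcases hrel (u x) with h5 | h5
    · have h6 := h5 0 0
      simp [Matrix.mul_apply, Fin.sum_univ_two, u] at h6
      rcases h6 with h6 | h6
      · right
        rw [h6, map_zero]
      · left
        exact h6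
    · by_cases h2F : (2 : F) = 0
      · have h6 := h5 0 0
        simp [Matrix.mul_apply, Fin.sum_univ_two, u] at h6
        have h7 : σ' x * m 1 0 = 0 := by linear_combination h6 - (m 0 0) * h2F
        rcases mul_eq_zero.mp h7 with h8 | h8
        · exact Or.inr h8
        · exact Or.inl h8
      · left
        have h6 := h5 1 0
        simp [Matrix.mul_apply, Fin.sum_univ_two, u] at h6
        have : (2 : F) * m 1 0 = 0 := by linear_combination h6
        exact (mul_eq_zero.mp this).resolve_left h2F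
  have hc : m 1 0 = 0 := by
    rcases hu 1 with h5 | h5
    · exact h5
    · rw [map_one] at h5
      exact absurd h5 one_ne_zero
  have ha : m 0 0 ≠ 0 ∧ m 1 1 ≠ 0 := by
    rw [hc, mul_zero, sub_zero] at hdet
    exact ⟨left_ne_zero_of_mul hdet, right_ne_zero_of_mul hdet⟩
  -- no sign
  have hpos : ∀ A : SL2 F, A.1 0 0 = 1 → A.1 1 1 = 1 → A.1 0 1 = 0 ∨ A.1 1 0 = 0 →
      (∀ i j, (m * A.1.map σ) i j = (A.1.map σ' * m) i j) := by
    intro A hA0 hA1 hA2
    rcases hrel A with h5 | h5
    · exact h5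
    · by_cases h2F : (2 : F) = 0
      · intro i j
        rw [h5 i j]
        linear_combination (-(A.1.map σ' * m) i j) * h2F
      · exfalso
        rcases hA2 with hA2 | hA2
        · have h6 := h5 0 1
          have h7 := h5 0 0
          have h8 := h5 1 1
          simp [Matrix.mul_apply, Fin.sum_univ_two, hA0, hA1, hA2, hc] at h6 h7 h8
          have h9 : (2 : F) * m 0 1 = 0 := by linear_combination h6
          have h10 := (mul_eq_zero.mp h9).resolve_left h2F
          rw [h10, zero_mul, add_zero] at h7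
          have h11 : (2 : F) * m 0 0 = 0 := by linear_combination h7
          exact ha.1 ((mul_eq_zero.mp h11).resolve_left h2F)
        · have h7 := h5 0 0
          simp [Matrix.mul_apply, Fin.sum_univ_two, hA0, hA1, hA2, hc] at h7
          have h11 : (2 : F) * m 0 0 = 0 := by linear_combination h7
          exact ha.1 ((mul_eq_zero.mp h11).resolve_left h2F)
  have hu1 : ∀ x, m 0 0 * σ x = σ' x * m 1 1 := by
    intro x
    have h6 := hpos (u x) rfl rfl (Or.inr rfl) 0 1
    simp [Matrix.mul_apply, Fin.sum_univ_two, u] at h6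
    linear_combination h6
  have had : m 0 0 = m 1 1 := by
    have := hu1 1
    rwa [map_one, map_one, mul_one, one_mul] at this
  have hb : m 0 1 = 0 := by
    have h6 := hpos (l 1) rfl rfl (Or.inl rfl) 0 0
    simp [Matrix.mul_apply, Fin.sum_univ_two, l] at h6
    exact h6
  refine ⟨?_, Units.mk0 (m 0 0) ha.1, ?_⟩
  · ext x
    have := hu1 x
    rw [← had] at this
    exact mul_left_cancel₀ ha.1 (by linear_combination this)
  · intro i j
    rw [hg, Matrix.mul_apply, Fin.sum_univ_two]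
    fin_cases j
    · simp [hc]
      ring
    · simp [hb, ← had]
      ring

end MP7fS
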