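import Mathlib

/-!
The automorphisms of `PSL(2,F)` for a finite field `F`: every automorphism is induced by a matrix
in `GL(2,F)` and a field automorphism.
-/

set_option autoImplicit false
set_option linter.unusedSectionVars false

namespace MP7fS

open Matrix

variable {F : Type*} [Field F]

/-- `SL(2,F)`. -/
abbrev SL2 (F : Type*) [Field F] : Type _ := Matrix.SpecialLinearGroup (Fin 2) F

/-- `PSL(2,F)`. -/
abbrev PSL2 (F : Type*) [Field F] : Type _ := SL2 F ⧸ Subgroup.center (SL2 F)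

/-- The class of a matrix. -/
def mk (A : SL2 F) : PSL2 F := QuotientGroup.mk A

theorem mk_mul (A B : SL2 F) : mk (A * B) = mk A * mk B := rfl

theorem mk_one : mk (1 : SL2 F) = 1 := rfl

theorem mk_inv (A : SL2 F) : mk A⁻¹ = (mk A)⁻¹ := rfl

theorem mk_surj (x : PSL2 F) : ∃ A, mk A = x := QuotientGroup.mk_surjective x

theorem mk_eq_iff {A B : SL2 F} : mk A = mk B ↔
    (∀ i j, A.1 i j = B.1 i j) ∨ (∀ i j, A.1 i j = - B.1 i j) := by
  rw [mk, mk, QuotientGroup.eq, Matrix.SpecialLinearGroup.mem_center_iff]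
  constructor
  · rintro ⟨r, hr, h⟩
    have hr' : r * r = 1 := by
      rw [Fintype.card_fin] at hr
      rw [← hr]
      ring
    have hB : (B : Matrix (Fin 2) (Fin 2) F) = r • (A : Matrix (Fin 2) (Fin 2) F) := by
      have h1 : B = A * (A⁻¹ * B) := by group
      have h2 := congrArg (fun M : SL2 F => (M : Matrix (Fin 2) (Fin 2) F)) h1
      simp only [Matrix.SpecialLinearGroup.coe_mul A] at h2
      rw [h2, ← h]
      ext i j
      simp [Matrix.scalar_apply, Matrix.mul_diagonal, mul_comm]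
    rcases mul_self_eq_one_iff.mp hr' with rfl | rfl
    · left
      intro i j
      have := congrFun (congrFun hB i) j
      simp at this
      exact this.symm
    · right
      intro i j
      have := congrFun (congrFun hB i) j
      simp at this
      rw [this]
      ring
  · rintro (h | h)
    · have hAB : A = B := Subtype.ext (Matrix.ext h)
      subst hAB
      refine ⟨1, by simp, ?_⟩
      rw [inv_mul_cancel]
      simp
    · refine ⟨-1, by simp, ?_⟩
      have h1 : (B : Matrix (Fin 2) (Fin 2) F) = -(A : Matrix (Fin 2) (Fin 2) F) := by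
        ext i j
        rw [Matrix.neg_apply, h, neg_neg]
      have h2 : ((A⁻¹ * B : SL2 F) : Matrix (Fin 2) (Fin 2) F) = -((A⁻¹ * A : SL2 F) : _) := by
        rw [Matrix.SpecialLinearGroup.coe_mul, Matrix.SpecialLinearGroup.coe_mul, h1,
          Matrix.mul_neg]
      rw [h2, inv_mul_cancel]
      ext i j
      fin_cases i <;> fin_cases j <;> simp

/-- Upper unipotent matrices. -/
def u (x : F) : SL2 F := ⟨!![1, x; 0, 1], by simp⟩

/-- Lower unipotent matrices. -/
def l (x : F) : SL2 F := ⟨!![1, 0; x, 1], by simp⟩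

theorem sl_ext {A B : SL2 F} (h00 : A.1 0 0 = B.1 0 0) (h01 : A.1 0 1 = B.1 0 1)
    (h10 : A.1 1 0 = B.1 1 0) (h11 : A.1 1 1 = B.1 1 1) : A = B := by
  apply Subtype.ext
  ext i j
  fin_cases i <;> fin_cases j <;> assumption

theorem mul00 (A B : SL2 F) : (A * B).1 0 0 = A.1 0 0 * B.1 0 0 + A.1 0 1 * B.1 1 0 := by
  simp [Matrix.mul_apply, Fin.sum_univ_two]
theorem mul01 (A B : SL2 F) : (A * B).1 0 1 = A.1 0 0 * B.1 0 1 + A.1 0 1 * B.1 1 1 := by
  simp [Matrix.mul_apply, Fin.sum_univ_two]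
theorem mul10 (A B : SL2 F) : (A * B).1 1 0 = A.1 1 0 * B.1 0 0 + A.1 1 1 * B.1 1 0 := by
  simp [Matrix.mul_apply, Fin.sum_univ_two]
theorem mul11 (A B : SL2 F) : (A * B).1 1 1 = A.1 1 0 * B.1 0 1 + A.1 1 1 * B.1 1 1 := by
  simp [Matrix.mul_apply, Fin.sum_univ_two]

theorem det_eq (A : SL2 F) : A.1 0 0 * A.1 1 1 - A.1 0 1 * A.1 1 0 = 1 := by
  have := A.2
  rw [Matrix.det_fin_two] at this
  exact this

@[simp] theorem u00 (x : F) : (u x).1 0 0 = 1 := rfl
@[simp] theorem u01 (x : F) : (u x).1 0 1 = x := rfl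
@[simp] theorem u10 (x : F) : (u x).1 1 0 = 0 := rfl
@[simp] theorem u11 (x : F) : (u x).1 1 1 = 1 := rfl
@[simp] theorem l00 (x : F) : (l x).1 0 0 = 1 := rfl
@[simp] theorem l01 (x : F) : (l x).1 0 1 = 0 := rfl
@[simp] theorem l10 (x : F) : (l x).1 1 0 = x := rfl
@[simp] theorem l11 (x : F) : (l x).1 1 1 = 1 := rfl

theorem u_add (x y : F) : u (x + y) = u x * u y := by
  apply sl_ext <;> simp only [mul00, mul01, mul10, mul11, u00, u01, u10, u11] <;> ring

theorem l_add (x y : F) : l (x + y) = l x * l y := by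
  apply sl_ext <;> simp only [mul00, mul01, mul10, mul11, l00, l01, l10, l11] <;> ring

theorem mk_eq_cases {A B : SL2 F} (h : mk A = mk B) :
    (A.1 0 0 = B.1 0 0 ∧ A.1 0 1 = B.1 0 1 ∧ A.1 1 0 = B.1 1 0 ∧ A.1 1 1 = B.1 1 1) ∨
    (A.1 0 0 = -B.1 0 0 ∧ A.1 0 1 = -B.1 0 1 ∧ A.1 1 0 = -B.1 1 0 ∧ A.1 1 1 = -B.1 1 1) := by
  rcases mk_eq_iff.mp h with h | h
  · exact Or.inl ⟨h _ _, h _ _, h _ _, h _ _⟩
  · exact Or.inr ⟨h _ _, h _ _, h _ _, h _ _⟩

theorem mk_eq_of {A B : SL2 F}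
    (h : (A.1 0 0 = B.1 0 0 ∧ A.1 0 1 = B.1 0 1 ∧ A.1 1 0 = B.1 1 0 ∧ A.1 1 1 = B.1 1 1) ∨
    (A.1 0 0 = -B.1 0 0 ∧ A.1 0 1 = -B.1 0 1 ∧ A.1 1 0 = -B.1 1 0 ∧ A.1 1 1 = -B.1 1 1)) :
    mk A = mk B := by
  rw [mk_eq_iff]
  rcases h with ⟨h1, h2, h3, h4⟩ | ⟨h1, h2, h3, h4⟩
  · left
    intro i j
    fin_cases i <;> fin_cases j <;> assumption
  · right
    intro i j
    fin_cases i <;> fin_cases j <;> assumption

theorem mk_u_inj {x y : F} (h : mk (u x) = mk (u y)) : x = y := by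
  rcases mk_eq_cases h with ⟨_, h2, _, _⟩ | ⟨h1, h2, _, _⟩
  · simpa using h2
  · simp only [u00, u01] at h1 h2
    linear_combination h2 - y * h1

theorem mk_l_inj {x y : F} (h : mk (l x) = mk (l y)) : x = y := by
  rcases mk_eq_cases h with ⟨_, _, h2, _⟩ | ⟨h1, _, h2, _⟩
  · simpa using h2
  · simp only [l00, l10] at h1 h2
    linear_combination h2 - y * h1

/-- The centralizer of `u 1`. -/
theorem centralizer_u {A : SL2 F} (h : mk A * mk (u 1) = mk (u 1) * mk A) :
    ∃ y, mk A = mk (u y) := by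
  rw [← mk_mul, ← mk_mul] at h
  have hd := det_eq A
  rcases mk_eq_cases h with ⟨h1, h2, h3, h4⟩ | ⟨h1, h2, h3, h4⟩ <;>
    simp only [mul00, mul01, mul10, mul11, u00, u01, u10, u11] at h1 h2 h3 h4
  · have hc : A.1 1 0 = 0 := by linear_combination -h1
    have ha : A.1 0 0 = A.1 1 1 := by linear_combination h2
    have ha2 : A.1 1 1 * A.1 1 1 = 1 := by
      rw [ha, hc] at hd
      linear_combination hd
    rcases mul_self_eq_one_iff.mp ha2 with h5 | h5
    · refine ⟨A.1 0 1, mk_eq_of (Or.inl ⟨?_, ?_, ?_, ?_⟩)⟩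
      · rw [ha, h5, u00]
      · rw [u01]
      · rw [hc, u10]
      · rw [h5, u11]
    · refine ⟨-A.1 0 1, mk_eq_of (Or.inr ⟨?_, ?_, ?_, ?_⟩)⟩
      · rw [ha, h5, u00]
      · rw [u01, neg_neg]
      · rw [hc, u10, neg_zero]
      · rw [h5, u11]
  · by_cases h2F : (2 : F) = 0
    · have hc : A.1 1 0 = 0 := by linear_combination h1 - A.1 0 0 * h2F
      have ha : A.1 0 0 = A.1 1 1 := by
        linear_combination h2 + (-A.1 0 1 - A.1 1 1) * h2F
      have ha2 : A.1 1 1 * A.1 1 1 = 1 := by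
        rw [ha, hc] at hd
        linear_combination hd
      rcases mul_self_eq_one_iff.mp ha2 with h5 | h5
      · refine ⟨A.1 0 1, mk_eq_of (Or.inl ⟨?_, ?_, ?_, ?_⟩)⟩
        · rw [ha, h5, u00]
        · rw [u01]
        · rw [hc, u10]
        · rw [h5, u11]
      · refine ⟨-A.1 0 1, mk_eq_of (Or.inr ⟨?_, ?_, ?_, ?_⟩)⟩
        · rw [ha, h5, u00]
        · rw [u01, neg_neg]
        · rw [hc, u10, neg_zero]
        · rw [h5, u11]
    · exfalso
      have hc : A.1 1 0 = 0 := by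
        have : (2 : F) * A.1 1 0 = 0 := by linear_combination h3
        exact (mul_eq_zero.mp this).resolve_left h2F
      have ha : A.1 0 0 = 0 := by
        have : (2 : F) * A.1 0 0 = 0 := by linear_combination h1 - hc
        exact (mul_eq_zero.mp this).resolve_left h2F
      rw [hc, ha] at hd
      norm_num at hd

/-- The centralizer of `l t`, `t ≠ 0`. -/
theorem centralizer_l {A : SL2 F} {t : F} (ht : t ≠ 0) (h : mk A * mk (l t) = mk (l t) * mk A) :
    ∃ y, mk A = mk (l y) := by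
  rw [← mk_mul, ← mk_mul] at h
  have hd := det_eq A
  have key : A.1 0 1 = 0 ∧ A.1 0 0 = A.1 1 1 := by
    rcases mk_eq_cases h with ⟨h1, h2, h3, h4⟩ | ⟨h1, h2, h3, h4⟩ <;>
      simp only [mul00, mul01, mul10, mul11, l00, l01, l10, l11] at h1 h2 h3 h4
    · refine ⟨?_, ?_⟩
      · have : A.1 0 1 * t = 0 := by linear_combination h1
        exact (mul_eq_zero.mp this).resolve_right ht
      · have : (A.1 0 0 - A.1 1 1) * t = 0 := by linear_combination -h3
        exact sub_eq_zero.mp ((mul_eq_zero.mp this).resolve_right ht)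
    · by_cases h2F : (2 : F) = 0
      · refine ⟨?_, ?_⟩
        · have : A.1 0 1 * t = 0 := by linear_combination h1 - A.1 0 0 * h2F
          exact (mul_eq_zero.mp this).resolve_right ht
        · have : (A.1 0 0 - A.1 1 1) * t = 0 := by
            linear_combination h3 - (A.1 1 0 + A.1 1 1 * t) * h2F
          exact sub_eq_zero.mp ((mul_eq_zero.mp this).resolve_right ht)
      · exfalso
        have hc : A.1 0 1 = 0 := by
          have : (2 : F) * A.1 0 1 = 0 := by linear_combination h2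
          exact (mul_eq_zero.mp this).resolve_left h2F
        have ha : A.1 0 0 = 0 := by
          have : (2 : F) * A.1 0 0 = 0 := by linear_combination h1 - t * hc
          exact (mul_eq_zero.mp this).resolve_left h2F
        rw [hc, ha] at hd
        norm_num at hd
  obtain ⟨hc, ha⟩ := key
  have ha2 : A.1 1 1 * A.1 1 1 = 1 := by
    rw [ha, hc] at hd
    linear_combination hd
  rcases mul_self_eq_one_iff.mp ha2 with h5 | h5
  · refine ⟨A.1 1 0, mk_eq_of (Or.inl ⟨?_, ?_, ?_, ?_⟩)⟩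
    · rw [ha, h5, l00]
    · rw [hc, l01]
    · rw [l10]
    · rw [h5, l11]
  · refine ⟨-A.1 1 0, mk_eq_of (Or.inr ⟨?_, ?_, ?_, ?_⟩)⟩
    · rw [ha, h5, l00]
    · rw [hc, l01, neg_zero]
    · rw [l10, neg_neg]
    · rw [h5, l11]

/-- Conjugation by `g` after a field automorphism. -/
def cj (g : GL (Fin 2) F) (σ : F ≃+* F) : SL2 F →* SL2 F where
  toFun A := ⟨g.1 * (A.1.map σ) * (g⁻¹).1, by
    rw [Matrix.det_mul, Matrix.det_mul, mul_comm, ← mul_assoc, ← Matrix.det_mul]
    have h1 : (g⁻¹).1 * g.1 = 1 := g.inv_mul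
    have h2 : (A.1.map σ).det = 1 := by
      have := σ.toRingHom.map_det A.1
      rw [A.2, map_one] at this
      exact this.symm
    rw [h1, h2, Matrix.det_one, one_mul]⟩
  map_one' := by
    apply Subtype.ext
    change g.1 * ((1 : Matrix (Fin 2) (Fin 2) F).map σ) * (g⁻¹).1 = 1
    rw [Matrix.map_one _ (map_zero σ) (map_one σ), mul_one]
    exact g.mul_inv
  map_mul' A B := by
    apply Subtype.ext
    change g.1 * ((A.1 * B.1).map σ) * (g⁻¹).1 =
      (g.1 * (A.1.map σ) * (g⁻¹).1) * (g.1 * (B.1.map σ) * (g⁻¹).1)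
    have h1 : (g⁻¹).1 * g.1 = 1 := g.inv_mul
    have h2 : (A.1 * B.1).map σ = A.1.map σ * B.1.map σ := Matrix.map_mul
    rw [h2]
    calc g.1 * (A.1.map σ * B.1.map σ) * (g⁻¹).1
        = g.1 * A.1.map σ * 1 * B.1.map σ * (g⁻¹).1 := by rw [mul_one]; noncomm_ring
      _ = g.1 * A.1.map σ * ((g⁻¹).1 * g.1) * B.1.map σ * (g⁻¹).1 := by rw [h1]
      _ = _ := by noncomm_ring

theorem cj_coe (g : GL (Fin 2) F) (σ : F ≃+* F) (A : SL2 F) :
    (cj g σ A : Matrix (Fin 2) (Fin 2) F) = g.1 * (A.1.map σ) * (g⁻¹).1 := rfl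

theorem cj_cj (g h : GL (Fin 2) F) (σ : F ≃+* F) (A : SL2 F) :
    cj g (RingEquiv.refl F) (cj h σ A) = cj (g * h) σ A := by
  apply Subtype.ext
  rw [cj_coe, cj_coe, cj_coe]
  have h1 : ((g * h)⁻¹).1 = (h⁻¹).1 * (g⁻¹).1 := by
    rw [_root_.mul_inv_rev]
    rfl
  have h2 : ∀ M : Matrix (Fin 2) (Fin 2) F, M.map (RingEquiv.refl F) = M := fun M => by
    ext i j
    rfl
  rw [h1, h2]
  change _ = g.1 * h.1 * _ * _
  noncomm_ring

theorem cj_refl_one (A : SL2 F) : cj (1 : GL (Fin 2) F) (RingEquiv.refl F) A = A := by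
  apply Subtype.ext
  rw [cj_coe]
  have h2 : A.1.map (RingEquiv.refl F) = A.1 := by
    ext i j
    rfl
  rw [h2, inv_one]
  change (1 : Matrix (Fin 2) (Fin 2) F) * A.1 * 1 = A.1
  rw [one_mul, mul_one]

/-- Conjugation by `g` is well defined on `PSL(2,F)`. -/
theorem mk_cj_congr (g : GL (Fin 2) F) (σ : F ≃+* F) {A B : SL2 F} (h : mk A = mk B) :
    mk (cj g σ A) = mk (cj g σ B) := by
  rcases mk_eq_iff.mp h with h | h
  · have : A = B := Subtype.ext (Matrix.ext h)
    rw [this]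
  · have h1 : A.1.map σ = -(B.1.map σ) := by
      ext i j
      simp [h i j]
    apply mk_eq_iff.mpr
    right
    intro i j
    have h2 : (cj g σ A).1 = -(cj g σ B).1 := by
      change g.1 * (A.1.map σ) * (g⁻¹).1 = -(g.1 * (B.1.map σ) * (g⁻¹).1)
      rw [h1, Matrix.mul_neg, Matrix.neg_mul]
    rw [h2, Matrix.neg_apply]

/-- Conjugation by `g` as an automorphism of `PSL(2,F)`. -/
def cjP (g : GL (Fin 2) F) : PSL2 F ≃* PSL2 F where
  toFun := Quotient.lift (fun A => mk (cj g (RingEquiv.refl F) A)) (fun A B h =>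
    mk_cj_congr g _ (Quotient.sound h))
  invFun := Quotient.lift (fun A => mk (cj g⁻¹ (RingEquiv.refl F) A)) (fun A B h =>
    mk_cj_congr g⁻¹ _ (Quotient.sound h))
  left_inv := by
    intro x
    obtain ⟨A, rfl⟩ := mk_surj x
    change mk (cj g⁻¹ _ (cj g _ A)) = mk A
    rw [cj_cj, inv_mul_cancel, cj_refl_one]
  right_inv := by
    intro x
    obtain ⟨A, rfl⟩ := mk_surj x
    change mk (cj g _ (cj g⁻¹ _ A)) = mk A
    rw [cj_cj, mul_inv_cancel, cj_refl_one]
  map_mul' := by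
    intro x y
    obtain ⟨A, rfl⟩ := mk_surj x
    obtain ⟨B, rfl⟩ := mk_surj y
    change mk (cj g _ (A * B)) = mk (cj g _ A) * mk (cj g _ B)
    rw [map_mul, mk_mul]

theorem cjP_mk (g : GL (Fin 2) F) (A : SL2 F) :
    cjP g (mk A) = mk (cj g (RingEquiv.refl F) A) := rfl

end MP7fS
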