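import Pool.Agent.Lib.MP_7f581e_ntS.AutPSL

/-!
The automorphisms of `PSL(2,F)` for a finite field `F`: the proof.
-/

set_option autoImplicit false
set_option linter.unusedSectionVars false

namespace MP7fS

open Matrix

variable {F : Type*} [Field F]

theorem u_pow (x : F) (k : ℕ) : (u x) ^ k = u (k * x) := by
  induction k with
  | zero =>
    rw [pow_zero]
    apply sl_ext <;> simp
  | succ k ih =>
    rw [pow_succ, ih, ← u_add]
    congr 1
    push_cast
    ring

theorem l_pow (x : F) (k : ℕ) : (l x) ^ k = l (k * x) := by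
  induction k with
  | zero =>
    rw [pow_zero]
    apply sl_ext <;> simp
  | succ k ih =>
    rw [pow_succ, ih, ← l_add]
    congr 1
    push_cast
    ring

theorem mk_pow (A : SL2 F) (k : ℕ) : mk (A ^ k) = mk A ^ k := rfl

/-- An element of order `p` is represented by a nontrivial unipotent matrix. -/
theorem exists_unipotent {p : ℕ} [hp : Fact p.Prime] [CharP F p] {x : PSL2 F} (hx : x ^ p = 1)
    (hx1 : x ≠ 1) : ∃ A : SL2 F, mk A = x ∧ A.1 0 0 + A.1 1 1 = 2 ∧ A ≠ 1 := by
  obtain ⟨B, rfl⟩ := mk_surj x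
  have h1 : ∃ A : SL2 F, mk A = mk B ∧ A ^ p = 1 := by
    have h2 : mk (B ^ p) = mk 1 := by rw [mk_pow, hx, mk_one]
    rcases mk_eq_iff.mp h2 with h | h
    · exact ⟨B, rfl, Subtype.ext (Matrix.ext h)⟩
    · rcases hp.out.eq_two_or_odd' with h2 | hodd
      · subst h2
        refine ⟨B, rfl, ?_⟩
        have h3 : (2 : F) = 0 := by exact_mod_cast CharP.cast_eq_zero F 2
        have h4 : ∀ a : F, -a = a := fun a => by linear_combination (-a) * h3
        apply Subtype.ext
        ext i j
        rw [h i j, h4]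
      · refine ⟨-B, ?_, ?_⟩
        · apply mk_eq_iff.mpr
          right
          intro i j
          simp
        · have h5 : (-B) ^ p = -(B ^ p) := by
            apply Subtype.ext
            have := hodd.neg_pow (B : Matrix (Fin 2) (Fin 2) F)
            simpa using this
          rw [h5]
          apply Subtype.ext
          ext i j
          have := h i j
          simp only [Matrix.SpecialLinearGroup.coe_neg, Matrix.neg_apply]
          rw [this, neg_neg]
  obtain ⟨A, hA, hAp⟩ := h1
  refine ⟨A, hA, ?_, ?_⟩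
  · have h6 : (A.1 - 1) ^ p = 0 := by
      rw [sub_pow_char_of_commute p (Commute.one_right _), one_pow]
      have := congrArg (fun M : SL2 F => (M : Matrix (Fin 2) (Fin 2) F)) hAp
      simp only [Matrix.SpecialLinearGroup.coe_pow, Matrix.SpecialLinearGroup.coe_one] at this
      rw [this, sub_self]
    have h7 : IsNilpotent (A.1 - 1).trace :=
      Matrix.isNilpotent_trace_of_isNilpotent ⟨p, h6⟩
    have h8 := h7.eq_zero
    rw [Matrix.trace_sub, Matrix.trace_fin_two, Matrix.trace_one, Fintype.card_fin] at h8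
    push_cast at h8
    linear_combination h8
  · rintro rfl
    exact hx1 (by rw [← hA, mk_one])

theorem u_one_ne : mk (u (1 : F)) ≠ 1 := by
  intro h
  have h1 : u (0 : F) = 1 := by apply sl_ext <;> simp
  rw [← mk_one, ← h1] at h
  exact one_ne_zero (mk_u_inj h)

theorem l_one_ne : mk (l (1 : F)) ≠ 1 := by
  intro h
  have h1 : l (0 : F) = 1 := by apply sl_ext <;> simp
  rw [← mk_one, ← h1] at h
  exact one_ne_zero (mk_l_inj h)

theorem u_pow_char {p : ℕ} [CharP F p] (x : F) : mk (u x) ^ p = 1 := by
  rw [← mk_pow, u_pow, CharP.cast_eq_zero, zero_mul]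
  have h1 : u (0 : F) = 1 := by apply sl_ext <;> simp
  rw [h1, mk_one]

theorem l_pow_char {p : ℕ} [CharP F p] (x : F) : mk (l x) ^ p = 1 := by
  rw [← mk_pow, l_pow, CharP.cast_eq_zero, zero_mul]
  have h1 : l (0 : F) = 1 := by apply sl_ext <;> simp
  rw [h1, mk_one]

/-- A unipotent element is conjugate to `u 1`. -/
theorem exists_conj {A : SL2 F} (ht : A.1 0 0 + A.1 1 1 = 2) (hA : A ≠ 1) :
    ∃ g : GL (Fin 2) F, cj g (RingEquiv.refl F) A = u 1 := by
  have hd := det_eq A
  -- it suffices to find an invertible `M` with `A M = M u(1)`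
  suffices h : ∃ M : Matrix (Fin 2) (Fin 2) F, M.det ≠ 0 ∧ A.1 * M = M * (u (1 : F)).1 by
    obtain ⟨M, hM, hAM⟩ := h
    let g : GL (Fin 2) F := Matrix.GeneralLinearGroup.mkOfDetNeZero M hM
    refine ⟨g⁻¹, ?_⟩
    apply Subtype.ext
    rw [cj_coe, inv_inv]
    have h2 : A.1.map (RingEquiv.refl F) = A.1 := by
      ext i j
      rfl
    have h3 : g.1 = M := rfl
    have h4 : (g⁻¹).1 * g.1 = 1 := g.inv_mul
    rw [h2, h3, mul_assoc, hAM, ← h3, ← mul_assoc, h4, one_mul]
  by_cases hc : A.1 1 0 = 0
  · have hb : A.1 0 1 ≠ 0 := by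
      intro hb
      apply hA
      rw [hc, mul_zero, sub_zero] at hd
      have h5 : (A.1 0 0 - 1) * (A.1 0 0 - 1) = 0 := by
        linear_combination A.1 0 0 * ht - hd
      have h6 : A.1 0 0 = 1 := sub_eq_zero.mp (mul_self_eq_zero.mp h5)
      apply sl_ext
      · simpa using h6
      · simpa using hb
      · simpa using hc
      · rw [h6] at ht
        have : A.1 1 1 = 1 := by linear_combination ht
        simpa using this
    rw [hc, mul_zero, sub_zero] at hd
    have h5 : (A.1 0 0 - 1) * (A.1 0 0 - 1) = 0 := by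
      linear_combination A.1 0 0 * ht - hd
    have h6 : A.1 0 0 = 1 := sub_eq_zero.mp (mul_self_eq_zero.mp h5)
    have h7 : A.1 1 1 = 1 := by linear_combination ht - h6
    refine ⟨!![A.1 0 1, 0; 0, 1], ?_, ?_⟩
    · rw [Matrix.det_fin_two_of]
      simpa using hb
    · ext i j
      fin_cases i <;> fin_cases j <;>
        simp [Matrix.mul_apply, Fin.sum_univ_two, u, hc, h6, h7]
  · refine ⟨!![A.1 0 0 - 1, 1; A.1 1 0, 0], ?_, ?_⟩
    · rw [Matrix.det_fin_two_of]
      intro h
      apply hc
      linear_combination -h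
    · ext i j
      fin_cases i <;> fin_cases j <;>
        simp [Matrix.mul_apply, Fin.sum_univ_two, u]
      · linear_combination A.1 0 0 * ht - hd
      · linear_combination A.1 1 0 * ht

end MP7fS
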