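import Pool.Agent.Lib.MP_7f581e_ntS.AutPSLB

/-!
The automorphisms of `PSL(2,F)` for a finite field `F`: the normalized case and the theorem.
-/

set_option autoImplicit false
set_option linter.unusedSectionVars false

namespace MP7fS

open Matrix

variable {F : Type*} [Field F]

/-- The upper unipotent matrix as an element of `GL`. -/
def uG (c : F) : GL (Fin 2) F := ⟨(u c).1, (u (-c)).1, by
      have : u c * u (-c) = 1 := by rw [← u_add, add_neg_cancel]; apply sl_ext <;> simp
      exact congrArg Subtype.val this, by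
      have : u (-c) * u c = 1 := by rw [← u_add, neg_add_cancel]; apply sl_ext <;> simp
      exact congrArg Subtype.val this⟩

theorem cj_uG (c : F) (A : SL2 F) : cj (uG c) (RingEquiv.refl F) A = u c * A * u (-c) := by
  apply Subtype.ext
  rw [cj_coe]
  rfl

/-- The Weyl element. -/
def w (x : F) (hx : x ≠ 0) : SL2 F := ⟨!![0, x; -x⁻¹, 0], by
  rw [Matrix.det_fin_two_of]
  field_simp
  ring⟩

@[simp] theorem w00 (x : F) (hx : x ≠ 0) : (w x hx).1 0 0 = 0 := rfl
@[simp] theorem w01 (x : F) (hx : x ≠ 0) : (w x hx).1 0 1 = x := rfl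
@[simp] theorem w10 (x : F) (hx : x ≠ 0) : (w x hx).1 1 0 = -x⁻¹ := rfl
@[simp] theorem w11 (x : F) (hx : x ≠ 0) : (w x hx).1 1 1 = 0 := rfl

theorem w_eq (x : F) (hx : x ≠ 0) : u x * l (-x⁻¹) * u x = w x hx := by
  apply sl_ext
  · simp only [mul00, mul01, mul10, mul11, u00, u01, u10, u11, l00, l01, l10, l11, w00]
    field_simp
    ring
  · simp only [mul00, mul01, mul10, mul11, u00, u01, u10, u11, l00, l01, l10, l11, w01]
    field_simp
    ring
  · simp only [mul00, mul01, mul10, mul11, u00, u01, u10, u11, l00, l01, l10, l11, w10]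
    ring
  · simp only [mul00, mul01, mul10, mul11, u00, u01, u10, u11, l00, l01, l10, l11, w11]
    field_simp
    ring

section normalized

variable (α : PSL2 F ≃* PSL2 F)

/-- The additive map induced on the upper unipotent group. -/
theorem exists_phi (h1 : α (mk (u 1)) = mk (u 1)) : ∃ φ : F → F, ∀ x, α (mk (u x)) = mk (u (φ x)) := by
  have h : ∀ x, ∃ y, α (mk (u x)) = mk (u y) := by
    intro x
    obtain ⟨A, hA⟩ := mk_surj (α (mk (u x)))
    obtain ⟨y, hy⟩ := centralizer_u (A := A) (by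
      rw [hA, ← h1, ← map_mul, ← map_mul, ← mk_mul, ← mk_mul, ← u_add, ← u_add, add_comm])
    exact ⟨y, by rw [← hA, hy]⟩
  choose φ hφ using h
  exact ⟨φ, hφ⟩

theorem exists_chi {t : F} (ht : t ≠ 0) (h1 : α (mk (l 1)) = mk (l t)) :
    ∃ χ : F → F, ∀ x, α (mk (l x)) = mk (l (χ x)) := by
  have h : ∀ x, ∃ y, α (mk (l x)) = mk (l y) := by
    intro x
    obtain ⟨A, hA⟩ := mk_surj (α (mk (l x)))
    obtain ⟨y, hy⟩ := centralizer_l (A := A) ht (by
      rw [hA, ← h1, ← map_mul, ← map_mul, ← mk_mul, ← mk_mul, ← l_add, ← l_add, add_comm])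
    exact ⟨y, by rw [← hA, hy]⟩
  choose χ hχ using h
  exact ⟨χ, hχ⟩

/-- The normalized case. -/
theorem normalized [Finite F] {t : F} (ht : t ≠ 0) (h1 : α (mk (u 1)) = mk (u 1))
    (h2 : α (mk (l 1)) = mk (l t)) :
    ∃ σ : F ≃+* F, ∀ A : SL2 F, α (mk A) = mk (cj 1 σ A) := by
  obtain ⟨φ, hφ⟩ := exists_phi α h1
  obtain ⟨χ, hχ⟩ := exists_chi α ht h2
  have hφ1 : φ 1 = 1 := mk_u_inj ((hφ 1).symm.trans h1)
  have hφadd : ∀ x y, φ (x + y) = φ x + φ y := by
    intro x y
    apply mk_u_inj
    rw [← hφ, u_add, mk_mul, map_mul, hφ, hφ, u_add, mk_mul]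
  have hφ0 : φ 0 = 0 := by
    have := hφadd 0 0
    rw [add_zero] at this
    linear_combination -this
  have hφneg : ∀ x, φ (-x) = -φ x := by
    intro x
    have := hφadd x (-x)
    rw [add_neg_cancel, hφ0] at this
    linear_combination -this
  have hφinj : Function.Injective φ := by
    intro x y hxy
    apply mk_u_inj
    apply α.injective
    rw [hφ, hφ, hxy]
  have hrel : ∀ x : F, x ≠ 0 → 1 + φ x * χ (-x⁻¹) = 0 := by
    intro x hx
    have hw : w x hx * u 1 = l (-(x⁻¹ * x⁻¹)) * w x hx := by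
      apply sl_ext <;> simp only [mul00, mul01, mul10, mul11, u00, u01, u10, u11, l00, l01, l10,
        l11, w00, w01, w10, w11] <;> field_simp <;> ring
    have h3 := congrArg (fun A => α (mk A)) hw
    simp only [mk_mul, map_mul, ← w_eq, hφ, hχ, hφ1] at h3
    rw [← mk_mul, ← mk_mul, ← mk_mul, ← mk_mul] at h3
    set a := φ x
    set b := χ (-x⁻¹)
    set s := χ (-(x⁻¹ * x⁻¹))
    rcases mk_eq_cases h3 with ⟨h4, h5, h6, h7⟩ | ⟨h4, h5, h6, h7⟩ <;>
      simp only [mul00, mul01, mul10, mul11, u00, u01, u10, u11, l00, l01, l10, l11] at h4 h5 h6 h7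
    · linear_combination h5
    · by_cases h2F : (2 : F) = 0
      · linear_combination h5 - (1 + a * b + 2 * a + a * a * b) * h2F + (1 + a * b) * h2F
      · have : (2 : F) * (1 + a * b) = 0 := by linear_combination h4
        exact (mul_eq_zero.mp this).resolve_left h2F
  have hχ1 : χ (-1) = -1 := by
    have := hrel 1 one_ne_zero
    rw [hφ1, inv_one, one_mul] at this
    linear_combination this
  have hχφ : ∀ x, χ x = φ x := by
    intro x
    have hw : w 1 one_ne_zero * u (-x) = l x * w (1 : F) one_ne_zero := by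
      apply sl_ext <;> simp only [mul00, mul01, mul10, mul11, u00, u01, u10, u11, l00, l01, l10,
        l11, w00, w01, w10, w11] <;> simp
    have hα : α (mk (w (1 : F) one_ne_zero)) = mk (w (1 : F) one_ne_zero) := by
      rw [← w_eq, mk_mul, mk_mul, map_mul, map_mul, hφ, hχ, hφ1, inv_one, hχ1]
    have h3 := congrArg (fun A => α (mk A)) hw
    simp only [mk_mul, map_mul, hα, hφ, hχ] at h3
    rw [← mk_mul, ← mk_mul, hφneg] at h3
    rcases mk_eq_cases h3 with ⟨h4, h5, h6, h7⟩ | ⟨h4, h5, h6, h7⟩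
    · simp only [mul11, u01, u11, l10, l11, w10, w11, w01, inv_one] at h7
      linear_combination -h7
    · simp only [mul01, mul11, u01, u11, l00, l01, l10, l11, w00, w10, w11, w01, inv_one] at h5 h7
      linear_combination χ x * h5 - h7
  have hinv : ∀ x, x ≠ 0 → φ x * φ x⁻¹ = 1 := by
    intro x hx
    have := hrel x hx
    rw [hχφ, hφneg] at this
    linear_combination -this
  have hne : ∀ x, x ≠ 0 → φ x ≠ 0 := by
    intro x hx h
    have := hinv x hx
    rw [h, zero_mul] at this
    exact zero_ne_one this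
  have hinv' : ∀ x, φ x⁻¹ = (φ x)⁻¹ := by
    intro x
    by_cases hx : x = 0
    · rw [hx, _root_.inv_zero, hφ0, _root_.inv_zero]
    · exact eq_inv_of_mul_eq_one_right (hinv x hx)
  have hφsub : ∀ x y, φ (x - y) = φ x - φ y := by
    intro x y
    rw [sub_eq_add_neg, hφadd, hφneg, sub_eq_add_neg]
  -- Hua
  have hhua : ∀ a b, φ (a * a * b) = φ a * φ a * φ b := by
    intro a b
    by_cases ha : a = 0
    · simp [ha, hφ0]
    by_cases hb : b = 0
    · simp [hb, hφ0]
    by_cases hab : a * b = 1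
    · have h3 : a * a * b = a := by rw [mul_assoc, hab, mul_one]
      have h4 : b = a⁻¹ := eq_inv_of_mul_eq_one_right hab
      rw [h3, h4, mul_assoc, hinv a ha, mul_one]
    · have hua : ∀ x y : F, x ≠ 0 → y ≠ 0 → x * y ≠ 1 →
          x - (x⁻¹ + (y⁻¹ - x)⁻¹)⁻¹ = x * x * y := by
        intro x y hx hy hxy
        have h5 : y⁻¹ - x ≠ 0 := by
          intro h
          apply hxy
          have : x = y⁻¹ := (sub_eq_zero.mp h).symm
          rw [this, inv_mul_cancel₀ hy]
        have h6 : 1 - x * y ≠ 0 := fun h => hxy (sub_eq_zero.mp h).symm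
        have h7 : y⁻¹ - x = (1 - x * y) / y := by field_simp
        have h8 : x⁻¹ + ((1 - x * y) / y)⁻¹ = (x * (1 - x * y))⁻¹ := by
          field_simp
          ring
        rw [h7, h8, inv_inv]
        ring
      have hab' : φ a * φ b ≠ 1 := by
        intro h
        apply hab
        have h9 : φ b = φ a⁻¹ := by
          rw [hinv']
          exact eq_inv_of_mul_eq_one_right h
        rw [hφinj h9, mul_inv_cancel₀ ha]
      rw [← hua a b ha hb hab, ← hua (φ a) (φ b) (hne a ha) (hne b hb) hab', hφsub, hinv', hφadd,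
        hinv', hinv', hφsub, hinv']
  have hsq : ∀ a, φ (a * a) = φ a * φ a := by
    intro a
    have := hhua a 1
    rwa [mul_one, hφ1, mul_one] at this
  have hmul : ∀ a b, φ (a * b) = φ a * φ b := by
    intro a b
    by_cases h2F : (2 : F) = 0
    · have hchar : CharP F 2 := CharTwo.of_one_ne_zero_of_two_eq_zero one_ne_zero h2F
      obtain ⟨c, hc⟩ : ∃ c : F, c * c = a := by
        have hinj : Function.Injective (fun c : F => c * c) := by
          intro c d hcd
          have h3 : (c - d) * (c - d) = 0 := by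
            have : c * c = d * d := hcd
            linear_combination this + (-(c * d) + d * d) * h2F
          exact sub_eq_zero.mp (mul_self_eq_zero.mp h3)
        exact (Finite.injective_iff_surjective.mp hinj) a
      rw [← hc, hhua, hsq]
    · have h3 := hsq (a + b)
      have h4 : φ ((a + b) * (a + b)) = φ a * φ a + φ (a * b) + φ (a * b) + φ b * φ b := by
        have : (a + b) * (a + b) = a * a + a * b + a * b + b * b := by ring
        rw [this, hφadd, hφadd, hφadd, hsq, hsq]
      rw [h4, hφadd] at h3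
      have h5 : (2 : F) * (φ (a * b) - φ a * φ b) = 0 := by linear_combination h3
      exact sub_eq_zero.mp ((mul_eq_zero.mp h5).resolve_left h2F)
  let σ0 : F →+* F :=
    { toFun := φ
      map_one' := hφ1
      map_mul' := hmul
      map_zero' := hφ0
      map_add' := hφadd }
  let σ : F ≃+* F := RingEquiv.ofBijective σ0 ⟨hφinj, Finite.injective_iff_surjective.mp hφinj⟩
  have hσ : ∀ x, σ x = φ x := fun _ => rfl
  have hcj : ∀ (A : SL2 F) (i j : Fin 2), (cj 1 σ A).1 i j = φ (A.1 i j) := by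
    intro A i j
    rw [cj_coe, inv_one]
    change ((1 : Matrix (Fin 2) (Fin 2) F) * (A.1.map σ) * (1 : Matrix (Fin 2) (Fin 2) F)) i j = _
    rw [one_mul, mul_one]
    rfl
  have hcju : ∀ x, cj 1 σ (u x) = u (φ x) := by
    intro x
    apply sl_ext <;> rw [hcj] <;> simp [hφ1, hφ0]
  have hcjl : ∀ x, cj 1 σ (l x) = l (φ x) := by
    intro x
    apply sl_ext <;> rw [hcj] <;> simp [hφ1, hφ0]
  refine ⟨σ, ?_⟩
  -- generation
  have hgen : ∀ A : SL2 F, A.1 1 0 ≠ 0 → α (mk A) = mk (cj 1 σ A) := by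
    intro A hA
    have hd := det_eq A
    have h3 : A = u ((A.1 0 0 - 1) / A.1 1 0) * l (A.1 1 0) * u ((A.1 1 1 - 1) / A.1 1 0) := by
      apply sl_ext <;> simp only [mul00, mul01, mul10, mul11, u00, u01, u10, u11, l00, l01, l10,
        l11] <;> field_simp
      · ring
      · linear_combination -hd
      · ring
      · ring
    rw [h3, mk_mul, mk_mul, map_mul, map_mul, hφ, hχ, hφ, hχφ, map_mul, map_mul, hcju, hcju, hcjl,
      mk_mul, mk_mul]
  intro A
  by_cases hA : A.1 1 0 = 0
  · have h0 : A.1 0 0 ≠ 0 := by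
      intro h
      have hd := det_eq A
      rw [hA, h] at hd
      norm_num at hd
    have h3 : A = l (-1) * (l 1 * A) := by
      rw [← mul_assoc, ← l_add, neg_add_cancel]
      have : l (0 : F) = 1 := by apply sl_ext <;> simp
      rw [this, one_mul]
    have h4 : (l 1 * A).1 1 0 ≠ 0 := by
      rw [mul10, l10, l11, hA]
      simpa using h0
    rw [h3, mk_mul, map_mul, hgen _ h4, hχ, hχφ, map_mul (cj 1 σ) (l (-1)), mk_mul, hcjl]
  · exact hgen A hA

end normalized

/-- **Automorphisms of `PSL(2,F)`.** -/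
theorem aut_psl2 [Finite F] (α : PSL2 F ≃* PSL2 F) :
    ∃ (g : GL (Fin 2) F) (σ : F ≃+* F), ∀ A : SL2 F, α (mk A) = mk (cj g σ A) := by
  obtain ⟨p, hpc⟩ := CharP.exists F
  have hp : Fact p.Prime := ⟨CharP.char_is_prime F p⟩
  -- reduction: composing with a conjugation is harmless
  have hred : ∀ (h : GL (Fin 2) F) (β : PSL2 F ≃* PSL2 F), (β = α.trans (cjP h)) →
      (∃ (g : GL (Fin 2) F) (σ : F ≃+* F), ∀ A : SL2 F, β (mk A) = mk (cj g σ A)) →
      ∃ (g : GL (Fin 2) F) (σ : F ≃+* F), ∀ A : SL2 F, α (mk A) = mk (cj g σ A) := by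
    rintro h β rfl ⟨g, σ, hg⟩
    refine ⟨h⁻¹ * g, σ, fun A => ?_⟩
    apply (cjP h).injective
    have h1 := hg A
    rw [MulEquiv.trans_apply] at h1
    rw [h1, cjP_mk, cj_cj, ← mul_assoc, mul_inv_cancel, one_mul]
  -- first normalization
  obtain ⟨A, hA, htr, hA1⟩ := exists_unipotent (p := p) (x := α (mk (u 1)))
    (by rw [← map_pow, u_pow_char, map_one]) (fun h => u_one_ne (by
      rw [← map_one α] at h
      exact α.injective h))
  obtain ⟨g, hg⟩ := exists_conj htr hA1
  apply hred g _ rfl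
  have h1 : (α.trans (cjP g)) (mk (u 1)) = mk (u 1) := by
    rw [MulEquiv.trans_apply, ← hA, cjP_mk, hg]
  generalize hβ : α.trans (cjP g) = β at h1 ⊢
  clear hβ hred hg g hA1 htr hA A α
  -- second normalization
  obtain ⟨A, hA, htr, hA1⟩ := exists_unipotent (p := p) (x := β (mk (l 1)))
    (by rw [← map_pow, l_pow_char, map_one]) (fun h => l_one_ne (by
      rw [← map_one β] at h
      exact β.injective h))
  have hd := det_eq A
  have ht : A.1 1 0 ≠ 0 := by
    intro hc
    rw [hc, mul_zero, sub_zero] at hd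
    have h5 : (A.1 0 0 - 1) * (A.1 0 0 - 1) = 0 := by
      linear_combination A.1 0 0 * htr - hd
    have h6 : A.1 0 0 = 1 := sub_eq_zero.mp (mul_self_eq_zero.mp h5)
    have h7 : A.1 1 1 = 1 := by linear_combination htr - h6
    have h8 : A = u (A.1 0 1) := by
      apply sl_ext
      · simpa using h6
      · simp
      · simpa using hc
      · simpa using h7
    have h9 : mk (l (1 : F)) * mk (u 1) = mk (u 1) * mk (l 1) := by
      apply β.injective
      rw [map_mul, map_mul, h1, ← hA, h8, ← mk_mul, ← mk_mul, ← u_add, ← u_add, add_comm]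
    obtain ⟨y, hy⟩ := centralizer_u h9
    rcases mk_eq_cases hy with ⟨_, _, h10, _⟩ | ⟨_, _, h10, _⟩ <;> simp at h10
  let x : F := (A.1 0 0 - 1) / A.1 1 0
  have hconj : u (-x) * A * u x = l (A.1 1 0) := by
    apply sl_ext <;> simp only [mul00, mul01, mul10, mul11, u00, u01, u10, u11, l00, l01, l10,
        l11, x] <;> field_simp
    · ring
    · linear_combination htr - hd
    · ring
    · linear_combination A.1 1 0 * htr
  have hred : (∃ (g : GL (Fin 2) F) (σ : F ≃+* F), ∀ A : SL2 F,
      (β.trans (cjP (uG (-x)))) (mk A) = mk (cj g σ A)) →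
      ∃ (g : GL (Fin 2) F) (σ : F ≃+* F), ∀ A : SL2 F, β (mk A) = mk (cj g σ A) := by
    rintro ⟨g, σ, hg⟩
    refine ⟨(uG (-x))⁻¹ * g, σ, fun A => ?_⟩
    apply (cjP (uG (-x))).injective
    have h1 := hg A
    rw [MulEquiv.trans_apply] at h1
    rw [h1, cjP_mk, cj_cj, ← mul_assoc, mul_inv_cancel, one_mul]
  apply hred
  obtain ⟨σ, hσ⟩ := normalized (β.trans (cjP (uG (-x)))) ht (by
    rw [MulEquiv.trans_apply, h1, cjP_mk, cj_uG, ← u_add, ← u_add]
    congr 2
    ring) (by
    rw [MulEquiv.trans_apply, ← hA, cjP_mk, cj_uG, neg_neg, hconj])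
  exact ⟨1, σ, hσ⟩

end MP7fS
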