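import Pool.Agent.Lib.MP_7f581e_ntL.U3

/-!
Generic Lang torsor, part 4: the action on the rational function field.
-/

set_option autoImplicit false
set_option linter.unusedSectionVars false

universe u v

namespace MP7fS

open TensorProduct

variable {p : ℕ} [Fact p.Prime] {B : Type} [Ring B] [Finite B] [Algebra (ZMod p) B]
variable {ι : Type} [Fintype ι] [DecidableEq ι] (e : Module.Basis ι (ZMod p) B)
variable {K M : Type u} [Field K] [Field M] [Algebra K M] [Algebra (ZMod p) M]
variable {Γ : Type} [Group Γ] (γ : Γ ≃* (M ≃ₐ[K] M)) (ρ : Γ →* (B ≃+* B))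
variable (L : Type u) [Field L] [Algebra (MvPolynomial ι M) L]
  [IsFractionRing (MvPolynomial ι M) L] [Algebra M L] [IsScalarTower M (MvPolynomial ι M) L]
  [Algebra (ZMod p) L]

/-- The generic element over the rational function field. -/
noncomputable def gX : L ⊗[ZMod p] B :=
  tmap (algebraMap (MvPolynomial ι M) L) (RingHom.id B) (gx e M)

/-- The action on the rational function field. -/
noncomputable def PsiL (h : Bˣ ⋊[uact ρ] Γ) : L →+* L :=
  IsFractionRing.lift (A := MvPolynomial ι M) (K := L)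
    (g := (algebraMap (MvPolynomial ι M) L).comp (psi (M := M) e γ ρ h))
    ((IsFractionRing.injective (MvPolynomial ι M) L).comp (psi_injective e γ ρ h))

theorem PsiL_alg (h : Bˣ ⋊[uact ρ] Γ) (z : MvPolynomial ι M) :
    PsiL (M := M) e γ ρ L h (algebraMap (MvPolynomial ι M) L z) =
      algebraMap (MvPolynomial ι M) L (psi e γ ρ h z) := by
  rw [PsiL, IsFractionRing.lift_algebraMap]
  rfl

theorem PsiL_M (h : Bˣ ⋊[uact ρ] Γ) (m : M) :
    PsiL (M := M) e γ ρ L h (algebraMap M L m) = algebraMap M L (γ h.right m) := by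
  rw [IsScalarTower.algebraMap_apply M (MvPolynomial ι M) L, PsiL_alg,
    IsScalarTower.algebraMap_apply M (MvPolynomial ι M) L, MvPolynomial.algebraMap_eq, psi_C]

theorem PsiL_gX (h : Bˣ ⋊[uact ρ] Γ) :
    tmap (PsiL (M := M) e γ ρ L h) (ρ h.right : B →+* B) (gX (p := p) (M := M) e L) =
      gX (p := p) (M := M) e L * (1 ⊗ₜ (h.left : B)) := by
  rw [gX, tmap_comp]
  have h1 : (PsiL (M := M) e γ ρ L h).comp (algebraMap (MvPolynomial ι M) L) =
      (algebraMap (MvPolynomial ι M) L).comp (psi e γ ρ h) := by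
    refine RingHom.ext fun z => ?_
    exact PsiL_alg e γ ρ L h z
  rw [h1]
  have h2 : tmap ((algebraMap (MvPolynomial ι M) L).comp (psi e γ ρ h))
      ((ρ h.right : B →+* B).comp (RingHom.id B)) (gx e M) =
      tmap (p := p) (algebraMap (MvPolynomial ι M) L) (RingHom.id B)
        (tmap (psi e γ ρ h) (ρ h.right : B →+* B) (gx e M)) := by
    rw [tmap_comp]
    rfl
  rw [h2, psi_gx, map_mul, tmap_tmul, map_one]
  rfl

/-- Uniqueness for homomorphisms out of the rational function field. -/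
theorem hom_ext_gX {S : Type*} [Field S] [Algebra (ZMod p) S] (r : B ≃+* B) {f f' : L →+* S}
    (hM : ∀ m : M, f (algebraMap M L m) = f' (algebraMap M L m))
    (hx : tmap f (r : B →+* B) (gX (M := M) e L) =
      tmap (p := p) f' (r : B →+* B) (gX (M := M) e L)) : f = f' := by
  apply IsLocalization.ringHom_ext (nonZeroDivisors (MvPolynomial ι M))
  apply hom_ext_gx e r
  · intro m
    have h1 : algebraMap (MvPolynomial ι M) L (MvPolynomial.C m) = algebraMap M L m := by
      rw [IsScalarTower.algebraMap_apply M (MvPolynomial ι M) L, MvPolynomial.algebraMap_eq]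
    rw [RingHom.comp_apply, RingHom.comp_apply, h1, hM]
  · rw [gX, tmap_comp, tmap_comp] at hx
    exact hx

theorem isUnit_gX : IsUnit (gX (p := p) (M := M) e L) := by
  apply isUnit_of_lmm e
  rw [gX, lmm_tmap]
  have h1 : ((lmm e (gx e M)).map (algebraMap (MvPolynomial ι M) L)).det =
      algebraMap (MvPolynomial ι M) L (lmm e (gx e M)).det := by
    rw [RingHom.map_det]
    rfl
  rw [h1, isUnit_iff_ne_zero]
  intro h0
  exact det_gx_ne_zero e (M := M)
    ((IsFractionRing.injective (MvPolynomial ι M) L) (h0.trans (map_zero _).symm))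

variable [CharP L p]

/-- The Lang quotient of the generic element. -/
noncomputable def ga : L ⊗[ZMod p] B :=
  frob L (gX (p := p) (M := M) e L) * ((isUnit_gX (p := p) (M := M) e L).unit⁻¹ : (_)ˣ)

theorem ga_mul : ga (p := p) (M := M) e L * gX (M := M) e L = frob L (gX (M := M) e L) := by
  rw [ga, mul_assoc]
  have h1 : (((isUnit_gX (p := p) (M := M) e L).unit⁻¹ : (_)ˣ) : L ⊗[ZMod p] B) *
      gX (M := M) e L = 1 := (isUnit_gX (p := p) (M := M) e L).val_inv_mul
  rw [h1, mul_one]

theorem isUnit_ga : IsUnit (ga (p := p) (M := M) e L) := by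
  rw [ga]
  exact ((isUnit_gX (p := p) (M := M) e L).map (frob L)).mul (Units.isUnit _)

theorem ga_inv (h : Bˣ ⋊[uact ρ] Γ) :
    tmap (PsiL (M := M) e γ ρ L h) (ρ h.right : B →+* B) (ga (p := p) (M := M) e L) =
      ga (p := p) (M := M) e L := by
  have h1 := congrArg (tmap (PsiL (M := M) e γ ρ L h) (ρ h.right : B →+* B))
    (ga_mul (p := p) (M := M) e L)
  rw [map_mul, ← frob_tmap, PsiL_gX, map_mul, frob_one_tmul, ← mul_assoc, ← ga_mul] at h1
  have h2 : IsUnit ((1 : L) ⊗ₜ[ZMod p] (h.left : B)) := by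
    have := h.left.isUnit.map (Algebra.TensorProduct.includeRight : B →ₐ[ZMod p] L ⊗[ZMod p] B)
    exact this
  exact (isUnit_gX (p := p) (M := M) e L).mul_right_cancel (h2.mul_right_cancel h1)

variable (b : Module.Basis ι M (M ⊗[ZMod p] B))

/-- The invariants. -/
noncomputable def av (i : ι) : L := (bbc (algebraMap M L) b).repr (ga (p := p) (M := M) e L) i

theorem sum_av : ∑ i, av e L b i • bbc (algebraMap M L) b i = ga (p := p) (M := M) e L :=
  (bbc (algebraMap M L) b).sum_repr _

variable {b} (hb : ∀ i g, sg γ ρ g (b i) = b i)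

include hb

theorem tmap_bbc {S : Type*} [Field S] [Algebra (ZMod p) S] {f f' : L →+* S} {g : Γ}
    (hM : ∀ m : M, f (algebraMap M L m) = f' (algebraMap M L (γ g m))) (i : ι) :
    tmap f (ρ g : B →+* B) (bbc (algebraMap M L) b i) =
      tmap f' (RingHom.id B) (bbc (algebraMap M L) b i) := by
  rw [bbc_apply, tmap_comp, tmap_comp]
  conv_rhs => rw [← hb i g]
  rw [sg, tmap_comp]
  have h1 : f.comp (algebraMap M L) = (f'.comp (algebraMap M L)).comp (γ g : M →+* M) := by
    ext m
    exact hM m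
  rw [h1]
  rfl

theorem tmap_ga {S : Type*} [Field S] [Algebra (ZMod p) S] {f f' : L →+* S} {g : Γ}
    (hM : ∀ m : M, f (algebraMap M L m) = f' (algebraMap M L (γ g m)))
    (ha : ∀ i, f (av e L b i) = f' (av e L b i)) :
    tmap f (ρ g : B →+* B) (ga (p := p) (M := M) e L) =
      tmap f' (RingHom.id B) (ga (p := p) (M := M) e L) := by
  rw [← sum_av e L b, map_sum, map_sum]
  refine Finset.sum_congr rfl fun i _ => ?_
  rw [tmap_smul, tmap_smul, tmap_bbc γ ρ L hb hM, ha]

theorem PsiL_av (h : Bˣ ⋊[uact ρ] Γ) (i : ι) :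
    PsiL (M := M) e γ ρ L h (av e L b i) = av e L b i := by
  have h1 := ga_inv (p := p) (M := M) e γ ρ L h
  rw [← sum_av e L b, map_sum] at h1
  have h2 : ∀ k, tmap (PsiL (M := M) e γ ρ L h) (ρ h.right : B →+* B)
      (av e L b k • bbc (algebraMap M L) b k) =
      PsiL (M := M) e γ ρ L h (av e L b k) • bbc (algebraMap M L) b k := by
    intro k
    rw [tmap_smul, tmap_bbc γ ρ L hb (f' := RingHom.id L) (PsiL_M e γ ρ L h), tmap_id]
  rw [Finset.sum_congr rfl fun k _ => h2 k] at h1
  have h3 := congrArg (fun x => (bbc (algebraMap M L) b).repr x i) h1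
  simp only [Module.Basis.repr_sum_self] at h3
  exact h3

/-- Every homomorphism out of `L` with the given restriction is in the orbit. -/
theorem exists_PsiL {S : Type*} [Field S] [Algebra (ZMod p) S] [CharP S p] {f f' : L →+* S}
    {g : Γ} (hM : ∀ m : M, f (algebraMap M L m) = f' (algebraMap M L (γ g m)))
    (ha : ∀ i, f (av e L b i) = f' (av e L b i)) :
    ∃ h : Bˣ ⋊[uact ρ] Γ, f = f'.comp (PsiL (M := M) e γ ρ L h) := by
  set A := tmap f' (RingHom.id B) (ga (p := p) (M := M) e L) with hA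
  set y := tmap f (ρ g : B →+* B) (gX (p := p) (M := M) e L) with hy
  set x := tmap f' (RingHom.id B) (gX (p := p) (M := M) e L) with hx
  have hAu : IsUnit A := (isUnit_ga (p := p) (M := M) e L).map _
  have hyu : IsUnit y := (isUnit_gX (p := p) (M := M) e L).map _
  have hxu : IsUnit x := (isUnit_gX (p := p) (M := M) e L).map _
  have h1 : frob S y = A * y := by
    rw [hy, frob_tmap, ← ga_mul, map_mul, tmap_ga e γ ρ L hb hM ha]
  have h2 : frob S x = A * x := by
    rw [hx, frob_tmap, ← ga_mul, map_mul]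
  let z : (S ⊗[ZMod p] B)ˣ := hxu.unit⁻¹ * hyu.unit
  have hxz : x * (z : S ⊗[ZMod p] B) = y := by
    have : hxu.unit * z = hyu.unit := by
      simp only [z, mul_inv_cancel_left]
    exact congrArg Units.val this
  have h3 : frob S (z : S ⊗[ZMod p] B) = z := by
    have h4 := congrArg (frob S) hxz
    rw [map_mul, h1, h2, ← hxz, mul_assoc] at h4
    exact hxu.mul_left_cancel (hAu.mul_left_cancel h4)
  obtain ⟨c, hc⟩ := exists_unit_of_frob_eq z h3
  refine ⟨⟨c, g⟩, ?_⟩
  apply hom_ext_gX (M := M) e L (ρ g)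
  · intro m
    rw [RingHom.comp_apply, PsiL_M, hM]
  · have h5 : tmap (f'.comp (PsiL (M := M) e γ ρ L ⟨c, g⟩)) (ρ g : B →+* B)
        (gX (p := p) (M := M) e L) = tmap f' (RingHom.id B)
        (tmap (PsiL (M := M) e γ ρ L ⟨c, g⟩) (ρ g : B →+* B) (gX (p := p) (M := M) e L)) := by
      rw [tmap_comp]
      rfl
    rw [h5]
    have h6 := PsiL_gX (p := p) (M := M) e γ ρ L ⟨c, g⟩
    have h7 : tmap (PsiL (M := M) e γ ρ L ⟨c, g⟩) (ρ g : B →+* B) (gX (p := p) (M := M) e L) =
      gX (p := p) (M := M) e L * (1 ⊗ₜ (c : B)) := h6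
    rw [h7, map_mul, tmap_tmul, map_one, ← hy, ← hxz, hc]
    rfl

end MP7fS
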