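import Pool.Agent.Lib.MP_7f581e_ntS.LangC

/-!
Generic Lang torsor, part 5: the rational function field is finite and separable over the field
of invariants.
-/

set_option autoImplicit false
set_option linter.unusedSectionVars false

universe u v

namespace MP7fS

open TensorProduct

variable {p : ℕ} [Fact p.Prime] {B : Type} [Ring B] [Finite B] [Algebra (ZMod p) B]
variable {ι : Type} [Fintype ι] [DecidableEq ι] (e : Module.Basis ι (ZMod p) B)
variable {K M : Type u} [Field K] [Field M] [Algebra K M] [Algebra (ZMod p) M]
variable (L : Type u) [Field L] [Algebra (MvPolynomial ι M) L]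
  [IsFractionRing (MvPolynomial ι M) L] [Algebra M L] [IsScalarTower M (MvPolynomial ι M) L]
  [Algebra (ZMod p) L] [CharP L p] [Algebra K L] [IsScalarTower K M L]
variable (b : Module.Basis ι M (M ⊗[ZMod p] B))

section der

variable {F : Type u} [Field F] [Algebra F L] {Ω : Type*} [AddCommGroup Ω] [Module L Ω]
  [Module F Ω] (D : Derivation F L Ω)

theorem der_M [Algebra K F] [IsScalarTower K F L] [Algebra.IsSeparable K M] (m : M) :
    D (algebraMap M L m) = 0 := by
  set f : Polynomial F := (minpoly K m).map (algebraMap K F) with hf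
  have hsep0 : (minpoly K m).Separable := Algebra.IsSeparable.isSeparable K m
  have hsep : f.Separable := hsep0.map
  have h0 : Polynomial.aeval (algebraMap M L m) f = 0 := by
    rw [hf, Polynomial.aeval_map_algebraMap, Polynomial.aeval_algebraMap_apply, minpoly.aeval,
      map_zero]
  have h1 := D.map_aeval f (algebraMap M L m)
  rw [h0, map_zero] at h1
  have h2 := hsep.aeval_derivative_ne_zero h0
  exact (smul_eq_zero.mp h1.symm).resolve_left h2

theorem der_lmm (hM : ∀ m : M, D (algebraMap M L m) = 0) (ha : ∀ i, D (av e L b i) = 0)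
    (i k : ι) : D (lmm e (ga (p := p) (M := M) e L) i k) = 0 := by
  have h1 : lmm e (ga (p := p) (M := M) e L) i k =
      ∑ l, av e L b l * algebraMap M L (lmm e (b l) i k) := by
    conv_lhs => rw [← sum_av e L b]
    have h2 : lmm e (∑ l, av e L b l • bbc (algebraMap M L) b l) =
        ∑ l, av e L b l • lmm e (bbc (algebraMap M L) b l) := by
      rw [lmm, map_sum]
      refine Finset.sum_congr rfl fun l _ => ?_
      exact lmm_smul e _ _
    rw [h2, Matrix.sum_apply]
    refine Finset.sum_congr rfl fun l _ => ?_
    rw [bbc_apply, lmm_tmap, Matrix.smul_apply, Matrix.map_apply, smul_eq_mul]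
  rw [h1, map_sum]
  refine Finset.sum_eq_zero fun l _ => ?_
  rw [D.leibniz, hM, ha, smul_zero, smul_zero, add_zero]

theorem repr_gX (i : ι) : (eb e L).repr (gX (p := p) (M := M) e L) i =
    algebraMap (MvPolynomial ι M) L (MvPolynomial.X i) := by
  rw [gX, repr_tmap, gx, repr_vec]

theorem der_X (hM : ∀ m : M, D (algebraMap M L m) = 0) (ha : ∀ i, D (av e L b i) = 0)
    (i : ι) : D (algebraMap (MvPolynomial ι M) L (MvPolynomial.X i)) = 0 := by
  set x : ι → L := fun i => algebraMap (MvPolynomial ι M) L (MvPolynomial.X i) with hx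
  set A := lmm e (ga (p := p) (M := M) e L) with hA
  have h1 : ∀ i, x i ^ p = ∑ k, A i k * x k := by
    intro i
    have h2 := congrFun (lmm_mulVec e (ga (p := p) (M := M) e L) (gX (M := M) e L)) i
    rw [ga_mul, frob, repr_tmap, frobenius_def, repr_gX] at h2
    rw [← h2, Matrix.mulVec, dotProduct]
    refine Finset.sum_congr rfl fun k _ => ?_
    rw [repr_gX]
  have h3 : ∀ i, ∑ k, A i k • D (x k) = 0 := by
    intro i
    have h4 := congrArg D (h1 i)
    rw [D.leibniz_pow, map_sum] at h4
    have h5 : ∀ z : Ω, p • z = 0 := by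
      intro z
      rw [← Nat.cast_smul_eq_nsmul L, CharP.cast_eq_zero, zero_smul]
    rw [h5] at h4
    rw [h4]
    refine Finset.sum_congr rfl fun k _ => ?_
    rw [D.leibniz, der_lmm e L b D hM ha, smul_zero, add_zero]
  have hAu : IsUnit A.det := isUnit_lmm e (isUnit_ga (p := p) (M := M) e L)
  have h6 : ∑ j, A⁻¹ i j • ∑ k, A j k • D (x k) = D (x i) := by
    have h7 : ∀ j, A⁻¹ i j • ∑ k, A j k • D (x k) = ∑ k, (A⁻¹ i j * A j k) • D (x k) := by
      intro j
      rw [Finset.smul_sum]
      refine Finset.sum_congr rfl fun k _ => ?_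
      rw [smul_smul]
    rw [Finset.sum_congr rfl fun j _ => h7 j, Finset.sum_comm]
    have h8 : ∀ k, ∑ j, (A⁻¹ i j * A j k) • D (x k) = (1 : Matrix ι ι L) i k • D (x k) := by
      intro k
      rw [← Finset.sum_smul, ← Matrix.nonsing_inv_mul A hAu, Matrix.mul_apply]
    rw [Finset.sum_congr rfl fun k _ => h8 k, Finset.sum_eq_single i]
    · rw [Matrix.one_apply_eq, one_smul]
    · intro k _ hk
      rw [Matrix.one_apply_ne hk.symm, zero_smul]
    · intro h
      exact absurd (Finset.mem_univ i) h
  rw [← h6]
  refine Finset.sum_eq_zero fun j _ => ?_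
  rw [h3, smul_zero]

theorem der_zero (hM : ∀ m : M, D (algebraMap M L m) = 0) (ha : ∀ i, D (av e L b i) = 0)
    (z : L) : D z = 0 := by
  have hP : ∀ q : MvPolynomial ι M, D (algebraMap (MvPolynomial ι M) L q) = 0 := by
    intro q
    induction q using MvPolynomial.induction_on with
    | C m =>
      have h1 : algebraMap (MvPolynomial ι M) L (MvPolynomial.C m) = algebraMap M L m := by
        rw [IsScalarTower.algebraMap_apply M (MvPolynomial ι M) L, MvPolynomial.algebraMap_eq]
      rw [h1, hM]
    | add q r hq hr => rw [map_add, map_add, hq, hr, add_zero]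
    | mul_X q i hq => rw [map_mul, D.leibniz, hq, der_X e L b D hM ha, smul_zero, smul_zero,
        add_zero]
  obtain ⟨n, d, hd, rfl⟩ := IsFractionRing.div_surjective (A := MvPolynomial ι M) z
  set d' := algebraMap (MvPolynomial ι M) L d with hd'
  have hd0 : d' ≠ 0 := by
    intro h0
    exact (nonZeroDivisors.ne_zero hd) ((IsFractionRing.injective (MvPolynomial ι M) L)
      (h0.trans (map_zero _).symm))
  have h1 : D (algebraMap (MvPolynomial ι M) L n / d' * d') = 0 := by
    rw [div_mul_cancel₀ _ hd0, hP]
  rw [D.leibniz, hP, smul_zero, zero_add] at h1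
  exact (smul_eq_zero.mp h1).resolve_left hd0

end der

variable {F : Type u} [Field F] [Algebra F L] [Algebra K F] [IsScalarTower K F L]

include e b in
theorem formallyUnramified [Algebra.IsSeparable K M]
    (haF : ∀ i, ∃ z : F, algebraMap F L z = av e L b i) : Algebra.FormallyUnramified F L := by
  rw [Algebra.formallyUnramified_iff]
  have h0 : ∀ z : L, KaehlerDifferential.D F L z = 0 := by
    intro z
    apply der_zero e L b (KaehlerDifferential.D F L)
    · exact der_M (K := K) L (KaehlerDifferential.D F L)
    · intro i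
      obtain ⟨z, hz⟩ := haF i
      rw [← hz, Derivation.map_algebraMap]
  have h1 := KaehlerDifferential.span_range_derivation F L
  have h2 : Submodule.span L (Set.range (KaehlerDifferential.D F L)) = ⊥ := by
    rw [Submodule.span_eq_bot]
    rintro _ ⟨z, rfl⟩
    exact h0 z
  rw [h2] at h1
  exact (Submodule.subsingleton_iff L).mp (subsingleton_of_bot_eq_top h1)

include e b in
theorem finite_separable [FiniteDimensional K M] [Algebra.IsSeparable K M]
    (haF : ∀ i, ∃ z : F, algebraMap F L z = av e L b i) :
    FiniteDimensional F L ∧ Algebra.IsSeparable F L := by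
  have h1 : Algebra.FormallyUnramified F L := formallyUnramified (K := K) e L b haF
  have h2 : Algebra.EssFiniteType (MvPolynomial ι M) L :=
    Algebra.EssFiniteType.of_isLocalization L (nonZeroDivisors (MvPolynomial ι M))
  have h3 : Algebra.EssFiniteType M L := Algebra.EssFiniteType.comp M (MvPolynomial ι M) L
  have h4 : Algebra.EssFiniteType K L := Algebra.EssFiniteType.comp K M L
  have h5 : Algebra.EssFiniteType F L := Algebra.EssFiniteType.of_comp K F L
  exact ⟨Algebra.FormallyUnramified.finite_of_free F L,
    Algebra.FormallyUnramified.isSeparable F L⟩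

end MP7fS
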