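import Pool.Agent.Lib.MP_7f581e_ntS.LangD

/-!
Generic Lang torsor, part 6: the Galois group, and rationality of the field of invariants.
-/

set_option autoImplicit false
set_option linter.unusedSectionVars false

universe u v

namespace MP7fS

open TensorProduct

variable {p : ℕ} [Fact p.Prime] {B : Type} [Ring B] [Finite B] [Algebra (ZMod p) B]
variable {ι : Type} [Fintype ι] [DecidableEq ι] (e : Module.Basis ι (ZMod p) B)
variable {K M : Type u} [Field K] [Field M] [Algebra K M] [Algebra (ZMod p) M]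
variable {Γ : Type} [Group Γ] [Finite Γ] (γ : Γ ≃* (M ≃ₐ[K] M)) (ρ : Γ →* (B ≃+* B))
variable (L : Type u) [Field L] [Algebra (MvPolynomial ι M) L]
  [IsFractionRing (MvPolynomial ι M) L] [Algebra M L] [IsScalarTower M (MvPolynomial ι M) L]
  [Algebra (ZMod p) L] [CharP L p] [Algebra K L] [IsScalarTower K M L]
variable {b : Module.Basis ι M (M ⊗[ZMod p] B)} (hb : ∀ i g, sg γ ρ g (b i) = b i)

/-- The field of invariants. -/
noncomputable def FL (K : Type u) [Field K] [Algebra K L]
    (b : Module.Basis ι M (M ⊗[ZMod p] B)) : IntermediateField K L :=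
  IntermediateField.adjoin K (Set.range (av e L b))

theorem PsiL_comp (h h' : Bˣ ⋊[uact ρ] Γ) :
    (PsiL (M := M) e γ ρ L h).comp (PsiL (M := M) e γ ρ L h') =
      PsiL (M := M) e γ ρ L (h * h') := by
  apply IsLocalization.ringHom_ext (nonZeroDivisors (MvPolynomial ι M))
  refine RingHom.ext fun z => ?_
  rw [RingHom.comp_apply, RingHom.comp_apply, RingHom.comp_apply, PsiL_alg, PsiL_alg, PsiL_alg,
    ← psi_comp, RingHom.comp_apply]

theorem PsiL_one : PsiL (M := M) e γ ρ L 1 = RingHom.id L := by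
  apply IsLocalization.ringHom_ext (nonZeroDivisors (MvPolynomial ι M))
  refine RingHom.ext fun z => ?_
  rw [RingHom.comp_apply, RingHom.comp_apply, PsiL_alg, psi_one]
  rfl

include hb in
theorem PsiL_F (h : Bˣ ⋊[uact ρ] Γ) {z : L} (hz : z ∈ FL e L K b) :
    PsiL (M := M) e γ ρ L h z = z := by
  unfold FL at hz
  induction hz using IntermediateField.adjoin_induction with
  | mem x hx =>
    obtain ⟨i, rfl⟩ := hx
    exact PsiL_av e γ ρ L hb h i
  | algebraMap k =>
    rw [IsScalarTower.algebraMap_apply K M L, PsiL_M, AlgEquiv.commutes]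
  | add x y _ _ hx hy => rw [map_add, hx, hy]
  | inv x _ hx => rw [map_inv₀, hx]
  | mul x y _ _ hx hy => rw [map_mul, hx, hy]

/-- The action as automorphisms over the field of invariants. -/
noncomputable def PsiF : (Bˣ ⋊[uact ρ] Γ) →* (L →ₐ[FL e L K b] L) where
  toFun h := { PsiL (M := M) e γ ρ L h with
    commutes' := fun z => PsiL_F e γ ρ L hb h z.2 }
  map_one' := by
    refine AlgHom.ext fun z => ?_
    exact congrArg (fun f : L →+* L => f z) (PsiL_one (M := M) e γ ρ L)
  map_mul' h h' := by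
    refine AlgHom.ext fun z => ?_
    exact congrArg (fun f : L →+* L => f z) (PsiL_comp (M := M) e γ ρ L h h').symm

theorem PsiF_apply (h : Bˣ ⋊[uact ρ] Γ) (z : L) :
    PsiF e γ ρ L hb h z = PsiL (M := M) e γ ρ L h z := rfl

theorem PsiL_inj {h h' : Bˣ ⋊[uact ρ] Γ}
    (hh : PsiL (M := M) e γ ρ L h = PsiL (M := M) e γ ρ L h') : h = h' := by
  have h1 : h.right = h'.right := by
    apply γ.injective
    ext m
    apply (algebraMap M L).injective
    rw [← PsiL_M e γ ρ L h, ← PsiL_M e γ ρ L h', hh]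
  have h2 := PsiL_gX (p := p) (M := M) e γ ρ L h
  rw [hh, h1, PsiL_gX (p := p) (M := M) e γ ρ L h'] at h2
  have h3 := (isUnit_gX (p := p) (M := M) e L).mul_left_cancel h2
  exact SemidirectProduct.ext (Units.ext (one_tmul_inj h3)).symm h1

theorem PsiF_inj : Function.Injective (PsiF e γ ρ L hb) := by
  intro h h' hh
  apply PsiL_inj e γ ρ L
  refine RingHom.ext fun z => ?_
  exact congrArg (fun f : L →ₐ[FL e L K b] L => f z) hh

include hb in
/-- Every embedding is in the orbit of a given one. -/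
theorem exists_emb [Normal K M] {S : Type*} [Field S] [Algebra (ZMod p) S] [CharP S p]
    [Algebra L S] [Algebra M S] [Algebra K S] [IsScalarTower K M S] [IsScalarTower M L S]
    [IsScalarTower K L S] (f : L →+* S)
    (hf : ∀ z : L, z ∈ FL e L K b → f z = algebraMap L S z) :
    ∃ h : Bˣ ⋊[uact ρ] Γ, f = (algebraMap L S).comp (PsiL (M := M) e γ ρ L h) := by
  let fK : L →ₐ[K] S := { f with
    commutes' := fun k => by
      have h1 := hf (algebraMap K L k) (IntermediateField.algebraMap_mem _ k)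
      rw [← IsScalarTower.algebraMap_apply K L S] at h1
      exact h1 }
  let s := fK.restrictNormal M
  have hs : Function.Bijective s := AlgHom.normal_bijective K M M s
  let s' : M ≃ₐ[K] M := AlgEquiv.ofBijective s hs
  have h2 : ∀ m : M, f (algebraMap M L m) = algebraMap L S (algebraMap M L (s' m)) := by
    intro m
    have h3 := fK.restrictNormal_commutes M m
    rw [← IsScalarTower.algebraMap_apply M L S]
    exact h3.symm
  refine exists_PsiL e γ ρ L hb (g := γ.symm s') ?_ ?_
  · intro m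
    rw [h2, MulEquiv.apply_symm_apply]
  · intro i
    apply hf
    exact IntermediateField.subset_adjoin _ _ (Set.mem_range_self i)

theorem mem_FL (i : ι) : ∃ z : FL e L K b, algebraMap (FL e L K b) L z = av e L b i :=
  ⟨⟨av e L b i, IntermediateField.subset_adjoin _ _ (Set.mem_range_self i)⟩, rfl⟩

include hb in
theorem galois_FL [FiniteDimensional K M] [IsGalois K M] :
    FiniteDimensional (FL e L K b) L ∧ IsGalois (FL e L K b) L ∧
      Nonempty ((L ≃ₐ[FL e L K b] L) ≃* (Bˣ ⋊[uact ρ] Γ)) := by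
  obtain ⟨hfd, hsep⟩ := finite_separable (K := K) e L b (F := FL e L K b) (mem_FL e L)
  let C := AlgebraicClosure L
  have hC : CharP C p := charP_of_injective_algebraMap (algebraMap L C).injective p
  have hfin : Finite Bˣ := inferInstance
  have hfinH : Finite (Bˣ ⋊[uact ρ] Γ) := Finite.of_equiv _ SemidirectProduct.equivProd.symm
  have h1 : Nat.card (L →ₐ[FL e L K b] C) = Module.finrank (FL e L K b) L := by
    rw [Nat.card_eq_fintype_card]
    exact AlgHom.card (FL e L K b) L C
  let Θ : (Bˣ ⋊[uact ρ] Γ) → (L →ₐ[FL e L K b] C) := fun h =>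
    (IsScalarTower.toAlgHom (FL e L K b) L C).comp (PsiF e γ ρ L hb h)
  have hΘ : Function.Surjective Θ := by
    intro f
    obtain ⟨h, hh⟩ := exists_emb e γ ρ L hb (S := C) (f : L →+* C) (by
      intro z hz
      have h2 := f.commutes ⟨z, hz⟩
      exact h2)
    refine ⟨h, AlgHom.ext fun z => ?_⟩
    exact congrArg (fun f : L →+* C => f z) hh.symm
  have h2 : Nat.card (L →ₐ[FL e L K b] C) ≤ Nat.card (Bˣ ⋊[uact ρ] Γ) :=
    Nat.card_le_card_of_surjective Θ hΘ
  have h3 : Nat.card (Bˣ ⋊[uact ρ] Γ) ≤ Nat.card (L →ₐ[FL e L K b] L) :=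
    Nat.card_le_card_of_injective _ (PsiF_inj e γ ρ L hb)
  let E : (L ≃ₐ[FL e L K b] L) ≃* (L →ₐ[FL e L K b] L) := algEquivEquivAlgHom _ _
  have h4 : Nat.card (L ≃ₐ[FL e L K b] L) = Nat.card (L →ₐ[FL e L K b] L) :=
    Nat.card_congr E.toEquiv
  have h5 : Nat.card (L ≃ₐ[FL e L K b] L) ≤ Module.finrank (FL e L K b) L := by
    rw [Nat.card_eq_fintype_card]
    exact AlgEquiv.card_le
  have h6 : Nat.card (L ≃ₐ[FL e L K b] L) = Module.finrank (FL e L K b) L := by omega
  have hbij : Function.Bijective (PsiF e γ ρ L hb) := by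
    refine (Nat.bijective_iff_injective_and_card _).mpr ⟨PsiF_inj e γ ρ L hb, by omega⟩
  exact ⟨hfd, IsGalois.of_card_aut_eq_finrank _ _ h6,
    ⟨E.trans (MulEquiv.ofBijective _ hbij).symm⟩⟩

end MP7fS
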