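import Pool.Agent.Lib.MP_7f581e_ntS.LangE
import Pool.Agent.Lib.MP_7f581e_ntR.Hilb

/-!
Generic Lang torsor, part 7: the field of invariants is rational; conclusion.
-/

set_option autoImplicit false
set_option linter.unusedSectionVars false

universe u v

namespace MP7fS

open TensorProduct MP7fR

section

variable {p : ℕ} [Fact p.Prime] {B : Type} [Ring B] [Finite B] [Algebra (ZMod p) B]
variable {ι : Type} [Fintype ι] [DecidableEq ι] (e : Module.Basis ι (ZMod p) B)
variable {K M : Type u} [Field K] [Field M] [Algebra K M] [Algebra (ZMod p) M]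
variable {Γ : Type} [Group Γ] [Finite Γ] (γ : Γ ≃* (M ≃ₐ[K] M)) (ρ : Γ →* (B ≃+* B))
variable (L : Type u) [Field L] [Algebra (MvPolynomial ι M) L]
  [IsFractionRing (MvPolynomial ι M) L] [Algebra M L] [IsScalarTower M (MvPolynomial ι M) L]
  [Algebra (ZMod p) L] [CharP L p] [Algebra K L] [IsScalarTower K M L]
variable {b : Module.Basis ι M (M ⊗[ZMod p] B)} (hb : ∀ i g, sg γ ρ g (b i) = b i)

theorem trdeg_L [Algebra.IsAlgebraic K M] : Cardinal.lift.{u} (Cardinal.mk ι) = Algebra.trdeg K L := by
  have hP : Algebra.IsAlgebraic (MvPolynomial ι M) L :=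
    IsLocalization.isAlgebraic _ (nonZeroDivisors (MvPolynomial ι M))
  have h1 : IsTranscendenceBasis M (algebraMap (MvPolynomial ι M) L ∘ MvPolynomial.X) :=
    (IsTranscendenceBasis.mvPolynomial ι M).algebraMap_comp
  have h2 := h1.lift_cardinalMk_eq_trdeg
  have h3 := trdeg_add_eq K M (A := L)
  rw [trdeg_eq_zero, zero_add] at h3
  rw [h3] at h2
  rw [h2, Cardinal.lift_id']

open scoped IntermediateField.algebraAdjoinAdjoin in
include e in
theorem algebraicIndependent_av [FiniteDimensional K M] [IsGalois K M]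
    [Algebra.IsAlgebraic (FL e L K b) L] : AlgebraicIndependent K (av e L b) := by
  have h1 : Algebra.IsAlgebraic (Algebra.adjoin K (Set.range (av e L b))) L := by
    have h2 : Algebra.IsAlgebraic (IntermediateField.adjoin K (Set.range (av e L b))) L :=
      inferInstanceAs (Algebra.IsAlgebraic (FL e L K b) L)
    exact (IsFractionRing.comap_isAlgebraic_iff
      (K := IntermediateField.adjoin K (Set.range (av e L b)))).mpr h2
  have h2 : IsTranscendenceBasis K (av e L b) := by
    apply Algebra.IsAlgebraic.isTranscendenceBasis_of_lift_le_trdeg_of_finite K (av e L b)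
    rw [← trdeg_L (K := K) (M := M) (ι := ι) L, Cardinal.lift_id']
  exact h2.1

end

/-- Generic Lang torsor: if `Γ` is the group of `M/K`, `K` of characteristic `p`, and `B` is a
finite ring of characteristic `p` with an action of `Γ`, then `Bˣ ⋊ Γ` occurs over a rational
function field over `K`. -/
theorem lang_occurs {p : ℕ} [Fact p.Prime] {B : Type} [Ring B] [Finite B] [Algebra (ZMod p) B]
    {K : Type u} [Field K] [CharP K p] {Γ : Type} [Group Γ] [Finite Γ] (hΓ : Occurs Γ K)
    (ρ : Γ →* (B ≃+* B)) :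
    Occurs (Bˣ ⋊[uact ρ] Γ)
      (FractionRing (MvPolynomial (Fin (Module.finrank (ZMod p) B)) K)) := by
  obtain ⟨M, _, _, hfd, hgal, ⟨γ⟩⟩ := hΓ
  have hM : CharP M p := charP_of_injective_algebraMap (algebraMap K M).injective p
  let _ : Algebra (ZMod p) M := ZMod.algebra M p
  let e := Module.finBasis (ZMod p) B
  let ι := Fin (Module.finrank (ZMod p) B)
  let L := FractionRing (MvPolynomial ι M)
  have hL : CharP L p := charP_of_injective_algebraMap (algebraMap M L).injective p
  obtain ⟨b, hb⟩ := exists_inv_basis (p := p) e γ.symm ρ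
  obtain ⟨h1, h2, ⟨h3⟩⟩ := galois_FL e γ.symm ρ L hb
  have h4 : Algebra.IsAlgebraic (FL e L K b) L := Algebra.IsAlgebraic.of_finite _ _
  have h5 : AlgebraicIndependent K (av e L b) := algebraicIndependent_av e L
  have h6 : Occurs (Bˣ ⋊[uact ρ] Γ) (IntermediateField.adjoin K (Set.range (av e L b))) :=
    ⟨L, inferInstance, inferInstance, h1, h2, ⟨h3⟩⟩
  exact h6.of_ringEquiv h5.aevalEquivField.toRingEquiv

end MP7fS
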