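import Mathlib

/-!
Embedding problems with elementary abelian kernel in characteristic `p`: semilinear algebra.
-/

set_option autoImplicit false
set_option linter.unusedSectionVars false

universe u v

namespace MP7fS

open Polynomial

variable {p n : ℕ}

/-- The embedding of the prime field. -/
def iota (p : ℕ) (R : Type*) [CommRing R] [CharP R p] : ZMod p →+* R :=
  ZMod.castHom (dvd_refl p) R

theorem comp_iota {R S : Type*} [CommRing R] [CommRing S] [CharP R p] [CharP S p]
    (σ : R →+* S) (a : ZMod p) : σ (iota p R a) = iota p S a := by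
  have h : σ.comp (iota p R) = iota p S := Subsingleton.elim _ _
  exact congrArg (fun f : ZMod p →+* S => f a) h

/-- Semilinear maps attached to a matrix over the prime field and a ring homomorphism. -/
def sact {R S : Type*} [CommRing R] [CommRing S] [CharP S p]
    (P : Matrix (Fin n) (Fin n) (ZMod p)) (σ : R →+* S) (v : Fin n → R) : Fin n → S :=
  fun i => ∑ j, iota p S (P i j) * σ (v j)

section
variable {R S T : Type*} [CommRing R] [CommRing S] [CommRing T] [CharP R p] [CharP S p]
  [CharP T p]

theorem sact_add (P : Matrix (Fin n) (Fin n) (ZMod p)) (σ : R →+* S) (v w : Fin n → R) :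
    sact P σ (v + w) = sact P σ v + sact P σ w := by
  ext i
  simp [sact, mul_add, Finset.sum_add_distrib]

theorem sact_sub (P : Matrix (Fin n) (Fin n) (ZMod p)) (σ : R →+* S) (v w : Fin n → R) :
    sact P σ (v - w) = sact P σ v - sact P σ w := by
  ext i
  simp [sact, mul_sub, Finset.sum_sub_distrib]

theorem sact_zero (P : Matrix (Fin n) (Fin n) (ZMod p)) (σ : R →+* S) :
    sact P σ (0 : Fin n → R) = 0 := by
  ext i
  simp [sact]

theorem sact_smul (P : Matrix (Fin n) (Fin n) (ZMod p)) (σ : R →+* S) (a : R) (v : Fin n → R) :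
    sact P σ (fun i => a * v i) = fun i => σ a * sact P σ v i := by
  ext i
  simp only [sact, map_mul, Finset.mul_sum]
  refine Finset.sum_congr rfl fun j _ => ?_
  ring

theorem sact_sum {ι : Type*} (s : Finset ι) (P : Matrix (Fin n) (Fin n) (ZMod p)) (σ : R →+* S)
    (v : ι → Fin n → R) :
    sact P σ (fun i => ∑ k ∈ s, v k i) = fun i => ∑ k ∈ s, sact P σ (v k) i := by
  ext i
  simp only [sact, map_sum, Finset.mul_sum]
  exact Finset.sum_comm

theorem sact_sact (P Q : Matrix (Fin n) (Fin n) (ZMod p)) (σ : S →+* T) (τ : R →+* S)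
    (v : Fin n → R) : sact P σ (sact Q τ v) = sact (P * Q) (σ.comp τ) v := by
  ext i
  simp only [sact, map_sum, map_mul, comp_iota, Matrix.mul_apply, Finset.mul_sum,
    Finset.sum_mul, RingHom.comp_apply]
  rw [Finset.sum_comm]
  refine Finset.sum_congr rfl fun j _ => Finset.sum_congr rfl fun k _ => ?_
  ring

theorem sact_one (σ : R →+* S) (v : Fin n → R) :
    sact (1 : Matrix (Fin n) (Fin n) (ZMod p)) σ v = fun i => σ (v i) := by
  ext i
  simp only [sact]
  rw [Finset.sum_eq_single i]
  · simp
  · intro j _ hj
    rw [Matrix.one_apply_ne hj.symm, map_zero, zero_mul]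
  · intro h
    exact absurd (Finset.mem_univ i) h

theorem sact_const (P : Matrix (Fin n) (Fin n) (ZMod p)) (σ : R →+* S) (w : Fin n → ZMod p) :
    sact P σ (fun i => iota p R (w i)) = fun i => iota p S (P.mulVec w i) := by
  ext i
  simp [sact, comp_iota, Matrix.mulVec, dotProduct, map_sum, map_mul]

/-- The Artin-Schreier operator. -/
def asop (p : ℕ) {R : Type*} [CommRing R] (v : Fin n → R) : Fin n → R := fun i => v i ^ p - v i

theorem asop_sub [Fact p.Prime] (v w : Fin n → R) :
    asop p (v - w) = asop p v - asop p w := by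
  ext i
  simp only [asop, Pi.sub_apply]
  rw [sub_pow_char]
  ring

theorem asop_add [Fact p.Prime] (v w : Fin n → R) :
    asop p (v + w) = asop p v + asop p w := by
  ext i
  simp only [asop, Pi.add_apply]
  rw [add_pow_char]
  ring

theorem asop_sact [Fact p.Prime] (P : Matrix (Fin n) (Fin n) (ZMod p)) (σ : R →+* S)
    (v : Fin n → R) : asop p (sact P σ v) = sact P σ (asop p v) := by
  ext i
  simp only [asop, sact]
  rw [sum_pow_char p, ← Finset.sum_sub_distrib]
  refine Finset.sum_congr rfl fun j _ => ?_
  have h : iota p S (P i j) ^ p = iota p S (P i j) := by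
    rw [← map_pow, ZMod.pow_card]
  rw [mul_pow, h, map_sub, map_pow]
  ring

theorem asop_const [Fact p.Prime] (w : Fin n → ZMod p) :
    asop p (fun i => iota p R (w i)) = 0 := by
  ext i
  simp only [asop, Pi.zero_apply]
  rw [← map_pow, ZMod.pow_card, sub_self]

end

theorem exists_of_asop_eq_zero {R : Type*} [Field R] [CharP R p] [Fact p.Prime]
    (v : Fin n → R) (h : asop p v = 0) : ∃ w : Fin n → ZMod p, v = fun i => iota p R (w i) := by
  classical
  have key : ∀ y : R, y ^ p - y = 0 → ∃ c : ZMod p, iota p R c = y := by
    intro y hy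
    have hp : 1 < p := (Fact.out : p.Prime).one_lt
    by_contra hcon
    push Not at hcon
    have hinj : Function.Injective (iota p R) := (iota p R).injective
    have hne : (X ^ p - X : R[X]) ≠ 0 := FiniteField.X_pow_card_sub_X_ne_zero R hp
    have hsub : insert y (Finset.univ.image (iota p R)) ⊆ (X ^ p - X : R[X]).roots.toFinset := by
      intro z hz
      rw [Multiset.mem_toFinset, mem_roots hne]
      rcases Finset.mem_insert.mp hz with rfl | hz
      · simpa [IsRoot] using hy
      · obtain ⟨c, _, rfl⟩ := Finset.mem_image.mp hz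
        have : iota p R c ^ p = iota p R c := by rw [← map_pow, ZMod.pow_card]
        simp [IsRoot, this]
    have hcard := Finset.card_le_card hsub
    rw [Finset.card_insert_of_notMem (by
      intro hy'
      obtain ⟨c, _, hc⟩ := Finset.mem_image.mp hy'
      exact hcon c hc), Finset.card_image_of_injective _ hinj, Finset.card_univ, ZMod.card] at hcard
    have h2 : (X ^ p - X : R[X]).roots.toFinset.card ≤ p := by
      refine (Multiset.toFinset_card_le _).trans ?_
      refine (card_roots' _).trans ?_
      rw [FiniteField.X_pow_card_sub_X_natDegree_eq R hp]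
    omega
  choose w hw using fun i => key (v i) (congrFun h i)
  exact ⟨w, funext fun i => (hw i).symm⟩

end MP7fS
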