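import Pool.Agent.Lib.MP_7f581e_ntS.PKerA

/-!
Embedding problems with elementary abelian kernel in characteristic `p`: the splitting
cochain `b`, the vector `c` and the invariant vector `κ`.
-/

set_option autoImplicit false
set_option linter.unusedSectionVars false

universe u v

namespace MP7fS

open Polynomial

variable {p n : ℕ} [Fact p.Prime] {K M : Type u} [Field K] [Field M] [CharP M p] [Algebra K M]
  [FiniteDimensional K M] [IsGalois K M] {E : Type} [Group E] [Finite E]

/-- An extension of `Gal(M/K)` by the elementary abelian group `(ZMod p)^n`. -/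
structure Ext (p n : ℕ) (K M : Type u) [Field K] [Field M] [Algebra K M] (E : Type)
    [Group E] where
  /-- the inclusion of the kernel -/
  th : Multiplicative (Fin n → ZMod p) →* E
  th_inj : Function.Injective th
  /-- the projection -/
  pi : E →* (M ≃ₐ[K] M)
  pi_surj : Function.Surjective pi
  ker : ∀ x, pi x = 1 ↔ ∃ w, th (Multiplicative.ofAdd w) = x
  /-- the conjugation action -/
  P : E →* Matrix (Fin n) (Fin n) (ZMod p)
  hP : ∀ x w, x * th (Multiplicative.ofAdd w) * x⁻¹ = th (Multiplicative.ofAdd ((P x).mulVec w))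

namespace Ext

variable (X : Ext p n K M E)

/-- The inclusion, additively written. -/
def t (w : Fin n → ZMod p) : E := X.th (Multiplicative.ofAdd w)

theorem t_add (v w : Fin n → ZMod p) : X.t (v + w) = X.t v * X.t w := by
  simp [t, ofAdd_add, map_mul]

theorem t_zero : X.t 0 = 1 := by simp [t]

theorem t_inj {v w : Fin n → ZMod p} (h : X.t v = X.t w) : v = w :=
  Multiplicative.ofAdd.injective (X.th_inj h)

theorem pi_t (w : Fin n → ZMod p) : X.pi (X.t w) = 1 := (X.ker _).mpr ⟨w, rfl⟩

theorem conj (x : E) (w : Fin n → ZMod p) : x * X.t w * x⁻¹ = X.t ((X.P x).mulVec w) := X.hP x w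

theorem P_t (w : Fin n → ZMod p) : X.P (X.t w) = 1 := by
  have h : ∀ v : Fin n → ZMod p, (X.P (X.t w)).mulVec v = v := by
    intro v
    apply X.t_inj
    rw [← X.conj, ← X.t_add, add_comm, X.t_add]
    group
  apply Matrix.toLin'.injective
  ext v i
  simp [h]

/-- The semilinear action of `E`. -/
def act (x : E) (v : Fin n → M) : Fin n → M := sact (X.P x) (X.pi x : M →+* M) v

theorem act_act (x y : E) (v : Fin n → M) : X.act x (X.act y v) = X.act (x * y) v := by
  simp only [act, sact_sact, map_mul]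
  rfl

theorem act_t (w : Fin n → ZMod p) (v : Fin n → M) : X.act (X.t w) v = v := by
  simp only [act, X.P_t, X.pi_t, sact_one]
  rfl

theorem act_add (x : E) (v w : Fin n → M) : X.act x (v + w) = X.act x v + X.act x w :=
  sact_add _ _ _ _

theorem act_sub (x : E) (v w : Fin n → M) : X.act x (v - w) = X.act x v - X.act x w :=
  sact_sub _ _ _ _

/-- A section of the projection. -/
noncomputable def s (g : M ≃ₐ[K] M) : E := Function.surjInv X.pi_surj g

theorem pi_s (g : M ≃ₐ[K] M) : X.pi (X.s g) = g := Function.surjInv_eq X.pi_surj g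

theorem exists_trace_one (K M : Type u) [Field K] [Field M] [Algebra K M]
    [FiniteDimensional K M] [IsGalois K M] : ∃ u : M, ∑ g : M ≃ₐ[K] M, g u = 1 := by
  obtain ⟨u, hu⟩ := Algebra.trace_surjective K M 1
  refine ⟨u, ?_⟩
  rw [← trace_eq_sum_automorphisms, hu, map_one]

theorem exists_tau (x : E) (h : M ≃ₐ[K] M) :
    ∃ w, X.t w = x * X.s h * (X.s (X.pi x * h))⁻¹ := by
  apply (X.ker _).mp
  simp [map_mul, map_inv, X.pi_s]

/-- The splitting cochain. -/
theorem exists_b : ∃ b : E → Fin n → M, (∀ x y, b (x * y) = b x + X.act x (b y)) ∧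
    ∀ w, b (X.t w) = fun i => iota p M (w i) := by
  classical
  choose τ hτ using X.exists_tau
  obtain ⟨u, hu⟩ := exists_trace_one K M
  have key : ∀ x y h, τ (x * y) h = (X.P x).mulVec (τ y h) + τ x (X.pi y * h) := by
    intro x y h
    apply X.t_inj
    rw [X.t_add, ← X.conj, hτ, hτ, hτ, map_mul, mul_assoc (X.pi x)]
    group
  have keyt : ∀ w h, τ (X.t w) h = w := by
    intro w h
    apply X.t_inj
    rw [hτ, X.pi_t, one_mul]
    group
  refine ⟨fun x i => ∑ h : M ≃ₐ[K] M, iota p M (τ x h i) * (X.pi x * h) u, ?_, ?_⟩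
  · intro x y
    have h1 : X.act x (fun i => ∑ h : M ≃ₐ[K] M, iota p M (τ y h i) * (X.pi y * h) u) =
        fun i => ∑ h : M ≃ₐ[K] M, iota p M ((X.P x).mulVec (τ y h) i) *
          (X.pi (x * y) * h) u := by
      have h2 := sact_sum (p := p) Finset.univ (X.P x) (X.pi x : M →+* M)
        (fun (h : M ≃ₐ[K] M) i => (X.pi y * h) u * iota p M (τ y h i))
      have h3 : (fun i => ∑ h : M ≃ₐ[K] M, iota p M (τ y h i) * (X.pi y * h) u) =
          fun i => ∑ h : M ≃ₐ[K] M, (X.pi y * h) u * iota p M (τ y h i) := by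
        ext i
        exact Finset.sum_congr rfl fun h _ => mul_comm _ _
      rw [act, h3, h2]
      ext i
      refine Finset.sum_congr rfl fun h _ => ?_
      rw [sact_smul (X.P x) (X.pi x : M →+* M) ((X.pi y * h) u) (fun i => iota p M (τ y h i)),
        sact_const]
      rw [mul_comm]
      congr 1
      rw [map_mul, mul_assoc]
      rfl
    rw [h1]
    ext i
    simp only [Pi.add_apply]
    have h4 : ∑ h : M ≃ₐ[K] M, iota p M (τ x h i) * (X.pi x * h) u =
        ∑ h : M ≃ₐ[K] M, iota p M (τ x (X.pi y * h) i) * (X.pi (x * y) * h) u := by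
      rw [← Equiv.sum_comp (Equiv.mulLeft (X.pi y))]
      refine Finset.sum_congr rfl fun h _ => ?_
      simp only [Equiv.coe_mulLeft]
      rw [map_mul, mul_assoc (X.pi x)]
    rw [h4, ← Finset.sum_add_distrib]
    refine Finset.sum_congr rfl fun h _ => ?_
    rw [key, Pi.add_apply, map_add]
    ring
  · intro w
    ext i
    simp only [keyt, X.pi_t, one_mul]
    rw [← Finset.mul_sum, hu, mul_one]

/-- Additive Hilbert 90. -/
theorem exists_c (β : E → Fin n → M) (h1 : ∀ x y, β (x * y) = β x + X.act x (β y))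
    (h2 : ∀ w, β (X.t w) = 0) : ∃ c : Fin n → M, ∀ x, X.act x c = c + β x := by
  classical
  obtain ⟨u, hu⟩ := exists_trace_one K M
  have hs : ∀ x h, β (x * X.s h) = β (X.s (X.pi x * h)) := by
    intro x h
    obtain ⟨w, hw⟩ := X.exists_tau x h
    have h3 : x * X.s h = X.t w * X.s (X.pi x * h) := by
      rw [hw]
      group
    rw [h3, h1, h2, X.act_t, zero_add]
  let c : Fin n → M := fun i => ∑ h : M ≃ₐ[K] M, h u * β (X.s h) i
  refine ⟨-c, fun x => ?_⟩
  have h4 : X.act x c = c - β x := by
    have h5 := sact_sum (p := p) Finset.univ (X.P x) (X.pi x : M →+* M)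
        (fun (h : M ≃ₐ[K] M) i => h u * β (X.s h) i)
    rw [act, h5]
    ext i
    simp only [Pi.sub_apply]
    have h6 : ∀ h : M ≃ₐ[K] M, sact (X.P x) (X.pi x : M →+* M) (fun i => h u * β (X.s h) i) i =
        (X.pi x * h) u * β (X.s (X.pi x * h)) i - (X.pi x * h) u * β x i := by
      intro h
      rw [sact_smul (X.P x) (X.pi x : M →+* M) (h u) (β (X.s h))]
      have h7 := congrFun (h1 x (X.s h)) i
      rw [hs, Pi.add_apply, act] at h7
      rw [h7]
      change (X.pi x * h) u * _ = _
      ring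
    simp only [h6]
    rw [Finset.sum_sub_distrib, ← Finset.sum_mul]
    have h8 : ∑ h : M ≃ₐ[K] M, (X.pi x * h) u = 1 := by
      rw [← hu]
      exact Equiv.sum_comp (Equiv.mulLeft (X.pi x)) (fun h : M ≃ₐ[K] M => h u)
    rw [h8, one_mul]
    congr 1
    exact Equiv.sum_comp (Equiv.mulLeft (X.pi x)) (fun h : M ≃ₐ[K] M => h u * β (X.s h) i)
  have h9 : X.act x (-c) = -X.act x c := by
    have := X.act_sub x 0 c
    rw [zero_sub, act, act, sact_zero, zero_sub] at this
    exact this
  rw [h9, h4]
  abel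

end Ext

end MP7fS
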