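import Pool.Agent.Lib.MP_7f581e_ntS.PKerB

/-!
Embedding problems with elementary abelian kernel in characteristic `p`: the invariant vector.
-/

set_option autoImplicit false
set_option linter.unusedSectionVars false

universe u v

namespace MP7fS

open Polynomial

variable {p n : ℕ} [Fact p.Prime] {K M : Type u} [Field K] [Field M] [CharP M p] [Algebra K M]
  [FiniteDimensional K M] [IsGalois K M] {E : Type} [Group E] [Finite E]

namespace Ext

variable (X : Ext p n K M E)

/-- The value of a linear form with coefficients in the prime field. -/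
def lam (lm : Fin n → ZMod p) {R : Type*} [CommRing R] [CharP R p] (v : Fin n → R) : R :=
  ∑ i, iota p R (lm i) * v i

/-- The invariant vectors. -/
def inv : Submodule K (Fin n → M) where
  carrier := {v | ∀ x, X.act x v = v}
  add_mem' := by
    intro a b ha hb x
    rw [X.act_add, ha, hb]
  zero_mem' := by
    intro x
    simp only [act, sact_zero]
  smul_mem' := by
    intro c v hv x
    have h := sact_smul (X.P x) (X.pi x : M →+* M) (algebraMap K M c) v
    have h1 : c • v = fun i => algebraMap K M c * v i := by
      ext i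
      rw [Pi.smul_apply, Algebra.smul_def]
    change X.act x (c • v) = c • v
    rw [h1, act, h]
    ext i
    have h2 : (X.pi x : M →+* M) (algebraMap K M c) = algebraMap K M c := (X.pi x).commutes c
    rw [h2]
    have h3 := congrFun (hv x) i
    rw [act] at h3
    rw [h3]

theorem mem_inv {v : Fin n → M} : v ∈ X.inv ↔ ∀ x, X.act x v = v := Iff.rfl

/-- The trace of a vector is invariant. -/
theorem trace_mem (v : Fin n → M) :
    (fun i => ∑ h : M ≃ₐ[K] M, X.act (X.s h) v i) ∈ X.inv := by
  classical
  intro x
  have h1 := sact_sum (p := p) Finset.univ (X.P x) (X.pi x : M →+* M)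
    (fun (h : M ≃ₐ[K] M) i => X.act (X.s h) v i)
  rw [act, h1]
  ext i
  have h2 : ∀ h : M ≃ₐ[K] M, sact (X.P x) (X.pi x : M →+* M) (X.act (X.s h) v) i =
      X.act (X.s (X.pi x * h)) v i := by
    intro h
    change X.act x (X.act (X.s h) v) i = _
    rw [X.act_act]
    obtain ⟨w, hw⟩ := X.exists_tau x h
    have h3 : x * X.s h = X.t w * X.s (X.pi x * h) := by
      rw [hw]
      group
    rw [h3, ← X.act_act, X.act_t]
  simp only [h2]
  exact Equiv.sum_comp (Equiv.mulLeft (X.pi x)) (fun h : M ≃ₐ[K] M => X.act (X.s h) v i)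

theorem exists_inv_ne (lm : Fin n → ZMod p) (hlm : lm ≠ 0) :
    ∃ v ∈ X.inv, lam lm v ≠ 0 := by
  classical
  by_contra hcon
  push Not at hcon
  obtain ⟨u, hu⟩ := exists_trace_one K M
  -- the coefficient of `h` in `lam lm (trace (m e_i))`
  let co : Fin n → (M ≃ₐ[K] M) → ZMod p := fun i h => ∑ j, lm j * X.P (X.s h) j i
  have key : ∀ i, ∀ h, co i h = 0 := by
    intro i
    have h1 : ∀ m : M, ∑ h : M ≃ₐ[K] M, iota p M (co i h) * h m = 0 := by
      intro m
      have h2 := hcon _ (X.trace_mem (fun j => if j = i then m else 0))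
      rw [← h2, lam]
      simp only [co, map_sum, Finset.sum_mul, Finset.mul_sum, act, sact]
      rw [Finset.sum_comm]
      refine Finset.sum_congr rfl fun j _ => Finset.sum_congr rfl fun h _ => ?_
      rw [Finset.sum_eq_single i]
      · rw [if_pos rfl, map_mul, mul_assoc, X.pi_s]
        rfl
      · intro k _ hk
        rw [if_neg hk, map_zero, mul_zero, mul_zero]
      · intro hi
        exact absurd (Finset.mem_univ i) hi
    have h3 : LinearIndependent M (fun h : M ≃ₐ[K] M => ((h : M →* M) : M → M)) :=
      (linearIndependent_monoidHom M M).comp (fun h : M ≃ₐ[K] M => (h : M →* M)) (by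
        intro a b hab
        ext m
        exact congrArg (fun f : M →* M => f m) hab)
    intro h
    have h4 := (Fintype.linearIndependent_iff.mp h3) (fun h => iota p M (co i h)) (by
      funext m
      simpa using h1 m) h
    exact (iota p M).injective (h4.trans (map_zero _).symm)
  apply hlm
  have h5 : X.P (X.s 1) = 1 := by
    obtain ⟨w, hw⟩ := (X.ker (X.s 1)).mp (X.pi_s 1)
    rw [← hw]
    exact X.P_t w
  ext i
  have h6 := key i 1
  simp only [co, h5] at h6
  rw [Finset.sum_eq_single i] at h6
  · simpa using h6
  · intro j _ hj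
    rw [Matrix.one_apply_ne hj, mul_zero]
  · intro hi
    exact absurd (Finset.mem_univ i) hi

theorem exists_kappa [Infinite K] :
    ∃ κ ∈ X.inv, ∀ lm : Fin n → ZMod p, lm ≠ 0 → lam lm κ ≠ 0 := by
  classical
  -- the kernel of `lam lm` on the invariants
  let U : (Fin n → ZMod p) → Submodule K X.inv := fun lm =>
    { carrier := {v | lam lm (v : Fin n → M) = 0}
      add_mem' := by
        intro a b ha hb
        have ha' : lam lm (a : Fin n → M) = 0 := ha
        have hb' : lam lm (b : Fin n → M) = 0 := hb
        change lam lm ((a : Fin n → M) + (b : Fin n → M)) = 0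
        simp only [lam, Pi.add_apply, mul_add, Finset.sum_add_distrib] at ha' hb' ⊢
        rw [ha', hb', add_zero]
      zero_mem' := by
        change lam lm ((0 : X.inv) : Fin n → M) = 0
        simp [lam]
      smul_mem' := by
        intro c v hv
        have hv' : lam lm (v : Fin n → M) = 0 := hv
        change lam lm (c • (v : Fin n → M)) = 0
        have : lam lm (c • (v : Fin n → M)) = c • lam lm (v : Fin n → M) := by
          simp only [lam, Finset.smul_sum, Pi.smul_apply, mul_smul_comm]
        rw [this, hv', smul_zero] }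
  by_contra hcon
  push Not at hcon
  have h1 : ⋃ q ∈ (Finset.univ.filter (fun lm : Fin n → ZMod p => lm ≠ 0)).image U,
      (q : Set X.inv) = Set.univ := by
    rw [Set.eq_univ_iff_forall]
    intro v
    obtain ⟨lm, h2, h3⟩ := hcon v.1 v.2
    simp only [Set.mem_iUnion]
    refine ⟨U lm, Finset.mem_image_of_mem _ (Finset.mem_filter.mpr ⟨Finset.mem_univ _, h2⟩), h3⟩
  have h2 := Subspace.top_mem_of_biUnion_eq_univ h1
  obtain ⟨lm, h3, h4⟩ := Finset.mem_image.mp h2
  obtain ⟨v, hv, hne⟩ := X.exists_inv_ne lm (Finset.mem_filter.mp h3).2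
  apply hne
  have h5 : (⟨v, hv⟩ : X.inv) ∈ U lm := by
    rw [h4]
    exact Submodule.mem_top
  exact h5

end Ext

end MP7fS
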