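import Pool.Agent.Lib.MP_7f581e_ntR.Reg

/-!
General facts: finite quotients of the group of a separable closure, and the extension
`M(t)/K(t)`.
-/

set_option autoImplicit false
set_option linter.unusedSectionVars false

universe u v

namespace MP7fS

open Polynomial IntermediateField MP7fR

/-- A finite quotient of an absolute Galois group. -/
theorem occurs_of_hom {F : Type u} [Field F] {Ω : Type u} [Field Ω] [Algebra F Ω] [IsGalois F Ω]
    {E : Type} [Group E] (Φ : (Ω ≃ₐ[F] Ω) →* E) (hΦ : Function.Surjective Φ)
    (L : IntermediateField F Ω) [FiniteDimensional F L] (hL : Φ.ker = L.fixingSubgroup) :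
    Occurs E F := by
  have hn : L.fixingSubgroup.Normal := by
    rw [← hL]
    infer_instance
  have hg : IsGalois F L := (InfiniteGalois.normal_iff_isGalois L).mp hn
  refine ⟨L, inferInstance, inferInstance, inferInstance, hg, ⟨?_⟩⟩
  have h1 : Function.Surjective (AlgEquiv.restrictNormalHom (F := F) (K₁ := Ω) L) :=
    AlgEquiv.restrictNormalHom_surjective Ω
  have h2 : (AlgEquiv.restrictNormalHom (F := F) (K₁ := Ω) L).ker = Φ.ker := by
    rw [hL]
    exact IntermediateField.restrictNormalHom_ker L
  exact (QuotientGroup.quotientKerEquivOfSurjective _ h1).symm.trans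
    ((QuotientGroup.quotientMulEquivOfEq h2).trans
      (QuotientGroup.quotientKerEquivOfSurjective Φ hΦ))

variable {K M : Type u} [Field K] [Field M] [Algebra K M] [FiniteDimensional K M] [IsGalois K M]

/-- `M(t)` is separable over `K(t)`. -/
theorem separable_tau : letI := (tau K M).toAlgebra; Algebra.IsSeparable (RatFunc K) (RatFunc M) := by
  letI := (tau K M).toAlgebra
  let S : Set (RatFunc M) := Set.range (algebraMap M (RatFunc M))
  have hmap : ∀ c : K, algebraMap (RatFunc K) (RatFunc M) (algebraMap K (RatFunc K) c) =
      algebraMap M (RatFunc M) (algebraMap K M c) := fun c => tau_algebraMap' K M c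
  have hsep : ∀ x ∈ S, IsSeparable (RatFunc K) x := by
    rintro _ ⟨m, rfl⟩
    have h1 : (minpoly K m).Separable := Algebra.IsSeparable.isSeparable K m
    have h2 : ((minpoly K m).map (algebraMap K (RatFunc K))).Separable :=
      Polynomial.Separable.map h1
    have h3 : minpoly (RatFunc K) (algebraMap M (RatFunc M) m) ∣
        (minpoly K m).map (algebraMap K (RatFunc K)) := by
      apply minpoly.dvd
      rw [aeval_def, eval₂_map]
      have h4 : (algebraMap (RatFunc K) (RatFunc M)).comp (algebraMap K (RatFunc K)) =
          (algebraMap M (RatFunc M)).comp (algebraMap K M) := by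
        ext c
        exact hmap c
      rw [h4, ← hom_eval₂, ← aeval_def, minpoly.aeval, map_zero]
    exact h2.of_dvd h3
  have htop : IntermediateField.adjoin (RatFunc K) S = ⊤ := by
    rw [eq_top_iff]
    rintro x -
    obtain ⟨a, b, hb, rfl⟩ := IsFractionRing.div_surjective (A := M[X]) x
    have hpoly : ∀ q : M[X], algebraMap M[X] (RatFunc M) q ∈
        IntermediateField.adjoin (RatFunc K) S := by
      intro q
      induction q using Polynomial.induction_on' with
      | add q r hq hr =>
        rw [map_add]
        exact add_mem hq hr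
      | monomial k a =>
        rw [← C_mul_X_pow_eq_monomial, map_mul, map_pow]
        refine mul_mem ?_ (pow_mem ?_ _)
        · apply IntermediateField.subset_adjoin
          exact ⟨a, (IsScalarTower.algebraMap_apply M M[X] (RatFunc M) a)⟩
        · have h5 : algebraMap M[X] (RatFunc M) X =
              algebraMap (RatFunc K) (RatFunc M) (algebraMap K[X] (RatFunc K) X) := by
            have := tau_algebraMap K M X
            rw [Polynomial.map_X] at this
            exact this.symm
          rw [h5]
          exact IntermediateField.algebraMap_mem _ _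
    exact div_mem (hpoly a) (hpoly b)
  have h6 : Algebra.IsSeparable (RatFunc K) (IntermediateField.adjoin (RatFunc K) S) :=
    (IntermediateField.isSeparable_adjoin_iff_isSeparable _ _).mpr hsep
  rw [htop] at h6
  exact AlgEquiv.Algebra.isSeparable (IntermediateField.topEquiv (F := RatFunc K)
    (E := RatFunc M))

/-- The automorphism of `M(t)` induced by an automorphism of `M`. -/
theorem exists_ratFunc_aut (g : M ≃ₐ[K] M) : letI := (tau K M).toAlgebra;
    ∃ G : RatFunc M ≃ₐ[RatFunc K] RatFunc M, ∀ m : M,
      G (algebraMap M (RatFunc M) m) = algebraMap M (RatFunc M) (g m) := by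
  letI := (tau K M).toAlgebra
  let G0 : RatFunc M ≃+* RatFunc M := IsFractionRing.ringEquivOfRingEquiv (A := M[X]) (B := M[X])
    (Polynomial.mapEquiv g.toRingEquiv)
  have hG0 : ∀ q : M[X], G0 (algebraMap M[X] (RatFunc M) q) =
      algebraMap M[X] (RatFunc M) (q.map (g : M →+* M)) := by
    intro q
    exact IsFractionRing.ringEquivOfRingEquiv_algebraMap (Polynomial.mapEquiv g.toRingEquiv) q
  have hcomp : (G0 : RatFunc M →+* RatFunc M).comp (tau K M) = tau K M := by
    apply IsLocalization.ringHom_ext (nonZeroDivisors K[X])
    apply RingHom.ext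
    intro q
    simp only [RingHom.comp_apply, tau_algebraMap]
    change G0 _ = _
    rw [hG0, Polynomial.map_map]
    congr 2
    ext c
    simp
  refine ⟨AlgEquiv.ofRingEquiv (f := G0) (fun r => congrArg (fun f : RatFunc K →+* RatFunc M => f r)
    hcomp), fun m => ?_⟩
  change G0 _ = _
  rw [IsScalarTower.algebraMap_apply M M[X] (RatFunc M), hG0,
    IsScalarTower.algebraMap_apply M M[X] (RatFunc M)]
  congr 1
  simp

/-- A linear polynomial is not an Artin-Schreier value in `M(t)`. -/
theorem ne_asop (p : ℕ) [Fact p.Prime] (z : RatFunc M) (a b : M) (hb : b ≠ 0) :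
    z ^ p - z ≠ algebraMap M[X] (RatFunc M) (C a + C b * X) := by
  intro h
  have hp : 1 < p := (Fact.out : p.Prime).one_lt
  have hint : IsIntegral M[X] z := by
    refine ⟨X ^ p - X - C (C a + C b * X), ?_, ?_⟩
    · have : (X ^ p - X - C (C a + C b * X) : M[X][X]) = X ^ p - (X + C (C a + C b * X)) := by
        ring
      rw [this]
      apply (monic_X_pow p).sub_of_left
      rw [degree_X_add_C, degree_X_pow]
      exact_mod_cast hp
    · rw [eval₂_sub, eval₂_sub, eval₂_pow, eval₂_X, eval₂_C, h, sub_self]
  obtain ⟨q, hq⟩ := IsIntegrallyClosed.isIntegral_iff.mp hint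
  have h1 : q ^ p - q = C a + C b * X := by
    apply IsFractionRing.injective M[X] (RatFunc M)
    rw [map_sub, map_pow, hq, h]
  have h2 : (C a + C b * X : M[X]).natDegree = 1 := by
    rw [add_comm]
    exact natDegree_linear hb
  rcases Nat.eq_zero_or_pos q.natDegree with h3 | h3
  · rw [eq_C_of_natDegree_eq_zero h3, ← C_pow, ← C_sub] at h1
    rw [← h1, natDegree_C] at h2
    exact absurd h2 (by norm_num)
  · have h4 : (q ^ p - q).natDegree = p * q.natDegree := by
      rw [natDegree_sub_eq_left_of_natDegree_lt, natDegree_pow]
      rw [natDegree_pow]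
      nlinarith
    rw [h1, h2] at h4
    nlinarith

end MP7fS
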