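import Pool.Agent.Lib.MP_7f581e_ntS.PKerC
import Pool.Agent.Lib.MP_7f581e_ntS.PKerD

/-!
Embedding problems with elementary abelian kernel in characteristic `p` are solvable over the
rational function field.
-/

set_option autoImplicit false
set_option linter.unusedSectionVars false

universe u v

namespace MP7fS

open Polynomial IntermediateField MP7fR

variable {p n : ℕ} [Fact p.Prime] {K M : Type u} [Field K] [Field M] [CharP M p] [Algebra K M]
  [FiniteDimensional K M] [IsGalois K M] {E : Type} [Group E] [Finite E]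

theorem exists_y (Ω : Type u) [Field Ω] [IsSepClosed Ω] [CharP Ω p] (v : Fin n → Ω) :
    ∃ y : Fin n → Ω, asop p y = v := by
  have hp : 1 < p := (Fact.out : p.Prime).one_lt
  have key : ∀ a : Ω, ∃ z : Ω, z ^ p - z = a := by
    intro a
    have h1 : (X ^ p - X - C a : Polynomial Ω) = X ^ p - (Polynomial.X + C a) := by ring
    have hdeg : (X ^ p - X - C a : Polynomial Ω).degree = p := by
      rw [h1, degree_sub_eq_left_of_degree_lt, degree_X_pow]
      rw [degree_X_add_C, degree_X_pow]
      exact_mod_cast hp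
    have hsep : (X ^ p - X - C a : Polynomial Ω).Separable := by
      rw [Polynomial.separable_def']
      refine ⟨0, -1, ?_⟩
      have h0 : derivative (X ^ p : Polynomial Ω) = 0 := by
        rw [derivative_X_pow, CharP.cast_eq_zero, map_zero, zero_mul]
      rw [derivative_sub, derivative_sub, h0, derivative_X, derivative_C]
      ring
    obtain ⟨z, hz⟩ := IsSepClosed.exists_root (X ^ p - X - C a : Polynomial Ω) (by
      rw [hdeg]
      exact_mod_cast (by omega : p ≠ 0)) hsep
    refine ⟨z, ?_⟩
    have : z ^ p - z - a = 0 := by simpa [IsRoot] using hz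
    exact sub_eq_zero.mp this
  choose y hy using fun i => key (v i)
  exact ⟨y, funext hy⟩

namespace Ext

variable (X : Ext p n K M E)

include X

theorem sol_aux [Infinite K] (Ω : Type u) [Field Ω] [Algebra (RatFunc K) Ω]
    [IsGalois (RatFunc K) Ω] [IsSepClosed Ω] :
    ∃ Φ : (Ω ≃ₐ[RatFunc K] Ω) →* E, Function.Surjective Φ ∧
      ∃ L : IntermediateField (RatFunc K) Ω, FiniteDimensional (RatFunc K) L ∧
        Φ.ker = L.fixingSubgroup ∧ ∃ i : M →+* Ω,
          (∀ a : K, i (algebraMap K M a) =
            algebraMap (RatFunc K) Ω (algebraMap K (RatFunc K) a)) ∧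
          ∀ (σ : Ω ≃ₐ[RatFunc K] Ω) (x : M), σ (i x) = i (X.pi (Φ σ) x) := by
  classical
  let _ : Algebra (RatFunc K) (RatFunc M) := (tau K M).toAlgebra
  have hsepN : Algebra.IsSeparable (RatFunc K) (RatFunc M) := separable_tau
  let j : RatFunc M →ₐ[RatFunc K] Ω := IsSepClosed.lift
  let _ : Algebra (RatFunc M) Ω := j.toRingHom.toAlgebra
  have hN : IsScalarTower (RatFunc K) (RatFunc M) Ω :=
    IsScalarTower.of_algebraMap_eq (fun x => (j.commutes x).symm)
  let _ : Algebra M Ω := ((algebraMap (RatFunc M) Ω).comp (algebraMap M (RatFunc M))).toAlgebra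
  have hMN : IsScalarTower M (RatFunc M) Ω := IsScalarTower.of_algebraMap_eq (fun _ => rfl)
  let _ : Algebra K Ω := ((algebraMap (RatFunc K) Ω).comp (algebraMap K (RatFunc K))).toAlgebra
  have hKN : IsScalarTower K (RatFunc K) Ω := IsScalarTower.of_algebraMap_eq (fun _ => rfl)
  have hKM : IsScalarTower K M Ω := by
    refine IsScalarTower.of_algebraMap_eq (fun c => ?_)
    rw [IsScalarTower.algebraMap_apply K (RatFunc K) Ω, IsScalarTower.algebraMap_apply
      (RatFunc K) (RatFunc M) Ω, IsScalarTower.algebraMap_apply M (RatFunc M) Ω]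
    exact congrArg _ (tau_algebraMap' K M c)
  have hcharΩ : CharP Ω p := charP_of_injective_algebraMap (algebraMap M Ω).injective p
  let ρ : (Ω ≃ₐ[RatFunc K] Ω) →* (M ≃ₐ[K] M) :=
    (AlgEquiv.restrictNormalHom M).comp (AlgEquiv.restrictScalarsHom K)
  have hρ : ∀ (σ : Ω ≃ₐ[RatFunc K] Ω) (m : M),
      σ (algebraMap M Ω m) = algebraMap M Ω (ρ σ m) := by
    intro σ m
    exact (AlgEquiv.restrictNormal_commutes (σ.restrictScalars K) M m).symm
  -- the data
  obtain ⟨b, hb, hbt⟩ := X.exists_b
  have hb1 : b 1 = 0 := by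
    rw [← X.t_zero, hbt]
    ext i
    simp
  obtain ⟨c, hc⟩ := X.exists_c (fun x => asop p (b x)) (by
    intro x y
    rw [hb, asop_add]
    exact congrArg _ (asop_sact _ _ _)) (by
    intro w
    rw [hbt]
    exact asop_const w)
  obtain ⟨κ, hκ, hκ'⟩ := X.exists_kappa
  let tΩ : Ω := algebraMap (RatFunc K) Ω (algebraMap K[X] (RatFunc K) Polynomial.X)
  let up : (Fin n → M) → (Fin n → Ω) := fun v i => algebraMap M Ω (v i)
  obtain ⟨y, hy⟩ := exists_y (p := p) Ω (fun i => up c i + tΩ * up κ i)
  have hup : ∀ (σ : Ω ≃ₐ[RatFunc K] Ω) (x : E) (v : Fin n → M), X.pi x = ρ σ →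
      sact (X.P x) (σ : Ω →+* Ω) (up v) = up (X.act x v) := by
    intro σ x v hx
    ext i
    simp only [sact, up, act, map_sum, map_mul, comp_iota]
    refine Finset.sum_congr rfl fun k _ => ?_
    congr 1
    change σ (algebraMap M Ω (v k)) = algebraMap M Ω (X.pi x (v k))
    rw [hρ, hx]
  have hupadd : ∀ v w : Fin n → M, up (v + w) = up v + up w := by
    intro v w
    ext i
    simp [up]
  have hupas : ∀ v : Fin n → M, up (asop p v) = asop p (up v) := by
    intro v
    ext i
    simp [up, asop]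
  have hupinj : Function.Injective up := by
    intro v w h
    ext i
    exact (algebraMap M Ω).injective (congrFun h i)
  have hexu : ∀ σ : Ω ≃ₐ[RatFunc K] Ω, ∃ x : E, X.pi x = ρ σ ∧
      sact (X.P x) (σ : Ω →+* Ω) y = y + up (b x) := by
    intro σ
    obtain ⟨x, hx⟩ := X.pi_surj (ρ σ)
    have h1 : asop p (sact (X.P x) (σ : Ω →+* Ω) y - (y + up (b x))) = 0 := by
      rw [asop_sub, asop_add, asop_sact, hy]
      have h2 : (fun i => up c i + tΩ * up κ i) = up c + fun i => tΩ * up κ i := rfl
      rw [h2, sact_add, sact_smul, hup σ x c hx, hup σ x κ hx, hc, (X.mem_inv.mp hκ) x, hupadd,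
        ← hupas]
      have h3 : (σ : Ω →+* Ω) tΩ = tΩ := σ.commutes _
      rw [h3]
      abel
    obtain ⟨w, hw⟩ := exists_of_asop_eq_zero _ h1
    refine ⟨X.t w * x, ?_, ?_⟩
    · rw [map_mul, X.pi_t, one_mul, hx]
    · rw [map_mul, X.P_t, one_mul, hb, X.act_t, hbt, hupadd]
      have h4 : (fun i => iota p Ω (w i)) = up (fun i => iota p M (w i)) := by
        ext i
        simp [up, comp_iota]
      rw [← h4, ← hw]
      abel
  have huniq : ∀ (σ : Ω ≃ₐ[RatFunc K] Ω) (x x' : E),
      (X.pi x = ρ σ ∧ sact (X.P x) (σ : Ω →+* Ω) y = y + up (b x)) →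
      (X.pi x' = ρ σ ∧ sact (X.P x') (σ : Ω →+* Ω) y = y + up (b x')) → x = x' := by
    rintro σ x x' ⟨h1, h2⟩ ⟨h3, h4⟩
    obtain ⟨w, hw⟩ := (X.ker (x' * x⁻¹)).mp (by rw [map_mul, map_inv, h1, h3, mul_inv_cancel])
    have h5 : x' = X.t w * x := by
      change X.t w = x' * x⁻¹ at hw
      rw [hw]
      group
    rw [h5, map_mul, X.P_t, one_mul, h2, hb, X.act_t] at h4
    have h6 := hupinj (add_left_cancel h4)
    have h7 : b (X.t w) = 0 := by
      have := h6
      nth_rewrite 1 [← zero_add (b x)] at this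
      exact (add_right_cancel this).symm
    rw [hbt] at h7
    have h8 : w = 0 := by
      ext i
      have := congrFun h7 i
      simpa using this
    rw [h5, h8, X.t_zero, one_mul]
  choose f hf1 hf2 using hexu
  have hmul : ∀ σ τ : Ω ≃ₐ[RatFunc K] Ω, f (σ * τ) = f σ * f τ := by
    intro σ τ
    apply huniq (σ * τ) _ _ ⟨hf1 _, hf2 _⟩
    refine ⟨by rw [map_mul, hf1, hf1, map_mul], ?_⟩
    rw [map_mul]
    have h1 : ((σ * τ : Ω ≃ₐ[RatFunc K] Ω) : Ω →+* Ω) = (σ : Ω →+* Ω).comp (τ : Ω →+* Ω) := rfl
    rw [h1, ← sact_sact, hf2 τ, sact_add, hf2 σ, hup σ (f σ) _ (hf1 σ), hb, hupadd]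
    abel
  let Φ : (Ω ≃ₐ[RatFunc K] Ω) →* E := MonoidHom.mk' f hmul
  have hΦ : ∀ σ, Φ σ = f σ := fun _ => rfl
  have hker : ∀ σ : Ω ≃ₐ[RatFunc K] Ω, Φ σ = 1 ↔ ρ σ = 1 ∧ ∀ i, σ (y i) = y i := by
    intro σ
    constructor
    · intro h
      rw [hΦ] at h
      have h1 := hf1 σ
      have h2 := hf2 σ
      rw [h, map_one] at h1 h2
      rw [sact_one, hb1] at h2
      refine ⟨h1.symm, fun i => ?_⟩
      have := congrFun h2 i
      simpa [up] using this
    · rintro ⟨h1, h2⟩
      rw [hΦ]
      apply huniq σ _ _ ⟨hf1 _, hf2 _⟩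
      refine ⟨by rw [map_one, h1], ?_⟩
      rw [map_one, sact_one, hb1]
      ext i
      simpa [up] using h2 i
  -- surjectivity
  have hρsurj : ∀ g : M ≃ₐ[K] M, ∃ σ, ρ σ = g := by
    intro g
    obtain ⟨G, hG⟩ := exists_ratFunc_aut g
    refine ⟨G.liftNormal Ω, ?_⟩
    ext m
    apply (algebraMap M Ω).injective
    rw [← hρ, IsScalarTower.algebraMap_apply M (RatFunc M) Ω]
    have h1 := AlgEquiv.liftNormal_commutes G Ω (algebraMap M (RatFunc M) m)
    rw [h1, hG, ← IsScalarTower.algebraMap_apply M (RatFunc M) Ω]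
  let H0 : AddSubgroup (Fin n → ZMod p) :=
    { carrier := {w | X.t w ∈ Φ.range}
      add_mem' := by
        intro v w hv hw
        change X.t (v + w) ∈ Φ.range
        rw [X.t_add]
        exact mul_mem hv hw
      zero_mem' := by
        change X.t 0 ∈ Φ.range
        rw [X.t_zero]
        exact one_mem _
      neg_mem' := by
        intro v hv
        have h1 : X.t (-v) = (X.t v)⁻¹ := by
          rw [eq_inv_iff_mul_eq_one, ← X.t_add, neg_add_cancel, X.t_zero]
        change X.t (-v) ∈ Φ.range
        rw [h1]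
        exact inv_mem hv }
  have hH0 : AddSubgroup.toZModSubmodule p H0 = ⊤ := by
    by_contra hne
    obtain ⟨g, hg0, hg⟩ := Submodule.exists_dual_map_eq_bot_of_lt_top (lt_top_iff_ne_top.mpr hne)
      inferInstance
    let lm : Fin n → ZMod p := fun i => g (Pi.single i 1)
    have hgw : ∀ w : Fin n → ZMod p, g w = ∑ i, lm i * w i := by
      intro w
      have h1 : w = ∑ i, w i • (Pi.single i 1 : Fin n → ZMod p) := by
        ext k
        simp [Finset.sum_apply, Pi.single_apply]
      conv_lhs => rw [h1]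
      rw [map_sum]
      refine Finset.sum_congr rfl fun i _ => ?_
      rw [map_smul, smul_eq_mul, mul_comm]
    have hlm : lm ≠ 0 := by
      intro h
      apply hg0
      ext i
      have := congrFun h i
      simpa [lm] using this
    have hgH : ∀ w, X.t w ∈ Φ.range → g w = 0 := by
      intro w hw
      have h1 : g w ∈ Submodule.map g (AddSubgroup.toZModSubmodule p H0) :=
        Submodule.mem_map_of_mem hw
      rw [hg] at h1
      exact (Submodule.mem_bot _).mp h1
    let z : Ω := lam lm y
    have hz : z ∈ j.fieldRange := by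
      rw [← InfiniteGalois.fixedField_fixingSubgroup j.fieldRange,
        IntermediateField.mem_fixedField_iff]
      intro σ hσ
      rw [IntermediateField.mem_fixingSubgroup_iff] at hσ
      have h1 : ρ σ = 1 := by
        ext m
        apply (algebraMap M Ω).injective
        rw [← hρ]
        exact hσ _ ⟨algebraMap M (RatFunc M) m, rfl⟩
      obtain ⟨w, hw⟩ := (X.ker (f σ)).mp ((hf1 σ).trans h1)
      have hw' : X.t w = f σ := hw
      have h2 := hf2 σ
      rw [← hw', X.P_t, sact_one, hbt] at h2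
      have h3 : ∀ i, σ (y i) = y i + iota p Ω (w i) := by
        intro i
        have := congrFun h2 i
        simpa [up, comp_iota] using this
      have h4 : g w = 0 := hgH w ⟨σ, hw'.symm⟩
      change σ (∑ i, iota p Ω (lm i) * y i) = ∑ i, iota p Ω (lm i) * y i
      rw [map_sum]
      have h5 : ∀ i, σ (iota p Ω (lm i) * y i) = iota p Ω (lm i) * y i +
          iota p Ω (lm i * w i) := by
        intro i
        have h6 : σ (iota p Ω (lm i)) = iota p Ω (lm i) :=
          comp_iota (σ : Ω →+* Ω) (lm i)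
        rw [map_mul, h6, h3, map_mul]
        ring
      simp only [h5]
      rw [Finset.sum_add_distrib, ← map_sum, ← hgw, h4, map_zero, add_zero]
    obtain ⟨z0, hz0⟩ := hz
    have hz0' : j z0 = z := hz0
    apply ne_asop p z0 (lam lm c) (lam lm κ) (hκ' lm hlm)
    apply j.toRingHom.injective
    have h7 : j z0 ^ p - j z0 = ∑ i, iota p Ω (lm i) * (up c i + tΩ * up κ i) := by
      rw [hz0']
      change (∑ i, iota p Ω (lm i) * y i) ^ p - ∑ i, iota p Ω (lm i) * y i = _
      rw [sum_pow_char p, ← Finset.sum_sub_distrib]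
      refine Finset.sum_congr rfl fun i _ => ?_
      have h8 : iota p Ω (lm i) ^ p = iota p Ω (lm i) := by
        rw [← map_pow, ZMod.pow_card]
      have h9 := congrFun hy i
      rw [← h9, mul_pow, h8]
      simp only [asop]
      ring
    have h10 : ∀ m : M, j (algebraMap M[X] (RatFunc M) (C m)) = algebraMap M Ω m := fun m => rfl
    have h11 : j (algebraMap M[X] (RatFunc M) Polynomial.X) = tΩ := by
      have h12 : algebraMap M[X] (RatFunc M) Polynomial.X =
          algebraMap (RatFunc K) (RatFunc M) (algebraMap K[X] (RatFunc K) Polynomial.X) := by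
        have := tau_algebraMap K M Polynomial.X
        rw [Polynomial.map_X] at this
        exact this.symm
      rw [h12]
      exact j.commutes _
    change j (z0 ^ p - z0) = j _
    rw [map_sub, map_pow, h7, map_add, map_mul, map_add, map_mul, h10, h10, h11]
    simp only [lam, map_sum, map_mul, comp_iota, up]
    rw [Finset.sum_mul, ← Finset.sum_add_distrib]
    refine Finset.sum_congr rfl fun i _ => ?_
    ring
  have hsurj : Function.Surjective Φ := by
    intro x
    obtain ⟨σ, hσ⟩ := hρsurj (X.pi x)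
    obtain ⟨w, hw⟩ := (X.ker (x * (Φ σ)⁻¹)).mp (by
      rw [map_mul, map_inv, hΦ, hf1, hσ, mul_inv_cancel])
    have hw2 : w ∈ AddSubgroup.toZModSubmodule p H0 := by
      rw [hH0]
      exact Submodule.mem_top
    obtain ⟨τ, hτ⟩ := (hw2 : X.t w ∈ Φ.range)
    refine ⟨τ * σ, ?_⟩
    rw [map_mul, hτ]
    change X.th (Multiplicative.ofAdd w) * Φ σ = x
    rw [hw]
    group
  -- the finite extension
  let bs := Module.finBasis K M
  let S : Set Ω := Set.range (fun i => algebraMap M Ω (bs i)) ∪ Set.range y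
  have hSfin : S.Finite := (Set.finite_range _).union (Set.finite_range _)
  have hint : ∀ x ∈ S, IsIntegral (RatFunc K) x := fun x _ => Algebra.IsIntegral.isIntegral x
  have : FiniteDimensional (RatFunc K) (IntermediateField.adjoin (RatFunc K) S) := by
    have : Finite S := hSfin
    exact IntermediateField.finiteDimensional_adjoin hint
  refine ⟨Φ, hsurj, IntermediateField.adjoin (RatFunc K) S, this, ?_, algebraMap M Ω, ?_, ?_⟩
  rotate_left
  · intro a
    rw [← IsScalarTower.algebraMap_apply K M Ω, ← IsScalarTower.algebraMap_apply K (RatFunc K) Ω]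
  · intro σ x
    rw [hρ, hΦ, hf1]
  ext σ
  rw [MonoidHom.mem_ker, hker, IntermediateField.mem_fixingSubgroup_iff]
  constructor
  · rintro ⟨h1, h2⟩ x hx
    induction hx using IntermediateField.adjoin_induction with
    | mem x hx =>
      rcases hx with ⟨i, rfl⟩ | ⟨i, rfl⟩
      · change σ (algebraMap M Ω (bs i)) = algebraMap M Ω (bs i)
        rw [hρ, h1]
        rfl
      · exact h2 i
    | algebraMap r => exact σ.commutes r
    | add x y _ _ hx hy => rw [map_add, hx, hy]
    | inv x _ hx => rw [map_inv₀, hx]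
    | mul x y _ _ hx hy => rw [map_mul, hx, hy]
  · intro h
    refine ⟨?_, fun i => h _ (IntermediateField.subset_adjoin _ _ (Or.inr ⟨i, rfl⟩))⟩
    have h1 : ∀ i, ρ σ (bs i) = bs i := by
      intro i
      apply (algebraMap M Ω).injective
      rw [← hρ]
      exact h _ (IntermediateField.subset_adjoin _ _ (Or.inl ⟨i, rfl⟩))
    have h2 : (ρ σ).toLinearMap = LinearMap.id := bs.ext h1
    ext m
    exact congrArg (fun f : M →ₗ[K] M => f m) h2

theorem occurs_aux [Infinite K] (Ω : Type u) [Field Ω] [Algebra (RatFunc K) Ω]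
    [IsGalois (RatFunc K) Ω] [IsSepClosed Ω] : Occurs E (RatFunc K) := by
  obtain ⟨Φ, h1, L, h2, h3, -⟩ := X.sol_aux Ω
  exact occurs_of_hom Φ h1 L h3

/-- Embedding problems with elementary abelian kernel are solvable over `K(t)`. -/
theorem occurs [Infinite K] : Occurs E (RatFunc K) :=
  X.occurs_aux (SeparableClosure (RatFunc K))

end Ext

end MP7fS
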