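import Pool.Agent.Lib.MP_7f581e_ntS.AutPSL

/-!
Automorphisms of `PSL(2,F) ^ k` come from ring automorphisms of `M_2(F) ^ k`.
-/

set_option autoImplicit false
set_option linter.unusedSectionVars false

namespace MP7fS

open Matrix

variable {F : Type*} [Field F]

/-- The ring automorphism `A ↦ g σ(A) g⁻¹` of the matrix ring. -/
def rc (g : GL (Fin 2) F) (σ : F ≃+* F) :
    Matrix (Fin 2) (Fin 2) F ≃+* Matrix (Fin 2) (Fin 2) F where
  toFun A := g.1 * A.map σ * (g⁻¹).1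
  invFun A := ((g⁻¹).1 * A * g.1).map σ.symm
  left_inv A := by
    have h1 : (g⁻¹).1 * g.1 = 1 := g.inv_mul
    change ((g⁻¹).1 * (g.1 * A.map σ * (g⁻¹).1) * g.1).map σ.symm = A
    have h2 : (g⁻¹).1 * (g.1 * A.map σ * (g⁻¹).1) * g.1 = A.map σ := by
      calc (g⁻¹).1 * (g.1 * A.map σ * (g⁻¹).1) * g.1
          = ((g⁻¹).1 * g.1) * A.map σ * ((g⁻¹).1 * g.1) := by noncomm_ring
        _ = A.map σ := by rw [h1, one_mul, mul_one]
    rw [h2]
    ext i j
    simp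
  right_inv A := by
    have h1 : g.1 * (g⁻¹).1 = 1 := g.mul_inv
    change g.1 * (((g⁻¹).1 * A * g.1).map σ.symm).map σ * (g⁻¹).1 = A
    have h3 : ∀ X : Matrix (Fin 2) (Fin 2) F, (X.map σ.symm).map σ = X := by
      intro X
      ext i j
      simp
    rw [h3]
    calc g.1 * ((g⁻¹).1 * A * g.1) * (g⁻¹).1
        = (g.1 * (g⁻¹).1) * A * (g.1 * (g⁻¹).1) := by noncomm_ring
      _ = A := by rw [h1, one_mul, mul_one]
  map_mul' A B := by
    have h1 : (g⁻¹).1 * g.1 = 1 := g.inv_mul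
    have h2 : (A * B).map σ = A.map σ * B.map σ := Matrix.map_mul
    rw [h2]
    calc g.1 * (A.map σ * B.map σ) * (g⁻¹).1
        = g.1 * A.map σ * 1 * B.map σ * (g⁻¹).1 := by noncomm_ring
      _ = g.1 * A.map σ * ((g⁻¹).1 * g.1) * B.map σ * (g⁻¹).1 := by rw [h1]
      _ = g.1 * A.map σ * (g⁻¹).1 * (g.1 * B.map σ * (g⁻¹).1) := by noncomm_ring
  map_add' A B := by
    have h2 : (A + B).map σ = A.map σ + B.map σ := Matrix.map_add σ (map_add σ) A B
    rw [h2, mul_add, add_mul]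

theorem rc_apply (g : GL (Fin 2) F) (σ : F ≃+* F) (A : Matrix (Fin 2) (Fin 2) F) :
    rc g σ A = g.1 * A.map σ * (g⁻¹).1 := rfl

theorem rc_coe (g : GL (Fin 2) F) (σ : F ≃+* F) (A : SL2 F) : rc g σ A.1 = (cj g σ A).1 := rfl

theorem rc_adjugate (g : GL (Fin 2) F) (σ : F ≃+* F) (A : Matrix (Fin 2) (Fin 2) F) :
    rc g σ A.adjugate = (rc g σ A).adjugate := by
  rw [rc_apply, rc_apply, Matrix.adjugate_mul_distrib, Matrix.adjugate_mul_distrib]
  have h1 : (A.map σ).adjugate = A.adjugate.map σ := by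
    have := (RingHom.map_adjugate (σ : F →+* F) A).symm
    simpa using this
  rw [h1]
  have h2 : g.1.adjugate = g.1.det • (g⁻¹).1 := by
    have h3 : g.1.adjugate * g.1 = g.1.det • 1 := Matrix.adjugate_mul _
    calc g.1.adjugate = g.1.adjugate * (g.1 * (g⁻¹).1) := by
          have : g.1 * (g⁻¹).1 = 1 := g.mul_inv
          rw [this, mul_one]
      _ = (g.1.adjugate * g.1) * (g⁻¹).1 := by rw [mul_assoc]
      _ = g.1.det • (g⁻¹).1 := by rw [h3, smul_mul_assoc, one_mul]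
  have h4 : ((g⁻¹).1).adjugate = ((g⁻¹).1).det • g.1 := by
    have h3 : ((g⁻¹).1).adjugate * (g⁻¹).1 = ((g⁻¹).1).det • 1 := Matrix.adjugate_mul _
    calc ((g⁻¹).1).adjugate = ((g⁻¹).1).adjugate * ((g⁻¹).1 * g.1) := by
          have : (g⁻¹).1 * g.1 = 1 := g.inv_mul
          rw [this, mul_one]
      _ = (((g⁻¹).1).adjugate * (g⁻¹).1) * g.1 := by rw [mul_assoc]
      _ = ((g⁻¹).1).det • g.1 := by rw [h3, smul_mul_assoc, one_mul]
  have h5 : ((g⁻¹).1).det * g.1.det = 1 := by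
    rw [← Matrix.det_mul]
    have : (g⁻¹).1 * g.1 = 1 := g.inv_mul
    rw [this, Matrix.det_one]
  rw [h2, h4, Matrix.mul_smul, Matrix.mul_smul, Matrix.smul_mul, smul_smul, mul_comm g.1.det, h5,
    one_smul, mul_assoc]

theorem rc_rc (g h : GL (Fin 2) F) (σ τ : F ≃+* F) (hh : h.1.map σ = h.1)
    (A : Matrix (Fin 2) (Fin 2) F) : rc g σ (rc h τ A) = rc (g * h) (τ.trans σ) A := by
  have h1 : ((h⁻¹).1).map σ = (h⁻¹).1 := by
    have h2 : h.1 * ((h⁻¹).1).map σ = 1 := by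
      conv_lhs => rw [← hh]
      rw [← Matrix.map_mul]
      have : h.1 * (h⁻¹).1 = 1 := h.mul_inv
      rw [this]
      exact Matrix.map_one σ (map_zero σ) (map_one σ)
    calc ((h⁻¹).1).map σ = ((h⁻¹).1 * h.1) * ((h⁻¹).1).map σ := by
          have : (h⁻¹).1 * h.1 = 1 := h.inv_mul
          rw [this, one_mul]
      _ = (h⁻¹).1 := by rw [mul_assoc, h2, mul_one]
  rw [rc_apply, rc_apply, rc_apply, Matrix.map_mul, Matrix.map_mul, hh, h1]
  have h3 : (A.map τ).map σ = A.map (τ.trans σ) := by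
    ext i j
    simp
  have h4 : ((g * h)⁻¹).1 = (h⁻¹).1 * (g⁻¹).1 := by
    rw [_root_.mul_inv_rev]
    rfl
  have h5 : (g * h).1 = g.1 * h.1 := rfl
  rw [h3, h4, h5]
  noncomm_ring

section power

variable {κ : Type*} [Finite κ] [DecidableEq κ]

/-- The inclusion of `SL(2,F) ^ κ`. -/
def inc (x : κ → SL2 F) : κ → Matrix (Fin 2) (Fin 2) F := fun i => (x i).1

/-- The projection to `PSL(2,F) ^ κ`. -/
def mkk (x : κ → SL2 F) : κ → PSL2 F := fun i => mk (x i)

theorem inc_mul (x y : κ → SL2 F) : inc (x * y) = inc x * inc y := rfl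

theorem mkk_mul (x y : κ → SL2 F) : mkk (x * y) = mkk x * mkk y := rfl

theorem inc_inj {x y : κ → SL2 F} (h : inc x = inc y) : x = y := by
  funext i
  exact Subtype.ext (congrFun h i)

theorem mkk_surj (z : κ → PSL2 F) : ∃ x, mkk x = z := by
  choose x hx using fun i => mk_surj (z i)
  exact ⟨x, funext hx⟩

/-- The ring automorphism `R` induces the automorphism `ψ`. -/
def Ind (R : (κ → Matrix (Fin 2) (Fin 2) F) ≃+* (κ → Matrix (Fin 2) (Fin 2) F))
    (ψ : (κ → PSL2 F) ≃* (κ → PSL2 F)) : Prop :=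
  ∀ x, ∃ y, R (inc x) = inc y ∧ mkk y = ψ (mkk x)

theorem Ind.comp {R R' : (κ → Matrix (Fin 2) (Fin 2) F) ≃+* (κ → Matrix (Fin 2) (Fin 2) F)}
    {ψ ψ' : (κ → PSL2 F) ≃* (κ → PSL2 F)} (h : Ind R ψ) (h' : Ind R' ψ') :
    Ind (R'.trans R) (ψ'.trans ψ) := by
  intro x
  obtain ⟨y, hy1, hy2⟩ := h' x
  obtain ⟨z, hz1, hz2⟩ := h y
  refine ⟨z, ?_, ?_⟩
  · rw [RingEquiv.trans_apply, hy1, hz1]
  · rw [hz2, hy2]
    rfl

/-- The ring automorphism with given components. -/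
def goodR (π : Equiv.Perm κ) (g : κ → GL (Fin 2) F) (σ : κ → (F ≃+* F)) :
    (κ → Matrix (Fin 2) (Fin 2) F) ≃+* (κ → Matrix (Fin 2) (Fin 2) F) where
  toFun b i := rc (g (π.symm i)) (σ (π.symm i)) (b (π.symm i))
  invFun b j := (rc (g j) (σ j)).symm (b (π j))
  left_inv b := by
    funext j
    simp
  right_inv b := by
    funext j
    simp
  map_mul' b c := by
    funext i
    simp
  map_add' b c := by
    funext i
    simp

theorem goodR_apply (π : Equiv.Perm κ) (g : κ → GL (Fin 2) F) (σ : κ → (F ≃+* F))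
    (b : κ → Matrix (Fin 2) (Fin 2) F) (j : κ) :
    goodR π g σ b (π j) = rc (g j) (σ j) (b j) := by
  change rc (g (π.symm (π j))) (σ (π.symm (π j))) (b (π.symm (π j))) = _
  rw [Equiv.symm_apply_apply]

theorem goodR_apply' (π : Equiv.Perm κ) (g : κ → GL (Fin 2) F) (σ : κ → (F ≃+* F))
    (b : κ → Matrix (Fin 2) (Fin 2) F) (i : κ) :
    goodR π g σ b i = rc (g (π.symm i)) (σ (π.symm i)) (b (π.symm i)) := rfl

theorem goodR_adjugate (π : Equiv.Perm κ) (g : κ → GL (Fin 2) F) (σ : κ → (F ≃+* F))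
    (b : κ → Matrix (Fin 2) (Fin 2) F) :
    goodR π g σ (fun i => (b i).adjugate) = fun i => (goodR π g σ b i).adjugate := by
  funext i
  rw [goodR_apply', rc_adjugate, goodR_apply']

theorem goodR_ind (π : Equiv.Perm κ) (g : κ → GL (Fin 2) F) (σ : κ → (F ≃+* F))
    (ψ : (κ → PSL2 F) ≃* (κ → PSL2 F))
    (h : ∀ (x : κ → SL2 F) (j : κ), ψ (fun i => mk (x i)) (π j) = mk (cj (g j) (σ j) (x j))) :
    Ind (goodR π g σ) ψ := by
  intro x
  refine ⟨fun i => cj (g (π.symm i)) (σ (π.symm i)) (x (π.symm i)), ?_, ?_⟩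
  · funext i
    rw [goodR_apply']
    rfl
  · funext i
    obtain ⟨j, rfl⟩ := π.surjective i
    change _ = ψ (fun i => mk (x i)) (π j)
    rw [h]
    change mk (cj (g (π.symm (π j))) (σ (π.symm (π j))) (x (π.symm (π j)))) = _
    rw [Equiv.symm_apply_apply]

end power

end MP7fS
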