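import Pool.Agent.Lib.MP_7f581e_ntS.AutPSLD
import Pool.Agent.Lib.MP_7f581e_ntS.PslA

/-!
Ring automorphisms of `M_2(F) ^ κ` are determined by the automorphisms of `PSL(2,F) ^ κ`
they induce.
-/

set_option autoImplicit false
set_option linter.unusedSectionVars false

namespace MP7fS

open Matrix

variable {F : Type*} [Field F] {κ : Type*} [Finite κ] [DecidableEq κ]

/-- Elements of order dividing `p` have a well defined image. -/
theorem ind_unique_of_pow {p : ℕ} [hp : Fact p.Prime] [CharP F p]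
    {R R' : (κ → Matrix (Fin 2) (Fin 2) F) ≃+* (κ → Matrix (Fin 2) (Fin 2) F)}
    {ψ : (κ → PSL2 F) ≃* (κ → PSL2 F)} (h : Ind R ψ) (h' : Ind R' ψ) (x : κ → SL2 F)
    (hx : x ^ p = 1) : R (inc x) = R' (inc x) := by
  obtain ⟨y, hy1, hy2⟩ := h x
  obtain ⟨z, hz1, hz2⟩ := h' x
  have hincpow : ∀ (w : κ → SL2 F) (n : ℕ), inc (w ^ n) = inc w ^ n := by
    intro w n
    induction n with
    | zero =>
      rw [pow_zero, pow_zero]
      rfl
    | succ n ih => rw [pow_succ, pow_succ, inc_mul, ih]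
  have hinc1 : inc (1 : κ → SL2 F) = 1 := rfl
  have hyp : y ^ p = 1 := by
    apply inc_inj
    rw [hincpow, ← hy1, ← map_pow, ← hincpow, hx, hinc1, map_one]
  have hzp : z ^ p = 1 := by
    apply inc_inj
    rw [hincpow, ← hz1, ← map_pow, ← hincpow, hx, hinc1, map_one]
  rw [hy1, hz1]
  congr 1
  funext i
  have h1 : mk (y i) = mk (z i) := by
    have h2 : mkk y = mkk z := by rw [hy2, hz2]
    exact congrFun h2 i
  rcases mk_eq_iff.mp h1 with h2 | h2
  · exact Subtype.ext (Matrix.ext h2)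
  · have h3 : (y i).1 = -(z i).1 := Matrix.ext h2
    have hyi : (y i).1 ^ p = 1 := by
      have := congrFun hyp i
      have h4 := congrArg (fun M : SL2 F => (M : Matrix (Fin 2) (Fin 2) F)) this
      simpa using h4
    have hzi : (z i).1 ^ p = 1 := by
      have := congrFun hzp i
      have h4 := congrArg (fun M : SL2 F => (M : Matrix (Fin 2) (Fin 2) F)) this
      simpa using h4
    rcases hp.out.eq_two_or_odd' with rfl | hodd
    · have h2F : (2 : F) = 0 := by
        have := CharP.cast_eq_zero F 2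
        simpa using this
      apply Subtype.ext
      rw [h3]
      ext a b
      rw [Matrix.neg_apply]
      linear_combination (-(z i).1 a b) * h2F
    · exfalso
      rw [h3, hodd.neg_pow, hzi] at hyi
      have h5 := congrFun (congrFun hyi 0) 0
      simp at h5
      have h2F : (2 : F) = 0 := by linear_combination -h5
      have h6 : (p : ℕ) ∣ 2 := by
        rw [← CharP.cast_eq_zero_iff F p]
        exact_mod_cast h2F
      have h7 : p = 2 := (Nat.prime_dvd_prime_iff_eq hp.out Nat.prime_two).mp h6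
      subst h7
      exact absurd hodd (by decide)

/-- A multiple of the first off-diagonal matrix unit. -/
def e12 (x : F) : Matrix (Fin 2) (Fin 2) F := !![0, x; 0, 0]

/-- A multiple of the second off-diagonal matrix unit. -/
def e21 (x : F) : Matrix (Fin 2) (Fin 2) F := !![0, 0; x, 0]

theorem single_decomp (i : κ) (A : Matrix (Fin 2) (Fin 2) F) :
    (Pi.single i A : κ → Matrix (Fin 2) (Fin 2) F) =
      Pi.single i (e12 (A 0 1)) + Pi.single i (e21 (A 1 0)) +
        Pi.single i (e12 (A 0 0)) * Pi.single i (e21 1) +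
        Pi.single i (e21 (A 1 1)) * Pi.single i (e12 1) := by
  rw [← Pi.single_mul, ← Pi.single_mul, ← Pi.single_add, ← Pi.single_add, ← Pi.single_add]
  congr 1
  ext a b
  fin_cases a <;> fin_cases b <;> simp [e12, e21, Matrix.mul_apply, Fin.sum_univ_two]

theorem single_e12 (i : κ) (x : F) :
    (Pi.single i (e12 x) : κ → Matrix (Fin 2) (Fin 2) F) = inc (Pi.mulSingle i (u x)) - 1 := by
  funext j
  by_cases hj : j = i
  · subst hj
    rw [Pi.sub_apply, inc]
    simp only [Pi.single_eq_same, Pi.mulSingle_eq_same, Pi.one_apply]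
    ext a b
    fin_cases a <;> fin_cases b <;> simp [e12, u]
  · rw [Pi.sub_apply, inc]
    simp [Pi.single_eq_of_ne hj, Pi.mulSingle_eq_of_ne hj]

theorem single_e21 (i : κ) (x : F) :
    (Pi.single i (e21 x) : κ → Matrix (Fin 2) (Fin 2) F) = inc (Pi.mulSingle i (l x)) - 1 := by
  funext j
  by_cases hj : j = i
  · subst hj
    rw [Pi.sub_apply, inc]
    simp only [Pi.single_eq_same, Pi.mulSingle_eq_same, Pi.one_apply]
    ext a b
    fin_cases a <;> fin_cases b <;> simp [e21, l]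
  · rw [Pi.sub_apply, inc]
    simp [Pi.single_eq_of_ne hj, Pi.mulSingle_eq_of_ne hj]

/-- The ring automorphism is determined. -/
theorem ind_unique {p : ℕ} [hp : Fact p.Prime] [CharP F p]
    {R R' : (κ → Matrix (Fin 2) (Fin 2) F) ≃+* (κ → Matrix (Fin 2) (Fin 2) F)}
    {ψ : (κ → PSL2 F) ≃* (κ → PSL2 F)} (h : Ind R ψ) (h' : Ind R' ψ) : R = R' := by
  have hu : ∀ (i : κ) (x : F), R (Pi.single i (e12 x)) = R' (Pi.single i (e12 x)) := by
    intro i x
    rw [single_e12, map_sub, map_sub, map_one, map_one, ind_unique_of_pow (p := p) h h']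
    rw [← Pi.mulSingle_pow, u_pow, CharP.cast_eq_zero, zero_mul, u_zero, Pi.mulSingle_one]
  have hl : ∀ (i : κ) (x : F), R (Pi.single i (e21 x)) = R' (Pi.single i (e21 x)) := by
    intro i x
    rw [single_e21, map_sub, map_sub, map_one, map_one, ind_unique_of_pow (p := p) h h']
    have l_zero : l (0 : F) = 1 := by apply sl_ext <;> simp
    rw [← Pi.mulSingle_pow, l_pow, CharP.cast_eq_zero, zero_mul, l_zero, Pi.mulSingle_one]
  have hs : ∀ (i : κ) (A : Matrix (Fin 2) (Fin 2) F), R (Pi.single i A) = R' (Pi.single i A) := by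
    intro i A
    rw [single_decomp]
    simp only [map_add, map_mul, hu, hl]
  have := Fintype.ofFinite κ
  ext1 b
  rw [← Finset.univ_sum_single b, map_sum, map_sum]
  exact Finset.sum_congr rfl fun i _ => hs i (b i)

/-- Every automorphism is induced by a ring automorphism commuting with the adjugate. -/
theorem exists_ind [Finite F] (hF : 4 ≤ Nat.card F) (ψ : (κ → PSL2 F) ≃* (κ → PSL2 F)) :
    ∃ R : (κ → Matrix (Fin 2) (Fin 2) F) ≃+* (κ → Matrix (Fin 2) (Fin 2) F), Ind R ψ ∧
      ∀ b, R (fun i => (b i).adjugate) = fun i => (R b i).adjugate := by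
  obtain ⟨π, g, σ, h⟩ := aut_psl2_pow hF ψ
  exact ⟨goodR π g σ, goodR_ind π g σ ψ h, goodR_adjugate π g σ⟩

/-- The chosen ring automorphism. -/
noncomputable def ringOf [Finite F] (hF : 4 ≤ Nat.card F)
    (ψ : (κ → PSL2 F) ≃* (κ → PSL2 F)) :
    (κ → Matrix (Fin 2) (Fin 2) F) ≃+* (κ → Matrix (Fin 2) (Fin 2) F) :=
  (exists_ind hF ψ).choose

theorem ringOf_ind [Finite F] (hF : 4 ≤ Nat.card F) (ψ : (κ → PSL2 F) ≃* (κ → PSL2 F)) :
    Ind (ringOf hF ψ) ψ := (exists_ind hF ψ).choose_spec.1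

theorem ringOf_adjugate [Finite F] (hF : 4 ≤ Nat.card F) (ψ : (κ → PSL2 F) ≃* (κ → PSL2 F))
    (b : κ → Matrix (Fin 2) (Fin 2) F) :
    ringOf hF ψ (fun i => (b i).adjugate) = fun i => (ringOf hF ψ b i).adjugate :=
  (exists_ind hF ψ).choose_spec.2 b

theorem ringOf_unique {p : ℕ} [hp : Fact p.Prime] [CharP F p] [Finite F] (hF : 4 ≤ Nat.card F)
    {R : (κ → Matrix (Fin 2) (Fin 2) F) ≃+* (κ → Matrix (Fin 2) (Fin 2) F)}
    {ψ : (κ → PSL2 F) ≃* (κ → PSL2 F)} (h : Ind R ψ) : ringOf hF ψ = R :=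
  ind_unique (p := p) (ringOf_ind hF ψ) h

theorem ringOf_mul {p : ℕ} [hp : Fact p.Prime] [CharP F p] [Finite F] (hF : 4 ≤ Nat.card F)
    (ψ ψ' : (κ → PSL2 F) ≃* (κ → PSL2 F)) :
    ringOf hF (ψ'.trans ψ) = (ringOf hF ψ').trans (ringOf hF ψ) :=
  ringOf_unique (p := p) hF ((ringOf_ind hF ψ).comp (ringOf_ind hF ψ'))

theorem ringOf_one {p : ℕ} [hp : Fact p.Prime] [CharP F p] [Finite F] (hF : 4 ≤ Nat.card F) :
    ringOf hF (MulEquiv.refl (κ → PSL2 F)) = RingEquiv.refl _ :=
  ringOf_unique (p := p) hF (fun x => ⟨x, rfl, rfl⟩)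

end MP7fS
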