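import Pool.Agent.Lib.MP_7f581e_ntS.AutPSL

/-!
A matrix over the prime field whose powers represent `PGL(2,F)` modulo `PSL(2,F)`.
-/

set_option autoImplicit false
set_option linter.unusedSectionVars false

namespace MP7fS

open Matrix

variable {F : Type*} [Field F]

/-- A matrix which represents `PGL(2,F)` modulo `PSL(2,F)` and is fixed by all automorphisms. -/
structure IsNrm (n0 : GL (Fin 2) F) : Prop where
  fix : ∀ σ : F ≃+* F, n0.1.map σ = n0.1
  dec : ∀ g : GL (Fin 2) F, ∃ (h : SL2 F) (s : F) (a : ℕ), s ≠ 0 ∧ g.1 = s • (h.1 * (n0 ^ a).1)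
  scal : ∀ (s : F) (a : ℕ), (s • (n0 ^ a).1).det = 1 → ∃ c : F, (n0 ^ a).1 = c • 1

/-- A matrix with square determinant is a multiple of one of determinant one. -/
theorem exists_scale {A : Matrix (Fin 2) (Fin 2) F} (hA : A.det ≠ 0) (h : IsSquare A.det) :
    ∃ (B : SL2 F) (s : F), s ≠ 0 ∧ A = s • B.1 := by
  obtain ⟨s, hs⟩ := h
  have hs0 : s ≠ 0 := by
    rintro rfl
    rw [mul_zero] at hs
    exact hA hs
  refine ⟨⟨s⁻¹ • A, ?_⟩, s, hs0, ?_⟩
  · rw [Matrix.det_smul, hs, Fintype.card_fin]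
    field_simp
  · rw [smul_smul, mul_inv_cancel₀ hs0, one_smul]

theorem isNrm_two [Finite F] (h : CharP F 2) : IsNrm (1 : GL (Fin 2) F) := by
  refine ⟨fun σ => ?_, fun g => ?_, fun s a _ => ⟨1, ?_⟩⟩
  · exact Matrix.map_one σ (map_zero σ) (map_one σ)
  · have := Fintype.ofFinite F
    have hdet : g.1.det ≠ 0 := ((Matrix.isUnit_iff_isUnit_det _).mp g.isUnit).ne_zero
    have hsq : IsSquare g.1.det := FiniteField.isSquare_of_char_two (ringChar.eq F 2) _
    obtain ⟨B, s, hs, hB⟩ := exists_scale hdet hsq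
    refine ⟨B, s, 0, hs, ?_⟩
    rw [pow_zero]
    change g.1 = s • (B.1 * 1)
    rw [mul_one, hB]
  · rw [one_pow, one_smul]
    rfl

/-- The matrix with determinant `c`. -/
noncomputable def nmat (c : F) (hc : c ≠ 0) : GL (Fin 2) F :=
  Matrix.GeneralLinearGroup.mkOfDetNeZero !![0, -c; 1, 0] (by simpa [Matrix.det_fin_two] using hc)

theorem nmat_coe (c : F) (hc : c ≠ 0) : (nmat c hc).1 = !![0, -c; 1, 0] := rfl

theorem nmat_even (c : F) (hc : c ≠ 0) (b : ℕ) : ((nmat c hc) ^ (2 * b)).1 = (-c) ^ b • 1 := by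
  induction b with
  | zero =>
    rw [mul_zero, pow_zero, pow_zero, one_smul]
    rfl
  | succ b ih =>
    have h2 : ((nmat c hc) ^ 2).1 = (-c) • 1 := by
      have h3 : ((nmat c hc) ^ 2).1 = (nmat c hc).1 * (nmat c hc).1 := by
        rw [sq]
        rfl
      rw [h3, nmat_coe]
      ext i j
      fin_cases i <;> fin_cases j <;> simp [Matrix.mul_apply, Fin.sum_univ_two]
    have h3 : ((nmat c hc) ^ (2 * (b + 1))).1 =
        ((nmat c hc) ^ (2 * b)).1 * ((nmat c hc) ^ 2).1 := by
      rw [mul_add, mul_one, pow_add]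
      rfl
    rw [h3, ih, h2, Matrix.smul_mul, one_mul, smul_smul, pow_succ]

theorem nmat_odd (c : F) (hc : c ≠ 0) (b : ℕ) :
    ((nmat c hc) ^ (2 * b + 1)).1 = (-c) ^ b • (nmat c hc).1 := by
  have h3 : ((nmat c hc) ^ (2 * b + 1)).1 = ((nmat c hc) ^ (2 * b)).1 * (nmat c hc).1 := by
    rw [pow_succ]
    rfl
  rw [h3, nmat_even, Matrix.smul_mul, one_mul]

theorem isNrm_nmat [Finite F] (hF2 : ringChar F ≠ 2) (c : F) (hc : c ≠ 0)
    (hfix : ∀ σ : F ≃+* F, σ c = c) (hns : ¬ IsSquare c) : IsNrm (nmat c hc) := by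
  classical
  have := Fintype.ofFinite F
  refine ⟨fun σ => ?_, fun g => ?_, fun s a h => ?_⟩
  · rw [nmat_coe]
    ext i j
    fin_cases i <;> fin_cases j <;> simp [hfix]
  · have hdet : g.1.det ≠ 0 := ((Matrix.isUnit_iff_isUnit_det _).mp g.isUnit).ne_zero
    by_cases hsq : IsSquare g.1.det
    · obtain ⟨B, s, hs, hB⟩ := exists_scale hdet hsq
      refine ⟨B, s, 0, hs, ?_⟩
      rw [pow_zero]
      change g.1 = s • (B.1 * 1)
      rw [mul_one, hB]
    · have h1 : ((g * (nmat c hc)⁻¹ : GL (Fin 2) F)).1.det ≠ 0 :=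
        ((Matrix.isUnit_iff_isUnit_det _).mp (g * (nmat c hc)⁻¹).isUnit).ne_zero
      have h2 : (nmat c hc).1.det = c := by
        rw [nmat_coe, Matrix.det_fin_two]
        simp
      have h3 : ((g * (nmat c hc)⁻¹ : GL (Fin 2) F)).1.det * c = g.1.det := by
        have h4 : (g * (nmat c hc)⁻¹ : GL (Fin 2) F).1 * (nmat c hc).1 =
            (g * (nmat c hc)⁻¹ * nmat c hc : GL (Fin 2) F).1 := rfl
        calc ((g * (nmat c hc)⁻¹ : GL (Fin 2) F)).1.det * c
            = ((g * (nmat c hc)⁻¹ : GL (Fin 2) F)).1.det * (nmat c hc).1.det := by rw [h2]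
          _ = g.1.det := by rw [← Matrix.det_mul, h4, inv_mul_cancel_right]
      have h5 : IsSquare ((g * (nmat c hc)⁻¹ : GL (Fin 2) F)).1.det := by
        have h6 : quadraticChar F g.1.det = -1 := quadraticChar_neg_one_iff_not_isSquare.mpr hsq
        have h7 : quadraticChar F c = -1 := quadraticChar_neg_one_iff_not_isSquare.mpr hns
        rw [← h3, map_mul, h7] at h6
        have h8 : quadraticChar F ((g * (nmat c hc)⁻¹ : GL (Fin 2) F)).1.det = 1 := by
          linarith
        exact (quadraticChar_one_iff_isSquare h1).mp h8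
      obtain ⟨B, s, hs, hB⟩ := exists_scale h1 h5
      refine ⟨B, s, 1, hs, ?_⟩
      rw [pow_one, ← Matrix.smul_mul, ← hB]
      have h4 : (g * (nmat c hc)⁻¹ : GL (Fin 2) F).1 * (nmat c hc).1 =
            (g * (nmat c hc)⁻¹ * nmat c hc : GL (Fin 2) F).1 := rfl
      rw [h4, inv_mul_cancel_right]
  · obtain ⟨b, hb⟩ := Nat.even_or_odd' a
    rcases hb with rfl | rfl
    · exact ⟨_, nmat_even c hc b⟩
    · exfalso
      apply hns
      rw [nmat_odd, smul_smul, Matrix.det_smul, nmat_coe, Matrix.det_fin_two,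
        Fintype.card_fin] at h
      simp at h
      have h0 : s * (-c) ^ b ≠ 0 := by
        intro h1
        have h2 : s ^ 2 * ((-c) ^ b) ^ 2 = 0 := by
          rw [← mul_pow, h1]
          ring
        rw [h1] at h
        simp at h
      refine ⟨(s * (-c) ^ b)⁻¹, ?_⟩
      generalize s * (-c) ^ b = x at h h0
      field_simp
      linear_combination h

/-- The element exists for the prime fields of odd index. -/
theorem exists_isNrm {p m : ℕ} [hp : Fact p.Prime] [CharP F p] [Finite F]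
    (hcard : Nat.card F = p ^ m) (hpm : p = 2 ∨ Odd m) : ∃ n0 : GL (Fin 2) F, IsNrm n0 := by
  have := Fintype.ofFinite F
  rcases hp.out.eq_two_or_odd' with rfl | hodd
  · exact ⟨1, isNrm_two inferInstance⟩
  have hp2 : p ≠ 2 := by
    rintro rfl
    exact absurd hodd (by decide)
  have hm : Odd m := hpm.resolve_left hp2
  have hF2 : ringChar F ≠ 2 := by
    rw [ringChar.eq F p]
    exact hp2
  have hZ2 : ringChar (ZMod p) ≠ 2 := by
    rw [ringChar.eq (ZMod p) p]
    exact hp2
  obtain ⟨c0, hc0⟩ := FiniteField.exists_nonsquare hZ2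
  have hc00 : c0 ≠ 0 := by
    rintro rfl
    exact hc0 ⟨0, by simp⟩
  let f : ZMod p →+* F := ZMod.castHom (dvd_refl p) F
  have hc : f c0 ≠ 0 := by
    intro h
    exact hc00 ((map_eq_zero f).mp h)
  refine ⟨nmat (f c0) hc, isNrm_nmat hF2 _ hc ?_ ?_⟩
  · intro σ
    have h1 : (σ : F →+* F).comp f = f := Subsingleton.elim _ _
    exact congrFun (congrArg (fun g : ZMod p →+* F => (g : ZMod p → F)) h1) c0
  · rintro ⟨s, hs⟩
    have hs0 : s ≠ 0 := by
      rintro rfl
      rw [mul_zero] at hs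
      exact hc hs
    have h1 : c0 ^ (p / 2) = -1 := by
      rcases ZMod.pow_div_two_eq_neg_one_or_one p hc00 with h | h
      · exact absurd ((ZMod.euler_criterion p hc00).mpr h) hc0
      · exact h
    have h2 : (f c0) ^ (p / 2) = -1 := by rw [← map_pow, h1, map_neg, map_one]
    have h3 : s ^ (Nat.card F - 1) = 1 := by
      rw [Nat.card_eq_fintype_card]
      exact FiniteField.pow_card_sub_one_eq_one s hs0
    have hp1 : 1 ≤ p := hp.out.one_le
    set G := ∑ i ∈ Finset.range m, p ^ i with hG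
    have hGm : G * (p - 1) + 1 = p ^ m := by
      have h5 := geom_sum_mul_add (p - 1) m
      rwa [Nat.sub_add_cancel hp1] at h5
    have hGodd : Odd G := by
      rw [hG, Finset.odd_sum_iff_odd_card_odd]
      have : (Finset.range m).filter (fun i => Odd (p ^ i)) = Finset.range m := by
        apply Finset.filter_true_of_mem
        intro i _
        exact hodd.pow
      rw [this, Finset.card_range]
      exact hm
    have hp12 : p - 1 = 2 * (p / 2) := by
      obtain ⟨t, rfl⟩ := hodd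
      omega
    have h4 : Nat.card F - 1 = 2 * (p / 2) * G := by
      rw [hcard, ← hGm, hp12, Nat.add_sub_cancel, mul_comm]
    have h5 : s ^ (Nat.card F - 1) = -1 := by
      rw [h4, pow_mul, pow_mul, sq, ← hs, h2, hGodd.neg_one_pow]
    rw [h5] at h3
    exact Ring.neg_one_ne_one_of_char_ne_two hF2 h3

end MP7fS
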