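import Pool.Agent.Lib.MP_7f581e_ntS.PslB
import Pool.Agent.Lib.MP_7f581e_ntS.PslC

/-!
A normal subgroup isomorphic to a power of `PSL(2,F)` has a complement, for suitable `F`.
-/

set_option autoImplicit false
set_option linter.unusedSectionVars false

namespace MP7fS

open Matrix

variable {F : Type*} [Field F] {κ : Type*} [Finite κ] [DecidableEq κ]

theorem goodR_comp (π π' : Equiv.Perm κ) (g g' : κ → GL (Fin 2) F) (σ σ' : κ → (F ≃+* F))
    (h : ∀ j, (g' j).1.map (σ (π' j)) = (g' j).1) :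
    (goodR π' g' σ').trans (goodR π g σ) =
      goodR (π'.trans π) (fun j => g (π' j) * g' j) (fun j => (σ' j).trans (σ (π' j))) := by
  ext1 b
  funext i
  obtain ⟨j, rfl⟩ := (π'.trans π).surjective i
  rw [goodR_apply]
  change goodR π g σ (goodR π' g' σ' b) (π (π' j)) = _
  rw [goodR_apply, goodR_apply, rc_rc _ _ _ _ (h j)]

theorem goodR_one : goodR (Equiv.refl κ) (fun _ => (1 : GL (Fin 2) F))
    (fun _ => RingEquiv.refl F) = RingEquiv.refl _ := by
  ext1 b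
  funext i
  rw [goodR_apply', rc_apply, inv_one]
  change (1 : Matrix (Fin 2) (Fin 2) F) * (b i).map (RingEquiv.refl F) *
    (1 : Matrix (Fin 2) (Fin 2) F) = b i
  rw [one_mul, mul_one]
  ext a c
  rfl

theorem rc_smul {g g' : GL (Fin 2) F} {s : F} (hs : s ≠ 0) (h : g.1 = s • g'.1) (σ : F ≃+* F)
    (A : Matrix (Fin 2) (Fin 2) F) : rc g σ A = rc g' σ A := by
  have h1 : (g⁻¹).1 = s⁻¹ • (g'⁻¹).1 := by
    have h2 : g.1 * (s⁻¹ • (g'⁻¹).1) = 1 := by
      rw [h, Matrix.mul_smul, Matrix.smul_mul, smul_smul, inv_mul_cancel₀ hs, one_smul]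
      exact g'.mul_inv
    calc (g⁻¹).1 = (g⁻¹).1 * (g.1 * (s⁻¹ • (g'⁻¹).1)) := by rw [h2, mul_one]
      _ = ((g⁻¹).1 * g.1) * (s⁻¹ • (g'⁻¹).1) := by rw [mul_assoc]
      _ = s⁻¹ • (g'⁻¹).1 := by
        have : (g⁻¹).1 * g.1 = 1 := g.inv_mul
        rw [this, one_mul]
  rw [rc_apply, rc_apply, h, h1, Matrix.smul_mul, Matrix.smul_mul, Matrix.mul_smul, smul_smul,
    mul_inv_cancel₀ hs, one_smul]

theorem map_pow_fix {n0 : GL (Fin 2) F} {σ : F ≃+* F} (h : n0.1.map σ = n0.1) (a : ℕ) :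
    (n0 ^ a).1.map σ = (n0 ^ a).1 := by
  induction a with
  | zero =>
    rw [pow_zero]
    exact Matrix.map_one σ (map_zero σ) (map_one σ)
  | succ a ih =>
    have h1 : (n0 ^ (a + 1)).1 = (n0 ^ a).1 * n0.1 := by
      rw [pow_succ]
      rfl
    rw [h1, Matrix.map_mul, ih, h]

section

variable {E : Type*} [Group E] (N : Subgroup E) [hN : N.Normal] (θ : N ≃* (κ → PSL2 F))

/-- The automorphism given by conjugation. -/
def psiN (e : E) : (κ → PSL2 F) ≃* (κ → PSL2 F) :=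
  (θ.symm.trans (MulAut.conjNormal e)).trans θ

theorem psiN_apply (e : E) (z : κ → PSL2 F) :
    psiN N θ e z = θ (MulAut.conjNormal e (θ.symm z)) := rfl

theorem psiN_one : psiN N θ 1 = MulEquiv.refl _ := by
  ext1 z
  rw [psiN_apply, map_one, MulAut.one_apply, MulEquiv.apply_symm_apply]
  rfl

theorem psiN_mul (e f : E) : psiN N θ (e * f) = (psiN N θ f).trans (psiN N θ e) := by
  ext1 z
  rw [MulEquiv.trans_apply, psiN_apply, psiN_apply, psiN_apply, map_mul, MulAut.mul_apply,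
    MulEquiv.symm_apply_apply]

/-- The lift of elements to `E`. -/
def nn : (κ → SL2 F) →* E where
  toFun x := (θ.symm (mkk x) : E)
  map_one' := by
    have : mkk (1 : κ → SL2 F) = 1 := rfl
    rw [this, map_one]
    rfl
  map_mul' x y := by
    rw [mkk_mul, map_mul]
    rfl

theorem nn_mem (x : κ → SL2 F) : nn N θ x ∈ N := (θ.symm (mkk x)).2

theorem nn_surj {e : E} (he : e ∈ N) : ∃ x, nn N θ x = e := by
  obtain ⟨x, hx⟩ := mkk_surj (θ ⟨e, he⟩)
  refine ⟨x, ?_⟩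
  change (θ.symm (mkk x) : E) = e
  rw [hx, MulEquiv.symm_apply_apply]

theorem nn_eq_one {x : κ → SL2 F} (h : mkk x = 1) : nn N θ x = 1 := by
  change (θ.symm (mkk x) : E) = 1
  rw [h, map_one]
  rfl

theorem nn_of_psi {e : E} {x y : κ → SL2 F} (h : mkk y = psiN N θ e (mkk x)) :
    nn N θ y = e * nn N θ x * e⁻¹ := by
  change (θ.symm (mkk y) : E) = e * (θ.symm (mkk x) : E) * e⁻¹
  rw [h, psiN_apply, MulEquiv.symm_apply_apply, MulAut.conjNormal_apply]

theorem psiN_nn (x : κ → SL2 F) (z : κ → PSL2 F) :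
    psiN N θ (nn N θ x) z = mkk x * z * (mkk x)⁻¹ := by
  apply θ.symm.injective
  rw [psiN_apply, MulEquiv.symm_apply_apply, map_mul, map_mul, map_inv]
  apply Subtype.ext
  rw [MulAut.conjNormal_apply]
  rfl

variable [Finite F] (hF : 4 ≤ Nat.card F) {p : ℕ} [hp : Fact p.Prime] [CharP F p]

include p in
/-- The action of `E` on the matrix ring. -/
noncomputable def rho : E →* RingAut (κ → Matrix (Fin 2) (Fin 2) F) where
  toFun e := ringOf hF (psiN N θ e)
  map_one' := by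
    rw [psiN_one, ringOf_one (p := p)]
    rfl
  map_mul' e f := by
    rw [psiN_mul, ringOf_mul (p := p)]
    rfl

theorem rho_ind (e : E) : Ind (rho N θ hF (p := p) e) (psiN N θ e) := ringOf_ind hF _

theorem rho_adjugate (e : E) (b : κ → Matrix (Fin 2) (Fin 2) F) :
    rho N θ hF (p := p) e (fun i => (b i).adjugate) = fun i => (rho N θ hF (p := p) e b i).adjugate :=
  ringOf_adjugate hF _ b

theorem rho_unique {R : (κ → Matrix (Fin 2) (Fin 2) F) ≃+* (κ → Matrix (Fin 2) (Fin 2) F)} {e : E}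
    (h : Ind R (psiN N θ e)) : rho N θ hF (p := p) e = R :=
  ringOf_unique (p := p) hF h

theorem nn_of_rho {e : E} {x y : κ → SL2 F} (h : rho N θ hF (p := p) e (inc x) = inc y) :
    nn N θ y = e * nn N θ x * e⁻¹ := by
  obtain ⟨z, hz1, hz2⟩ := rho_ind N θ hF (p := p) e x
  have hzy : z = y := by
    apply inc_inj
    rw [← hz1, h]
  rw [hzy] at hz2
  exact nn_of_psi N θ hz2

theorem sl_mul_inv (A : SL2 F) : A.1 * (A⁻¹).1 = 1 :=
  (Matrix.SpecialLinearGroup.coe_mul A A⁻¹).symm.trans (congrArg Subtype.val (mul_inv_cancel A))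

theorem sl_inv_mul (A : SL2 F) : (A⁻¹).1 * A.1 = 1 :=
  (Matrix.SpecialLinearGroup.coe_mul A⁻¹ A).symm.trans (congrArg Subtype.val (inv_mul_cancel A))

/-- The element of the general linear group. -/
def gl (A : SL2 F) : GL (Fin 2) F := ⟨A.1, (A⁻¹).1, sl_mul_inv A, sl_inv_mul A⟩

theorem cj_gl (A B : SL2 F) : cj (gl A) (RingEquiv.refl F) B = A * B * A⁻¹ := by
  apply Subtype.ext
  rw [cj_coe]
  have h1 : B.1.map (RingEquiv.refl F) = B.1 := by
    ext a c
    rfl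
  rw [h1]
  have h2 : (A * B * A⁻¹ : SL2 F).1 = A.1 * B.1 * (A⁻¹).1 := by
    rw [Matrix.SpecialLinearGroup.coe_mul, Matrix.SpecialLinearGroup.coe_mul]
  rw [h2]
  rfl

theorem rho_nn (x : κ → SL2 F) : rho N θ hF (p := p) (nn N θ x) =
    goodR (Equiv.refl κ) (fun j => gl (x j)) (fun _ => RingEquiv.refl F) := by
  apply rho_unique
  apply goodR_ind
  intro z j
  rw [cj_gl, mk_mul, mk_mul, mk_inv]
  change psiN N θ (nn N θ x) (mkk z) j = _
  rw [psiN_nn]
  rfl

/-- The complement, as a submonoid. -/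
def cmpl0 (n0 : GL (Fin 2) F) (hn : IsNrm n0) : Submonoid E where
  carrier := {e | ∃ (π : Equiv.Perm κ) (a : κ → ℕ) (σ : κ → (F ≃+* F)),
    rho N θ hF (p := p) e = goodR π (fun j => n0 ^ (a j)) σ}
  one_mem' := by
    refine ⟨Equiv.refl κ, fun _ => 0, fun _ => RingEquiv.refl F, ?_⟩
    rw [map_one]
    simp only [pow_zero]
    rw [goodR_one]
    rfl
  mul_mem' := by
    rintro e f ⟨π, a, σ, h1⟩ ⟨π', a', σ', h2⟩
    refine ⟨π'.trans π, fun j => a (π' j) + a' j, fun j => (σ' j).trans (σ (π' j)), ?_⟩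
    rw [map_mul, h1, h2]
    change (goodR π' (fun j => n0 ^ (a' j)) σ').trans (goodR π (fun j => n0 ^ (a j)) σ) = _
    rw [goodR_comp _ _ _ _ _ _ (fun j => map_pow_fix (hn.fix _) _)]
    simp only [pow_add]

/-- The complement. -/
def cmpl [Finite E] (n0 : GL (Fin 2) F) (hn : IsNrm n0) : Subgroup E where
  toSubmonoid := cmpl0 N θ hF (p := p) n0 hn
  inv_mem' := by
    intro e he
    have h1 : e⁻¹ = e ^ (orderOf e - 1) := by
      symm
      apply eq_inv_of_mul_eq_one_left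
      rw [← pow_succ, Nat.sub_add_cancel (orderOf_pos e), pow_orderOf_eq_one]
    rw [h1]
    exact Submonoid.pow_mem _ he _

theorem mem_cmpl [Finite E] {n0 : GL (Fin 2) F} {hn : IsNrm n0} {e : E} :
    e ∈ cmpl N θ hF (p := p) n0 hn ↔ ∃ (π : Equiv.Perm κ) (a : κ → ℕ) (σ : κ → (F ≃+* F)),
    rho N θ hF (p := p) e = goodR π (fun j => n0 ^ (a j)) σ := Iff.rfl

theorem cmpl_disj [Finite E] {n0 : GL (Fin 2) F} {hn : IsNrm n0} {e : E} (he : e ∈ N)
    (h : e ∈ cmpl N θ hF (p := p) n0 hn) : e = 1 := by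
  obtain ⟨x, rfl⟩ := nn_surj N θ he
  obtain ⟨π, a, σ, h1⟩ := (mem_cmpl N θ hF).mp h
  rw [rho_nn] at h1
  have hev : ∀ (b : κ → Matrix (Fin 2) (Fin 2) F) (j : κ),
      rc (gl (x (π j))) (RingEquiv.refl F) (b (π j)) = rc (n0 ^ (a j)) (σ j) (b j) := by
    intro b j
    have h2 := congrFun (congrArg (fun R : (κ → Matrix (Fin 2) (Fin 2) F) ≃+*
      (κ → Matrix (Fin 2) (Fin 2) F) => R b) h1) (π j)
    change goodR (Equiv.refl κ) (fun j => gl (x j)) (fun _ => RingEquiv.refl F) b (π j) =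
      goodR π (fun j => n0 ^ (a j)) σ b (π j) at h2
    rw [goodR_apply] at h2
    exact h2
  have hπ : ∀ j, π j = j := by
    intro j
    by_contra hne
    have h2 := hev (Pi.single j 1) j
    rw [Pi.single_eq_same, Pi.single_eq_of_ne hne, map_zero, map_one] at h2
    exact zero_ne_one h2
  apply nn_eq_one
  funext j
  have h2 : ∀ A : SL2 F, mk (cj (gl (x j)) (RingEquiv.refl F) A) = mk (cj (n0 ^ (a j)) (σ j) A) := by
    intro A
    congr 1
    apply Subtype.ext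
    rw [← rc_coe, ← rc_coe]
    have h3 := hev (fun _ => A.1) j
    rw [hπ j] at h3
    exact h3
  obtain ⟨_, c, hc⟩ := cj_unique h2
  have h4 : (x j).1 = (c : F) • (n0 ^ (a j)).1 := by
    ext i k
    exact hc i k
  have h5 : ((c : F) • (n0 ^ (a j)).1).det = 1 := by
    rw [← h4]
    exact (x j).2
  obtain ⟨d, hd⟩ := hn.scal _ _ h5
  rw [hd, smul_smul] at h4
  change mk (x j) = 1
  rw [← mk_one, mk_eq_iff]
  have h6 : ((c : F) * d) * ((c : F) * d) = 1 := by
    have h7 := (x j).2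
    rw [h4, Matrix.det_smul, Matrix.det_one, Fintype.card_fin] at h7
    linear_combination h7
  rcases mul_self_eq_one_iff.mp h6 with h7 | h7
  · left
    intro i k
    rw [h4, h7, one_smul]
    rfl
  · right
    intro i k
    rw [h4, h7, neg_smul, one_smul, Matrix.neg_apply]
    rfl

theorem cmpl_sup [Finite E] {n0 : GL (Fin 2) F} {hn : IsNrm n0} (e : E) :
    ∃ x, nn N θ x * e ∈ cmpl N θ hF (p := p) n0 hn := by
  obtain ⟨π, g, σ, h⟩ := aut_psl2_pow hF (psiN N θ e)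
  choose h0 s a hs hg using fun j => hn.dec (g j)
  refine ⟨fun i => (h0 (π.symm i))⁻¹, (mem_cmpl N θ hF).mpr ⟨π, a, σ, ?_⟩⟩
  have h1 : rho N θ hF (p := p) e = goodR π g σ := rho_unique N θ hF (goodR_ind π g σ _ h)
  rw [map_mul, h1, rho_nn]
  ext1 b
  funext i
  obtain ⟨j, rfl⟩ := π.surjective i
  change goodR (Equiv.refl κ) (fun j => gl (h0 (π.symm j))⁻¹) (fun _ => RingEquiv.refl F)
    (goodR π g σ b) (π j) = goodR π (fun j => n0 ^ (a j)) σ b (π j)
  rw [goodR_apply]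
  have h2 : goodR (Equiv.refl κ) (fun j => gl (h0 (π.symm j))⁻¹) (fun _ => RingEquiv.refl F)
      (goodR π g σ b) (π j) = rc (gl (h0 (π.symm (π j)))⁻¹) (RingEquiv.refl F)
      (goodR π g σ b (π j)) := rfl
  rw [h2, goodR_apply, Equiv.symm_apply_apply, rc_rc _ _ _ _ (by ext a b; rfl)]
  have h3 : (σ j).trans (RingEquiv.refl F) = σ j := by
    ext x
    rfl
  rw [h3]
  apply rc_smul (hs j)
  have h4 : (gl (h0 j)⁻¹ * g j).1 = ((h0 j)⁻¹).1 * (g j).1 := rfl
  rw [h4, hg, Matrix.mul_smul, ← mul_assoc]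
  have h5 : ((h0 j)⁻¹).1 * (h0 j).1 = 1 := sl_inv_mul (h0 j)
  rw [h5, one_mul]

end

end MP7fS
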