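import Pool.Agent.Lib.MP_7f581e_ntS.PslD

/-!
Group extensions with kernel a power of `PSL(2,F)`: the group is a quotient of a semidirect
product of `SL(2,F) ^ κ` with a complement.
-/

set_option autoImplicit false
set_option linter.unusedSectionVars false

namespace MP7fS

open Matrix

theorem psl_split {F : Type*} [Field F] [Finite F] {κ : Type*} [Finite κ] [DecidableEq κ]
    {p m : ℕ} [Fact p.Prime] [CharP F p] (hcard : Nat.card F = p ^ m) (hpm : p = 2 ∨ Odd m)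
    (hF : 4 ≤ Nat.card F) {E : Type*} [Group E] [Finite E] (N : Subgroup E) [N.Normal]
    (θ : N ≃* (κ → PSL2 F)) :
    ∃ (E0 : Subgroup E) (ρ : E0 →* RingAut (κ → Matrix (Fin 2) (Fin 2) F))
      (n : (κ → SL2 F) →* E),
      (∀ (e : E0) (b : κ → Matrix (Fin 2) (Fin 2) F),
        ρ e (fun i => (b i).adjugate) = fun i => (ρ e b i).adjugate) ∧
      (∀ (e : E0) (x y : κ → SL2 F), ρ e (inc x) = inc y → n y = e * n x * (e : E)⁻¹) ∧
      (∀ e : E, ∃ (x : κ → SL2 F) (e0 : E0), e = n x * e0) ∧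
      Nonempty (E0 ≃* E ⧸ N) := by
  obtain ⟨n0, hn⟩ := exists_isNrm (F := F) hcard hpm
  refine ⟨cmpl N θ hF (p := p) n0 hn, (rho N θ hF (p := p)).comp (Subgroup.subtype _), nn N θ,
    fun e b => rho_adjugate N θ hF (p := p) e b, fun e x y h => nn_of_rho N θ hF (p := p) h,
    fun e => ?_, ?_⟩
  · obtain ⟨x, hx⟩ := cmpl_sup N θ hF (p := p) (hn := hn) e
    refine ⟨x⁻¹, ⟨_, hx⟩, ?_⟩
    rw [map_inv, inv_mul_cancel_left]
  · refine ⟨MulEquiv.ofBijective ((QuotientGroup.mk' N).comp (Subgroup.subtype _)) ⟨?_, ?_⟩⟩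
    · rw [injective_iff_map_eq_one]
      rintro ⟨e, he⟩ h
      have h1 : e ∈ N := (QuotientGroup.eq_one_iff e).mp h
      exact Subtype.ext (cmpl_disj N θ hF (p := p) h1 he)
    · intro q
      obtain ⟨e, rfl⟩ := QuotientGroup.mk'_surjective N q
      obtain ⟨x, hx⟩ := cmpl_sup N θ hF (p := p) (hn := hn) e
      refine ⟨⟨_, hx⟩, ?_⟩
      change (QuotientGroup.mk' N) (nn N θ x * e) = _
      have h1 : QuotientGroup.mk' N (nn N θ x) = 1 := (QuotientGroup.eq_one_iff _).mpr (nn_mem N θ x)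
      rw [map_mul, h1, one_mul]

/-- The same statement, with the isomorphism of the complement with the quotient explicit. -/
theorem psl_split' {F : Type*} [Field F] [Finite F] {κ : Type*} [Finite κ] [DecidableEq κ]
    {p m : ℕ} [Fact p.Prime] [CharP F p] (hcard : Nat.card F = p ^ m) (hpm : p = 2 ∨ Odd m)
    (hF : 4 ≤ Nat.card F) {E : Type*} [Group E] [Finite E] (N : Subgroup E) [N.Normal]
    (θ : N ≃* (κ → PSL2 F)) :
    ∃ (E0 : Subgroup E) (ρ : E0 →* RingAut (κ → Matrix (Fin 2) (Fin 2) F))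
      (n : (κ → SL2 F) →* E),
      (∀ (e : E0) (b : κ → Matrix (Fin 2) (Fin 2) F),
        ρ e (fun i => (b i).adjugate) = fun i => (ρ e b i).adjugate) ∧
      (∀ (e : E0) (x y : κ → SL2 F), ρ e (inc x) = inc y → n y = e * n x * (e : E)⁻¹) ∧
      (∀ e : E, ∃ (x : κ → SL2 F) (e0 : E0), e = n x * e0) ∧
      (∀ x, n x ∈ N) ∧ ∀ e0 : E0, (e0 : E) ∈ N → e0 = 1 := by
  obtain ⟨n0, hn⟩ := exists_isNrm (F := F) hcard hpm
  refine ⟨cmpl N θ hF (p := p) n0 hn, (rho N θ hF (p := p)).comp (Subgroup.subtype _), nn N θ,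
    fun e b => rho_adjugate N θ hF (p := p) e b, fun e x y h => nn_of_rho N θ hF (p := p) h,
    fun e => ?_, nn_mem N θ, ?_⟩
  · obtain ⟨x, hx⟩ := cmpl_sup N θ hF (p := p) (hn := hn) e
    refine ⟨x⁻¹, ⟨_, hx⟩, ?_⟩
    rw [map_inv, inv_mul_cancel_left]
  · rintro ⟨e, he⟩ h
    exact Subtype.ext (cmpl_disj N θ hF (p := p) h he)

end MP7fS
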